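import Mathlib

set_option autoImplicit false

namespace Pool.Agent.Helper101.Stack

/-- one step of the stack process -/
def step (p : List ℕ × List ℕ) (z : ℕ) : List ℕ × List ℕ :=
  (z :: p.1.dropWhile (fun a : ℕ => decide (a < z)),
   p.2 ++ p.1.takeWhile (fun a : ℕ => decide (a < z)))

def fin (p : List ℕ × List ℕ) : List ℕ := p.2 ++ p.1

def srt (σ : List ℕ) : List ℕ := fin (σ.foldl step ([], []))

def des (t : List ℕ) : ℕ := (List.zip t t.tail).countP (fun q : ℕ × ℕ => decide (q.2 < q.1))

theorem run_out (σ : List ℕ) : ∀ (st out : List ℕ),
    σ.foldl step (st, out) = ((σ.foldl step (st, [])).1, out ++ (σ.foldl step (st, [])).2) := by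
  induction σ with
  | nil => intro st out; simp
  | cons z σ ih =>
    intro st out
    simp only [List.foldl_cons, step]
    rw [ih _ (out ++ _), ih _ ([] ++ _)]
    simp

theorem run_bottom (σ : List ℕ) : ∀ (st out st0 : List ℕ), (∀ z ∈ σ, ∀ a ∈ st0, z < a) →
    σ.foldl step (st ++ st0, out) =
      ((σ.foldl step (st, out)).1 ++ st0, (σ.foldl step (st, out)).2) := by
  induction σ with
  | nil => intro st out st0 _; simp
  | cons z σ ih =>
    intro st out st0 h
    have hz : ∀ a ∈ st0, ¬ a < z := fun a ha => not_lt.mpr (le_of_lt (h z (by simp) a ha))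
    have h' : ∀ z ∈ σ, ∀ a ∈ st0, z < a := fun y hy => h y (by simp [hy])
    simp only [List.foldl_cons]
    have e1 : (st ++ st0).dropWhile (fun a : ℕ => decide (a < z)) =
        st.dropWhile (fun a : ℕ => decide (a < z)) ++ st0 := by
      induction st with
      | nil =>
        cases st0 with
        | nil => simp
        | cons b t =>
          have : ¬ b < z := hz b (by simp)
          simp [List.dropWhile_cons, this]
      | cons c t iht =>
        by_cases hc : c < z
        · simp [List.dropWhile_cons, hc, iht]
        · simp [List.dropWhile_cons, hc]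
    have e2 : (st ++ st0).takeWhile (fun a : ℕ => decide (a < z)) =
        st.takeWhile (fun a : ℕ => decide (a < z)) := by
      induction st with
      | nil =>
        cases st0 with
        | nil => simp
        | cons b t =>
          have : ¬ b < z := hz b (by simp)
          simp [List.takeWhile_cons, this]
      | cons c t iht =>
        by_cases hc : c < z
        · simp [List.takeWhile_cons, hc]
          have e1' : (t ++ st0).dropWhile (fun a : ℕ => decide (a < z)) =
            t.dropWhile (fun a : ℕ => decide (a < z)) ++ st0 := by
              simpa [List.dropWhile_cons, hc] using e1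
          exact iht e1'
        · simp [List.takeWhile_cons, hc]
    have : step (st ++ st0, out) z = ((step (st, out) z).1 ++ st0, (step (st, out) z).2) := by
      simp only [step, e1, e2, List.cons_append]
    rw [this]
    exact ih _ _ _ h'

theorem run_perm (σ : List ℕ) : ∀ (st out : List ℕ),
    (fin (σ.foldl step (st, out))).Perm (out ++ st ++ σ) := by
  induction σ with
  | nil => intro st out; simp [fin]
  | cons z σ ih =>
    intro st out
    simp only [List.foldl_cons, step]
    refine (ih _ _).trans ?_
    have h : (st.takeWhile (fun a : ℕ => decide (a < z)) ++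
        st.dropWhile (fun a : ℕ => decide (a < z))) = st := List.takeWhile_append_dropWhile
    have : (out ++ List.takeWhile (fun a => decide (a < z)) st ++
        z :: List.dropWhile (fun a => decide (a < z)) st ++ σ).Perm
        (out ++ (List.takeWhile (fun a => decide (a < z)) st ++
        List.dropWhile (fun a => decide (a < z)) st) ++ z :: σ) := by
      simp only [List.append_assoc, List.cons_append]
      refine List.Perm.append_left _ ?_
      refine List.Perm.append_left _ ?_
      exact (List.perm_middle).symm
    rw [h] at this
    exact this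

theorem srt_perm (σ : List ℕ) : (srt σ).Perm σ := by
  simpa [srt] using run_perm σ [] []

theorem srt_nil : srt [] = [] := rfl

theorem mem_srt {σ : List ℕ} {a : ℕ} : a ∈ srt σ ↔ a ∈ σ := (srt_perm σ).mem_iff

theorem srt_split (l1 l2 : List ℕ) (M : ℕ) (h1 : ∀ a ∈ l1, a < M) (h2 : ∀ a ∈ l2, a < M) :
    srt (l1 ++ M :: l2) = srt l1 ++ srt l2 ++ [M] := by
  unfold srt
  rw [List.foldl_append, List.foldl_cons]
  set p := l1.foldl step ([], []) with hp
  have hmem : ∀ a ∈ p.1, a < M := by
    intro a ha
    apply h1
    have : a ∈ srt l1 := by simp [srt, fin, ← hp, ha]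
    exact mem_srt.1 this
  have e1 : p.1.dropWhile (fun a : ℕ => decide (a < M)) = [] := by
    rw [List.dropWhile_eq_nil_iff]; intro a ha; simpa using hmem a ha
  have e2 : p.1.takeWhile (fun a : ℕ => decide (a < M)) = p.1 := by
    rw [List.takeWhile_eq_self_iff]; intro a ha; simpa using hmem a ha
  have e3 : step p M = ([] ++ [M], p.2 ++ p.1) := by
    simp [step, e1, e2]
  rw [e3, run_bottom l2 [] (p.2 ++ p.1) [M] (by simpa using h2), run_out l2 [] (p.2 ++ p.1)]
  simp [fin]

end Pool.Agent.Helper101.Stack
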