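import Mathlib
import Pool.Agent.Helper101.StackA

set_option autoImplicit false

namespace Pool.Agent.Helper101.Stack

open Finset

/-- words using each element of `V` exactly once -/
noncomputable def W (V : Finset ℕ) : Finset (List ℕ) := V.toList.permutations.toFinset

theorem mem_W {V : Finset ℕ} {l : List ℕ} : l ∈ W V ↔ l.Nodup ∧ ∀ a, a ∈ l ↔ a ∈ V := by
  unfold W
  rw [List.mem_toFinset, List.mem_permutations]
  constructor
  · intro h
    exact ⟨h.nodup_iff.2 V.nodup_toList, fun a => by rw [h.mem_iff, Finset.mem_toList]⟩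
  · rintro ⟨h1, h2⟩
    rw [List.perm_ext_iff_of_nodup h1 V.nodup_toList]
    intro a; rw [h2, Finset.mem_toList]

theorem W_empty : W ∅ = {[]} := by
  ext l
  rw [mem_W]
  simp only [Finset.notMem_empty, iff_false, Finset.mem_singleton]
  constructor
  · rintro ⟨_, h⟩; exact List.eq_nil_iff_forall_not_mem.2 h
  · rintro rfl; simp

theorem sum_W_insert {R : Type*} [AddCommMonoid R] (V : Finset ℕ) (M : ℕ) (hM : M ∉ V)
    (φ : List ℕ → R) :
    ∑ l ∈ W (insert M V), φ l =
      ∑ B ∈ V.powerset, ∑ l1 ∈ W B, ∑ l2 ∈ W (V \ B), φ (l1 ++ M :: l2) := by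
  have e : ∀ B ∈ V.powerset, ∑ l1 ∈ W B, ∑ l2 ∈ W (V \ B), φ (l1 ++ M :: l2) =
      ∑ p ∈ W B ×ˢ W (V \ B), φ (p.1 ++ M :: p.2) := by
    intro B _; rw [Finset.sum_product]
  rw [Finset.sum_congr rfl e, Finset.sum_sigma']
  symm
  refine Finset.sum_bij (fun p _ => p.2.1 ++ M :: p.2.2) ?_ ?_ ?_ ?_
  · rintro ⟨B, l1, l2⟩ h
    simp only [Finset.mem_sigma, Finset.mem_powerset, Finset.mem_product, mem_W,
      Finset.mem_sdiff] at h
    obtain ⟨hB, ⟨hn1, h1⟩, hn2, h2⟩ := h
    rw [mem_W]
    refine ⟨?_, ?_⟩
    · rw [List.nodup_append]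
      refine ⟨hn1, ?_, ?_⟩
      · rw [List.nodup_cons]
        refine ⟨?_, hn2⟩
        intro hM2; exact hM ((h2 M).1 hM2).1
      · intro a ha b hb hab
        subst hab
        rcases List.mem_cons.1 hb with rfl | hb
        · exact hM (hB ((h1 _).1 ha))
        · exact ((h2 a).1 hb).2 ((h1 a).1 ha)
    · intro a
      simp only [List.mem_append, List.mem_cons, h1, h2, Finset.mem_insert]
      constructor
      · rintro (h | h | h)
        · exact Or.inr (hB h)
        · exact Or.inl h
        · exact Or.inr h.1
      · rintro (h | h)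
        · exact Or.inr (Or.inl h)
        · by_cases ha : a ∈ B
          · exact Or.inl ha
          · exact Or.inr (Or.inr ⟨h, ha⟩)
  · rintro ⟨B, l1, l2⟩ h ⟨B', l1', l2'⟩ h' heq
    simp only [Finset.mem_sigma, Finset.mem_powerset, Finset.mem_product, mem_W,
      Finset.mem_sdiff] at h h'
    obtain ⟨hB, ⟨hn1, h1⟩, hn2, h2⟩ := h
    obtain ⟨hB', ⟨hn1', h1'⟩, hn2', h2'⟩ := h'
    simp only at heq
    have hM1 : M ∉ l1 := fun hh => hM (hB ((h1 M).1 hh))
    have hM1' : M ∉ l1' := fun hh => hM (hB' ((h1' M).1 hh))
    have key : ∀ (a b c d : List ℕ), M ∉ a → M ∉ c → a ++ M :: b = c ++ M :: d → a = c ∧ b = d := by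
      intro a
      induction a with
      | nil =>
        intro b c d _ hc he
        cases c with
        | nil => simpa using he
        | cons x c =>
          simp only [List.nil_append, List.cons_append, List.cons.injEq] at he
          exact absurd (by simp [he.1]) hc
      | cons y a ih =>
        intro b c d ha hc he
        cases c with
        | nil =>
          simp only [List.nil_append, List.cons_append, List.cons.injEq] at he
          exact absurd (by simp [he.1]) ha
        | cons x c =>
          simp only [List.cons_append, List.cons.injEq] at he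
          obtain ⟨h3, h4⟩ := ih b c d (fun hh => ha (by simp [hh])) (fun hh => hc (by simp [hh])) he.2
          exact ⟨by rw [he.1, h3], h4⟩
    obtain ⟨e1, e2⟩ := key _ _ _ _ hM1 hM1' heq
    subst e1 e2
    have : B = B' := by ext a; rw [← h1, ← h1']
    subst this
    rfl
  · intro l hl
    rw [mem_W] at hl
    obtain ⟨hn, hm⟩ := hl
    have hMl : M ∈ l := (hm M).2 (Finset.mem_insert_self _ _)
    obtain ⟨s, t, rfl⟩ := List.append_of_mem hMl
    have hn' := hn
    rw [List.nodup_append] at hn
    obtain ⟨hs, ht, hst⟩ := hn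
    rw [List.nodup_cons] at ht
    have hs1 : ∀ a ∈ s, a ∈ V := by
      intro a ha
      have := (hm a).1 (by simp [ha])
      rcases Finset.mem_insert.1 this with rfl | h
      · exact absurd rfl (hst a ha a (by simp))
      · exact h
    have ht1 : ∀ a ∈ t, a ∈ V := by
      intro a ha
      have := (hm a).1 (by simp [ha])
      rcases Finset.mem_insert.1 this with rfl | h
      · exact absurd ha ht.1
      · exact h
    refine ⟨⟨s.toFinset, s, t⟩, ?_, rfl⟩
    simp only [Finset.mem_sigma, Finset.mem_powerset, Finset.mem_product, mem_W,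
      Finset.mem_sdiff, List.mem_toFinset]
    refine ⟨fun a ha => hs1 a (by simpa using ha), ⟨hs, fun a => by simp⟩, ht.2, fun a => ?_⟩
    constructor
    · intro ha
      exact ⟨ht1 a ha, fun has => hst a has a (by simp [ha]) rfl⟩
    · rintro ⟨haV, has⟩
      have := (hm a).2 (Finset.mem_insert_of_mem haV)
      simp only [List.mem_append, List.mem_cons] at this
      rcases this with h | rfl | h
      · exact absurd h has
      · exact absurd haV hM
      · exact h
  · rintro ⟨B, l1, l2⟩ _; rfl

/-! descents -/

theorem des_nil : des [] = 0 := rfl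

theorem des_singleton (a : ℕ) : des [a] = 0 := rfl

theorem des_cons_cons (a b : ℕ) (l : List ℕ) :
    des (a :: b :: l) = (if b < a then 1 else 0) + des (b :: l) := by
  simp only [des, List.tail_cons, List.zip_cons_cons, List.countP_cons]
  rw [add_comm]
  simp

theorem des_append (l : List ℕ) : ∀ (a b : ℕ) (r : List ℕ),
    des ((l ++ [a]) ++ (b :: r)) = des (l ++ [a]) + (if b < a then 1 else 0) + des (b :: r) := by
  induction l with
  | nil => intro a b r; simp [des_cons_cons, des_singleton]
  | cons c l ih =>
    intro a b r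
    cases l with
    | nil => 
      simp only [List.cons_append, List.nil_append, des_cons_cons, des_singleton]
      omega
    | cons d l =>
      have := ih a b r
      simp only [List.cons_append] at this ⊢
      rw [des_cons_cons, this, des_cons_cons c d]
      omega

theorem des_append_max (l : List ℕ) (M : ℕ) (h : ∀ a ∈ l, a < M) : des (l ++ [M]) = des l := by
  rcases List.eq_nil_or_concat l with rfl | ⟨L, b, rfl⟩
  · rfl
  · rw [List.concat_eq_append]
    rw [des_append]
    have : ¬ M < b := not_lt.2 (le_of_lt (h b (by simp)))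
    simp [this, des_singleton]

end Pool.Agent.Helper101.Stack
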