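import Mathlib
import Pool.Agent.Helper101.StackB

set_option autoImplicit false

namespace Pool.Agent.Helper101.Stack

open Finset
open scoped Classical

/-- the head of the sorted word satisfies `p` -/
def Hd (p : ℕ → Prop) (l : List ℕ) : Prop := ∃ a, (srt l).head? = some a ∧ p a

theorem Hd_nil (p : ℕ → Prop) : ¬ Hd p [] := by
  rintro ⟨a, h, _⟩; simp [srt_nil] at h

noncomputable def R (x : ℂ) (p : ℕ → Prop) (V : Finset ℕ) : ℂ :=
  ∑ l ∈ W V, if Hd p l then x ^ des (srt l) else 0

theorem R_empty (x : ℂ) (p : ℕ → Prop) : R x p ∅ = 0 := by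
  simp [R, W_empty, Hd_nil]

theorem R_eq_zero (x : ℂ) (c : ℕ) (V : Finset ℕ) (h : ∀ a ∈ V, a ≤ c) :
    R x (fun a => c < a) V = 0 := by
  unfold R
  refine Finset.sum_eq_zero fun l hl => ?_
  rw [if_neg]
  rintro ⟨a, ha, hc⟩
  have : a ∈ srt l := List.mem_of_head? ha
  rw [mem_srt] at this
  exact absurd hc (not_lt.2 (h a (((mem_W.1 hl).2 a).1 this)))

theorem srt_ne_nil {l : List ℕ} (h : l ≠ []) : srt l ≠ [] := by
  intro hh
  have := srt_perm l
  rw [hh] at this
  exact h (List.nil_perm.1 this)

theorem W_ne_nil {B : Finset ℕ} (hB : B.Nonempty) {l : List ℕ} (hl : l ∈ W B) : l ≠ [] := by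
  rintro rfl
  obtain ⟨a, ha⟩ := hB
  have := ((mem_W.1 hl).2 a).2 ha
  simp at this

theorem last_srt {B : Finset ℕ} (hB : B.Nonempty) {l : List ℕ} (hl : l ∈ W B) :
    ∃ L, srt l = L ++ [B.sup id] := by
  obtain ⟨hn, hm⟩ := mem_W.1 hl
  have hM : B.sup id ∈ B := by
    obtain ⟨i, hi, h⟩ := Finset.exists_mem_eq_sup B hB id
    rw [h]; exact hi
  obtain ⟨s, t, rfl⟩ := List.append_of_mem ((hm _).2 hM)
  rw [List.nodup_append, List.nodup_cons] at hn
  refine ⟨srt s ++ srt t, ?_⟩
  rw [srt_split]
  · intro a ha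
    have h1 : a ∈ B := (hm a).1 (by simp [ha])
    have h2 : a ≤ B.sup id := Finset.le_sup (f := id) h1
    refine lt_of_le_of_ne h2 ?_
    exact hn.2.2 a ha _ (by simp)
  · intro a ha
    have h1 : a ∈ B := (hm a).1 (by simp [ha])
    have h2 : a ≤ B.sup id := Finset.le_sup (f := id) h1
    refine lt_of_le_of_ne h2 ?_
    rintro rfl
    exact hn.2.1.1 ha

theorem R_insert (x : ℂ) (p : ℕ → Prop) (V : Finset ℕ) (M : ℕ) (hM : ∀ a ∈ V, a < M) :
    R x p (insert M V) = (if V = ∅ ∧ p M then 1 else 0) + 2 * R x p V +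
      ∑ B ∈ V.powerset, R x p B * (x * R x (fun _ => True) (V \ B) +
        (1 - x) * R x (fun a => B.sup id < a) (V \ B)) := by
  have hMV : M ∉ V := fun h => lt_irrefl _ (hM M h)
  have hlt : ∀ B ⊆ V, ∀ l ∈ W B, ∀ a ∈ l, a < M := by
    intro B hB l hl a ha
    exact hM a (hB (((mem_W.1 hl).2 a).1 ha))
  have e0 : R x p (insert M V) = ∑ B ∈ V.powerset, ∑ l1 ∈ W B, ∑ l2 ∈ W (V \ B),
      if Hd p (l1 ++ M :: l2) then x ^ des (srt (l1 ++ M :: l2)) else 0 := by
    unfold R; rw [sum_W_insert V M hMV]
  rw [e0]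
  -- the term B = ∅
  have eE : ∑ l1 ∈ W ∅, ∑ l2 ∈ W (V \ ∅),
      (if Hd p (l1 ++ M :: l2) then x ^ des (srt (l1 ++ M :: l2)) else 0) =
      (if V = ∅ ∧ p M then 1 else 0) + R x p V := by
    rw [W_empty, Finset.sum_singleton, Finset.sdiff_empty]
    by_cases hV : V = ∅
    · subst hV
      rw [W_empty, Finset.sum_singleton, R_empty]
      have h1 : srt [M] = [M] := rfl
      by_cases hp : p M
      · have : Hd p [M] := ⟨M, by simp [h1], hp⟩
        simp [this, hp, h1, des_singleton]
      · have : ¬ Hd p [M] := by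
          rintro ⟨a, ha, hpa⟩
          simp [h1] at ha; subst ha; exact hp hpa
        simp [this, hp]
    · have hV' : V.Nonempty := Finset.nonempty_iff_ne_empty.2 hV
      rw [if_neg (fun h => hV h.1), zero_add]
      unfold R
      refine Finset.sum_congr rfl fun l hl => ?_
      have hs : srt ([] ++ M :: l) = srt l ++ [M] := by
        rw [srt_split [] l M (by simp) (hlt V (Finset.Subset.refl _) l hl)]; simp [srt_nil]
      have hne : srt l ≠ [] := srt_ne_nil (W_ne_nil hV' hl)
      have h1 : (srt l ++ [M]).head? = (srt l).head? := by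
        rw [List.head?_append_of_ne_nil _ hne]
      have h2 : des (srt l ++ [M]) = des (srt l) := by
        apply des_append_max
        intro a ha
        exact hlt V (Finset.Subset.refl _) l hl a (mem_srt.1 ha)
      unfold Hd
      rw [hs, h1, h2]
  -- the terms B nonempty
  have eB : ∀ B ∈ V.powerset, B.Nonempty → ∑ l1 ∈ W B, ∑ l2 ∈ W (V \ B),
      (if Hd p (l1 ++ M :: l2) then x ^ des (srt (l1 ++ M :: l2)) else 0) =
      R x p B * ((if V \ B = ∅ then 1 else 0) + (x * R x (fun _ => True) (V \ B) +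
        (1 - x) * R x (fun a => B.sup id < a) (V \ B))) := by
    intro B hBV hB
    rw [Finset.mem_powerset] at hBV
    unfold R
    rw [Finset.sum_mul]
    refine Finset.sum_congr rfl fun l1 hl1 => ?_
    have hl1ne : l1 ≠ [] := W_ne_nil hB hl1
    have hs1 : srt l1 ≠ [] := srt_ne_nil hl1ne
    have hl1M : ∀ a ∈ l1, a < M := hlt B hBV l1 hl1
    obtain ⟨L, hL⟩ := last_srt hB hl1
    by_cases hC : V \ B = ∅
    · rw [hC, W_empty, Finset.sum_singleton]
      have hs : srt (l1 ++ [M]) = srt l1 ++ [M] := by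
        rw [srt_split l1 [] M hl1M (by simp)]; simp [srt_nil]
      have h1 : (srt l1 ++ [M]).head? = (srt l1).head? := by
        rw [List.head?_append_of_ne_nil _ hs1]
      have h2 : des (srt l1 ++ [M]) = des (srt l1) := by
        apply des_append_max
        intro a ha
        exact hl1M a (mem_srt.1 ha)
      unfold Hd
      rw [hs, h1, h2]
      simp [srt_nil]
    · have hC' : (V \ B).Nonempty := Finset.nonempty_iff_ne_empty.2 hC
      rw [if_neg hC, zero_add, Finset.mul_sum, Finset.mul_sum, ← Finset.sum_add_distrib,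
        Finset.mul_sum]
      refine Finset.sum_congr rfl fun l2 hl2 => ?_
      have hl2ne : l2 ≠ [] := W_ne_nil hC' hl2
      have hs2 : srt l2 ≠ [] := srt_ne_nil hl2ne
      have hl2M : ∀ a ∈ l2, a < M := hlt (V \ B) Finset.sdiff_subset l2 hl2
      obtain ⟨b, r, hbr⟩ := List.exists_cons_of_ne_nil hs2
      have hbmem : b ∈ V \ B := ((mem_W.1 hl2).2 b).1 (mem_srt.1 (by rw [hbr]; simp))
      have hbne : b ≠ B.sup id := by
        rintro h
        obtain ⟨i, hi, h'⟩ := Finset.exists_mem_eq_sup B hB id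
        rw [h, h'] at hbmem
        exact (Finset.mem_sdiff.1 hbmem).2 hi
      have hs : srt (l1 ++ M :: l2) = (srt l1 ++ srt l2) ++ [M] := by
        rw [srt_split l1 l2 M hl1M hl2M]
      have h1 : ((srt l1 ++ srt l2) ++ [M]).head? = (srt l1).head? := by
        rw [List.append_assoc, List.head?_append_of_ne_nil _ hs1]
      have h2 : des ((srt l1 ++ srt l2) ++ [M]) = des (srt l1 ++ srt l2) := by
        apply des_append_max
        intro a ha
        rcases List.mem_append.1 ha with ha | ha
        · exact hl1M a (mem_srt.1 ha)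
        · exact hl2M a (mem_srt.1 ha)
      have h3 : des (srt l1 ++ srt l2) = des (srt l1) + (if b < B.sup id then 1 else 0) +
          des (srt l2) := by
        rw [hL, hbr, des_append]
      have hT : Hd (fun _ => True) l2 := ⟨b, by rw [hbr]; rfl, trivial⟩
      have hB2 : Hd (fun a => B.sup id < a) l2 ↔ B.sup id < b := by
        constructor
        · rintro ⟨a, ha, h⟩
          rw [hbr] at ha
          simp only [List.head?_cons, Option.some.injEq] at ha
          rw [ha]; exact h
        · intro h; exact ⟨b, by rw [hbr]; rfl, h⟩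
      have hH : Hd p (l1 ++ M :: l2) ↔ Hd p l1 := by
        unfold Hd; rw [hs, h1]
      simp only [hH, hT, hB2, if_true]
      rw [hs, h2, h3]
      by_cases hp : Hd p l1
      · simp only [hp, if_true]
        rcases lt_or_gt_of_ne hbne with h | h
        · have h' : ¬ B.sup id < b := not_lt.2 h.le
          simp only [h, h', if_true, if_false]
          ring
        · have h' : ¬ b < B.sup id := not_lt.2 h.le
          have h'' : B.sup id < b := h
          simp only [h', h'', if_true, if_false]
          ring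
      · simp [hp]
  -- combine
  have e1 : ∀ B ∈ V.powerset, ∑ l1 ∈ W B, ∑ l2 ∈ W (V \ B),
      (if Hd p (l1 ++ M :: l2) then x ^ des (srt (l1 ++ M :: l2)) else 0) =
      (if B = ∅ then ((if V = ∅ ∧ p M then 1 else 0) + R x p V) else 0) +
      (if B = V then R x p B else 0) + R x p B * (x * R x (fun _ => True) (V \ B) +
        (1 - x) * R x (fun a => B.sup id < a) (V \ B)) := by
    intro B hB
    by_cases hBe : B = ∅
    · subst hBe
      rw [eE]
      simp [R_empty]
    · rw [eB B hB (Finset.nonempty_iff_ne_empty.2 hBe), if_neg hBe, zero_add, mul_add]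
      congr 1
      have hBV := Finset.mem_powerset.1 hB
      by_cases h : B = V
      · subst h; simp
      · have : V \ B ≠ ∅ := by
          intro h'
          exact h (Finset.Subset.antisymm hBV (Finset.sdiff_eq_empty_iff_subset.1 h'))
        simp [h, this]
  rw [Finset.sum_congr rfl e1, Finset.sum_add_distrib, Finset.sum_add_distrib,
    Finset.sum_ite_eq' , Finset.sum_ite_eq']
  simp only [Finset.mem_powerset, Finset.empty_subset, Finset.Subset.refl, if_true]
  ring

end Pool.Agent.Helper101.Stack
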