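import Mathlib
import Pool.Agent.Helper101.StackC

set_option autoImplicit false

namespace Pool.Agent.Helper101.Stack

open Finset
open scoped Classical

noncomputable def F (x : ℂ) : ℕ → Finset ℕ → ℂ
  | 0, V => R x (fun _ => True) V
  | k + 1, V => ∑ U ∈ V.powerset, F x k U * R x (fun a => U.sup id < a) (V \ U)

theorem F_empty (x : ℂ) (k : ℕ) : F x k ∅ = 0 := by
  induction k with
  | zero => simp [F, R_empty]
  | succ k ih => simp [F, ih]

/-- exchange of summation over nested subsets -/
theorem sum_nested {A : Type*} [AddCommMonoid A] (V : Finset ℕ) (g : Finset ℕ → Finset ℕ → A) :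
    ∑ U ∈ V.powerset, ∑ B ∈ (V \ U).powerset, g U B =
      ∑ T ∈ V.powerset, ∑ U ∈ T.powerset, g U (T \ U) := by
  rw [Finset.sum_sigma', Finset.sum_sigma']
  refine Finset.sum_bij' (fun p _ => (⟨p.1 ∪ p.2, p.1⟩ : (_ : Finset ℕ) × Finset ℕ))
    (fun p _ => (⟨p.2, p.1 \ p.2⟩ : (_ : Finset ℕ) × Finset ℕ)) ?_ ?_ ?_ ?_ ?_
  · rintro ⟨U, B⟩ h
    simp only [Finset.mem_sigma, Finset.mem_powerset] at h ⊢
    exact ⟨Finset.union_subset h.1 (h.2.trans Finset.sdiff_subset), Finset.subset_union_left⟩
  · rintro ⟨T, U⟩ h
    simp only [Finset.mem_sigma, Finset.mem_powerset] at h ⊢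
    exact ⟨h.2.trans h.1, Finset.sdiff_subset_sdiff h.1 (Finset.Subset.refl _)⟩
  · rintro ⟨U, B⟩ h
    simp only [Finset.mem_sigma, Finset.mem_powerset] at h ⊢
    have : Disjoint B U := (Finset.subset_sdiff.1 h.2).2
    have h2 : (U ∪ B) \ U = B := by
      rw [Finset.union_sdiff_cancel_left this.symm]
    simp [h2]
  · rintro ⟨T, U⟩ h
    simp only [Finset.mem_sigma, Finset.mem_powerset] at h ⊢
    have : U ∪ (T \ U) = T := Finset.union_sdiff_of_subset h.2
    simp [this]
  · rintro ⟨U, B⟩ h
    simp only [Finset.mem_sigma, Finset.mem_powerset] at h ⊢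
    have : Disjoint B U := (Finset.subset_sdiff.1 h.2).2
    have h2 : (U ∪ B) \ U = B := by
      rw [Finset.union_sdiff_cancel_left this.symm]
    rw [h2]

theorem sup_union_of_lt {U B : Finset ℕ} (h : U.sup id < B.sup id) :
    (U ∪ B).sup id = B.sup id := by
  rw [Finset.sup_union]; exact sup_eq_right.2 h.le

theorem F_zero_insert (x : ℂ) (V : Finset ℕ) (M : ℕ) (hM : ∀ a ∈ V, a < M) :
    F x 0 (insert M V) = (if V = ∅ then 1 else 0) + 2 * F x 0 V +
      x * ∑ T ∈ V.powerset, F x 0 T * F x 0 (V \ T) + (1 - x) * F x 1 V := by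
  simp only [F]
  rw [R_insert x _ V M hM]
  simp only [and_true]
  have h : ∑ B ∈ V.powerset, R x (fun _ => True) B * (x * R x (fun _ => True) (V \ B) +
      (1 - x) * R x (fun a => B.sup id < a) (V \ B)) =
      x * ∑ B ∈ V.powerset, R x (fun _ => True) B * R x (fun _ => True) (V \ B) +
      (1 - x) * ∑ B ∈ V.powerset, R x (fun _ => True) B * R x (fun a => B.sup id < a) (V \ B) := by
    rw [Finset.mul_sum, Finset.mul_sum, ← Finset.sum_add_distrib]
    refine Finset.sum_congr rfl fun B _ => ?_
    ring
  rw [h]
  ring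

theorem F_succ_insert (x : ℂ) (k : ℕ) (V : Finset ℕ) (M : ℕ) (hM : ∀ a ∈ V, a < M) :
    F x (k + 1) (insert M V) = F x k V + 2 * F x (k + 1) V +
      x * ∑ T ∈ V.powerset, F x (k + 1) T * F x 0 (V \ T) + (1 - x) * F x (k + 2) V := by
  have hMV : M ∉ V := fun h => lt_irrefl _ (hM M h)
  have e0 : F x (k + 1) (insert M V) =
      ∑ U ∈ V.powerset, F x k U * R x (fun a => U.sup id < a) (insert M (V \ U)) := by
    rw [F, Finset.sum_powerset_insert hMV]
    have h2 : ∑ U ∈ V.powerset, F x k (insert M U) *
        R x (fun a => (insert M U).sup id < a) (insert M V \ insert M U) = 0 := by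
      refine Finset.sum_eq_zero fun U hU => ?_
      rw [R_eq_zero, mul_zero]
      intro a ha
      have h1 := (Finset.mem_sdiff.1 ha)
      have : a ≤ M := by
        rcases Finset.mem_insert.1 h1.1 with rfl | h
        · exact le_rfl
        · exact (hM a h).le
      exact this.trans (Finset.le_sup (f := id) (Finset.mem_insert_self M U))
    rw [h2, add_zero]
    refine Finset.sum_congr rfl fun U hU => ?_
    rw [Finset.insert_sdiff_of_notMem]
    exact fun h => hMV (Finset.mem_powerset.1 hU h)
  rw [e0]
  have e1 : ∀ U ∈ V.powerset, F x k U * R x (fun a => U.sup id < a) (insert M (V \ U)) =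
      (if U = V then F x k U else 0) + 2 * (F x k U * R x (fun a => U.sup id < a) (V \ U)) +
      ∑ B ∈ (V \ U).powerset, F x k U * R x (fun a => U.sup id < a) B *
        (x * R x (fun _ => True) (V \ (U ∪ B)) +
        (1 - x) * R x (fun a => (U ∪ B).sup id < a) (V \ (U ∪ B))) := by
    intro U hU
    have hUV := Finset.mem_powerset.1 hU
    rw [R_insert x _ (V \ U) M (fun a ha => hM a (Finset.sdiff_subset ha))]
    have h3 : ∀ B ∈ (V \ U).powerset, R x (fun a => U.sup id < a) B *
        (x * R x (fun _ => True) ((V \ U) \ B) +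
          (1 - x) * R x (fun a => B.sup id < a) ((V \ U) \ B)) =
        R x (fun a => U.sup id < a) B *
        (x * R x (fun _ => True) (V \ (U ∪ B)) +
        (1 - x) * R x (fun a => (U ∪ B).sup id < a) (V \ (U ∪ B))) := by
      intro B _
      rw [Finset.sdiff_sdiff_left']
      rw [← Finset.sdiff_union_distrib]
      by_cases h : U.sup id < B.sup id
      · rw [sup_union_of_lt h]
      · have : R x (fun a => U.sup id < a) B = 0 := by
          apply R_eq_zero
          intro a ha
          exact (Finset.le_sup (f := id) ha).trans (not_lt.1 h)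
        rw [this]; ring
    rw [Finset.sum_congr rfl h3]
    rw [mul_add, mul_add, Finset.mul_sum]
    congr 1
    · congr 1
      · by_cases hU0 : F x k U = 0
        · simp [hU0]
        · have hUne : U.Nonempty := by
            rw [Finset.nonempty_iff_ne_empty]
            rintro rfl; exact hU0 (F_empty x k)
          have hsup : U.sup id < M := by
            obtain ⟨i, hi, h⟩ := Finset.exists_mem_eq_sup U hUne id
            rw [h]; exact hM i (hUV hi)
          have : (V \ U = ∅ ∧ U.sup id < M) ↔ U = V := by
            constructor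
            · rintro ⟨h, _⟩
              exact Finset.Subset.antisymm hUV (Finset.sdiff_eq_empty_iff_subset.1 h)
            · rintro rfl
              exact ⟨Finset.sdiff_self _, hsup⟩
          simp only [this]
          split_ifs <;> simp
      · ring
    · refine Finset.sum_congr rfl fun B _ => ?_
      ring
  rw [Finset.sum_congr rfl e1, Finset.sum_add_distrib, Finset.sum_add_distrib,
    Finset.sum_ite_eq', ← Finset.mul_sum]
  rw [sum_nested V (fun U B => F x k U * R x (fun a => U.sup id < a) B *
        (x * R x (fun _ => True) (V \ (U ∪ B)) +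
        (1 - x) * R x (fun a => (U ∪ B).sup id < a) (V \ (U ∪ B))))]
  have e2 : ∀ T ∈ V.powerset, ∑ U ∈ T.powerset, F x k U * R x (fun a => U.sup id < a) (T \ U) *
        (x * R x (fun _ => True) (V \ (U ∪ (T \ U))) +
        (1 - x) * R x (fun a => (U ∪ (T \ U)).sup id < a) (V \ (U ∪ (T \ U)))) =
      x * (F x (k + 1) T * F x 0 (V \ T)) +
        (1 - x) * (F x (k + 1) T * R x (fun a => T.sup id < a) (V \ T)) := by
    intro T _
    have : ∀ U ∈ T.powerset, F x k U * R x (fun a => U.sup id < a) (T \ U) *
        (x * R x (fun _ => True) (V \ (U ∪ (T \ U))) +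
        (1 - x) * R x (fun a => (U ∪ (T \ U)).sup id < a) (V \ (U ∪ (T \ U)))) =
        F x k U * R x (fun a => U.sup id < a) (T \ U) * (x * R x (fun _ => True) (V \ T) +
        (1 - x) * R x (fun a => T.sup id < a) (V \ T)) := by
      intro U hU
      rw [Finset.union_sdiff_of_subset (Finset.mem_powerset.1 hU)]
    rw [Finset.sum_congr rfl this, ← Finset.sum_mul]
    simp only [F]
    ring
  rw [Finset.sum_congr rfl e2, Finset.sum_add_distrib, ← Finset.mul_sum, ← Finset.mul_sum]
  simp only [Finset.mem_powerset, Finset.Subset.refl, if_true]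
  have e3 : F x (k + 2) V =
    ∑ U ∈ V.powerset, F x (k + 1) U * R x (fun a => U.sup id < a) (V \ U) := rfl
  have e4 : F x (k + 1) V =
    ∑ U ∈ V.powerset, F x k U * R x (fun a => U.sup id < a) (V \ U) := rfl
  rw [e3, e4]
  ring

/-- the value of `F` only depends on the cardinality -/
theorem F_card (x : ℂ) : ∀ (n : ℕ) (k : ℕ) (V : Finset ℕ), V.card = n →
    F x k V = F x k (Finset.range n) := by
  intro n
  induction n using Nat.strong_induction_on with
  | _ n ih =>
    intro k V hV
    rcases n with _ | n
    · rw [Finset.card_eq_zero.1 hV]; simp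
    · have hne : V.Nonempty := by rw [← Finset.card_pos, hV]; omega
      obtain ⟨M, hMV, hMmax⟩ : ∃ M ∈ V, ∀ a ∈ V, a ≤ M :=
        ⟨V.max' hne, V.max'_mem hne, fun a ha => V.le_max' a ha⟩
      have hVM : V = insert M (V.erase M) := (Finset.insert_erase hMV).symm
      set V' := V.erase M with hV'
      have hM' : ∀ a ∈ V', a < M := fun a ha =>
        lt_of_le_of_ne (hMmax a (Finset.mem_of_mem_erase ha)) (Finset.ne_of_mem_erase ha)
      have hc : V'.card = n := by rw [hV', Finset.card_erase_of_mem hMV, hV]; rfl
      have hR : ∀ a ∈ Finset.range n, a < n := fun a ha => Finset.mem_range.1 ha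
      have hsum : ∀ j, ∑ T ∈ V'.powerset, F x j T * F x 0 (V' \ T) =
          ∑ T ∈ (Finset.range n).powerset, F x j T * F x 0 (Finset.range n \ T) := by
        intro j
        have h1 : ∀ (X : Finset ℕ), X.card = n → ∀ T ∈ X.powerset, F x j T * F x 0 (X \ T) =
            (fun m => F x j (Finset.range m) * F x 0 (Finset.range (n - m))) T.card := by
          intro X hX T hT
          have hTX := Finset.mem_powerset.1 hT
          have c1 : T.card ≤ n := by rw [← hX]; exact Finset.card_le_card hTX
          have c2 : (X \ T).card = n - T.card := by rw [Finset.card_sdiff_of_subset hTX, hX]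
          simp only
          rw [ih T.card (by omega) j T rfl, ih (n - T.card) (by omega) 0 (X \ T) c2]
        rw [Finset.sum_congr rfl (h1 V' hc),
          Finset.sum_congr rfl (h1 (Finset.range n) (Finset.card_range n)),
          Finset.sum_powerset_apply_card (fun m => F x j (range m) * F x 0 (range (n - m))),
          Finset.sum_powerset_apply_card (fun m => F x j (range m) * F x 0 (range (n - m))),
          hc, Finset.card_range]
      have hcur : ∀ j, F x j V' = F x j (Finset.range n) := fun j => ih n (by omega) j V' hc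
      have hemp : V' = ∅ ↔ Finset.range n = ∅ := by
        rw [← Finset.card_eq_zero, hc, Finset.range_eq_empty_iff]
      rw [hVM, Finset.range_add_one]
      rcases k with _ | k
      · rw [F_zero_insert x V' M hM', F_zero_insert x (Finset.range n) n hR, hsum, hcur, hcur]
        simp only [hemp]
      · rw [F_succ_insert x k V' M hM', F_succ_insert x k (Finset.range n) n hR, hsum, hcur,
          hcur, hcur]

/-- `φ_k(n)` -/
noncomputable def phi (x : ℂ) (k n : ℕ) : ℂ := F x k (Finset.range n)

theorem phi_zero (x : ℂ) (k : ℕ) : phi x k 0 = 0 := by simp [phi, F_empty]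

theorem sum_phi (x : ℂ) (k n : ℕ) :
    ∑ T ∈ (Finset.range n).powerset, F x k T * F x 0 (Finset.range n \ T) =
      ∑ m ∈ Finset.range (n + 1), (n.choose m : ℂ) * (phi x k m * phi x 0 (n - m)) := by
  have h1 : ∀ T ∈ (Finset.range n).powerset, F x k T * F x 0 (Finset.range n \ T) =
      (fun m => phi x k m * phi x 0 (n - m)) T.card := by
    intro T hT
    have hTX := Finset.mem_powerset.1 hT
    have c2 : (Finset.range n \ T).card = n - T.card := by
      rw [Finset.card_sdiff_of_subset hTX, Finset.card_range]
    simp only [phi]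
    rw [F_card x T.card k T rfl, F_card x (n - T.card) 0 _ c2]
  rw [Finset.sum_congr rfl h1, Finset.sum_powerset_apply_card
    (fun m => phi x k m * phi x 0 (n - m)), Finset.card_range]
  simp [nsmul_eq_mul]

theorem phi_zero_succ (x : ℂ) (n : ℕ) :
    phi x 0 (n + 1) = (if n = 0 then 1 else 0) + 2 * phi x 0 n +
      x * ∑ m ∈ Finset.range (n + 1), (n.choose m : ℂ) * (phi x 0 m * phi x 0 (n - m)) +
      (1 - x) * phi x 1 n := by
  rw [← sum_phi]
  unfold phi
  rw [Finset.range_add_one, F_zero_insert x _ n (fun a ha => Finset.mem_range.1 ha)]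
  simp only [Finset.range_eq_empty_iff]

theorem phi_succ_succ (x : ℂ) (k n : ℕ) :
    phi x (k + 1) (n + 1) = phi x k n + 2 * phi x (k + 1) n +
      x * ∑ m ∈ Finset.range (n + 1), (n.choose m : ℂ) * (phi x (k + 1) m * phi x 0 (n - m)) +
      (1 - x) * phi x (k + 2) n := by
  rw [← sum_phi]
  unfold phi
  rw [Finset.range_add_one, F_succ_insert x k _ n (fun a ha => Finset.mem_range.1 ha)]

end Pool.Agent.Helper101.Stack
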