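import Mathlib
import Pool.Agent.Helper101.StackD

set_option autoImplicit false

namespace Pool.Agent.Helper101.Stack

open Finset
open scoped Classical

/-- weights of lattice paths; `w δ n k` is the coefficient of `z^n` in `W^k` -/
def w (δ : ℂ) : ℕ → ℕ → ℂ
  | 0, k => if k = 0 then 1 else 0
  | _ + 1, 0 => 0
  | n + 1, k + 1 => w δ n k + (1 + δ) * w δ n (k + 1) + δ * w δ n (k + 2)

def Gam (x : ℂ) (j : ℕ) : ℕ → ℂ
  | 0 => if j = 0 then 1 else 0
  | n + 1 => w (1 - x) (n + 1) j - x * w (1 - x) n j - x * (1 - x) * w (1 - x) n (j + 1)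

theorem Gam_zero_rec (x : ℂ) (n : ℕ) : Gam x 0 (n + 1) = -x * (Gam x 0 n + Gam x 1 n) := by
  rcases n with _ | n
  · simp [Gam, w]
  · simp only [Gam, w]; ring

theorem Gam_succ_rec (x : ℂ) (j n : ℕ) : Gam x (j + 1) (n + 1) =
    (1 + (1 - x)) * Gam x (j + 1) n + Gam x j n + (1 - x) * Gam x (j + 2) n := by
  rcases n with _ | n
  · rcases j with _ | j <;> simp [Gam, w]
  · rcases j with _ | j
    · simp only [Gam, w]; ring
    · simp only [Gam, w]; ring

open PowerSeries

noncomputable def egf (a : ℕ → ℂ) : PowerSeries ℂ := PowerSeries.mk (fun n => a n / (n.factorial : ℂ))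

theorem d_egf (a : ℕ → ℂ) : PowerSeries.derivative ℂ (egf a) = egf (fun n => a (n + 1)) := by
  ext n
  rw [PowerSeries.coeff_derivative]
  simp only [egf, PowerSeries.coeff_mk]
  rw [Nat.factorial_succ]
  have h1 : ((n : ℂ) + 1) ≠ 0 := by exact_mod_cast Nat.succ_ne_zero n
  have h2 : (n.factorial : ℂ) ≠ 0 := by exact_mod_cast Nat.factorial_ne_zero n
  push_cast
  field_simp

theorem egf_mul (a b : ℕ → ℂ) : egf a * egf b =
    egf (fun n => ∑ m ∈ Finset.range (n + 1), (n.choose m : ℂ) * (a m * b (n - m))) := by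
  ext n
  rw [PowerSeries.coeff_mul]
  simp only [egf, PowerSeries.coeff_mk]
  rw [Finset.Nat.sum_antidiagonal_eq_sum_range_succ
    (fun i j => a i / (i.factorial : ℂ) * (b j / (j.factorial : ℂ))), Finset.sum_div]
  refine Finset.sum_congr rfl fun m hm => ?_
  have hmn : m ≤ n := Nat.lt_succ_iff.1 (Finset.mem_range.1 hm)
  have h1 : (m.factorial : ℂ) ≠ 0 := by exact_mod_cast Nat.factorial_ne_zero m
  have h2 : ((n - m).factorial : ℂ) ≠ 0 := by exact_mod_cast Nat.factorial_ne_zero (n - m)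
  have h3 : (n.factorial : ℂ) ≠ 0 := by exact_mod_cast Nat.factorial_ne_zero n
  have h4 : (n.choose m : ℂ) * (m.factorial : ℂ) * ((n - m).factorial : ℂ) = (n.factorial : ℂ) := by
    exact_mod_cast Nat.choose_mul_factorial_mul_factorial hmn
  have h5 : (n.choose m : ℂ) ≠ 0 := by
    intro h; rw [h] at h4; simp only [zero_mul] at h4; exact h3 h4.symm
  rw [← h4] at h3 ⊢
  field_simp

noncomputable def AA (x : ℂ) (k : ℕ) : PowerSeries ℂ := egf (phi x k)
noncomputable def GG (x : ℂ) (j : ℕ) : PowerSeries ℂ := egf (Gam x j)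

theorem egf_add (a b : ℕ → ℂ) : egf a + egf b = egf (fun n => a n + b n) := by
  ext n; simp [egf, add_div]

theorem egf_smul (c : ℂ) (a : ℕ → ℂ) : PowerSeries.C c * egf a = egf (fun n => c * a n) := by
  ext n; simp [egf, mul_div_assoc]

theorem egf_one : egf (fun n => if n = 0 then 1 else 0) = 1 := by
  ext n
  simp only [egf, PowerSeries.coeff_mk, PowerSeries.coeff_one]
  split_ifs with h
  · subst h; simp
  · simp

theorem d_AA_zero (x : ℂ) : PowerSeries.derivative ℂ (AA x 0) =
    1 + C 2 * AA x 0 + C x * (AA x 0 * AA x 0) + C (1 - x) * AA x 1 := by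
  unfold AA
  rw [d_egf, egf_mul, egf_smul, egf_smul, egf_smul, ← egf_one, egf_add, egf_add, egf_add]
  congr 1; funext n; rw [phi_zero_succ]

theorem d_AA_succ (x : ℂ) (k : ℕ) : PowerSeries.derivative ℂ (AA x (k + 1)) =
    AA x k + C 2 * AA x (k + 1) + C x * (AA x (k + 1) * AA x 0) + C (1 - x) * AA x (k + 2) := by
  unfold AA
  rw [d_egf, egf_mul, egf_smul, egf_smul, egf_smul, egf_add, egf_add, egf_add]
  congr 1; funext n; rw [phi_succ_succ]

theorem d_GG_zero (x : ℂ) : PowerSeries.derivative ℂ (GG x 0) = C (-x) * (GG x 0 + GG x 1) := by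
  unfold GG
  rw [d_egf, egf_add, egf_smul]
  congr 1; funext n; rw [Gam_zero_rec]

theorem d_GG_succ (x : ℂ) (j : ℕ) : PowerSeries.derivative ℂ (GG x (j + 1)) =
    C (1 + (1 - x)) * GG x (j + 1) + GG x j + C (1 - x) * GG x (j + 2) := by
  unfold GG
  rw [d_egf, egf_smul, egf_smul, egf_add, egf_add]
  congr 1; funext n; rw [Gam_succ_rec]

noncomputable def Dl (x : ℂ) (k : ℕ) : PowerSeries ℂ := GG x (k + 1) - GG x 0 * AA x k

theorem d_Dl_zero (x : ℂ) : PowerSeries.derivative ℂ (Dl x 0) =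
    C (1 + (1 - x)) * Dl x 0 + C (1 - x) * Dl x 1 + C x * AA x 0 * Dl x 0 := by
  unfold Dl
  rw [map_sub, Derivation.leibniz, d_GG_succ, d_GG_zero, d_AA_zero]
  simp only [smul_eq_mul, map_add, map_sub, map_neg, map_one]
  have : (C (2 : ℂ) : PowerSeries ℂ) = 2 := map_ofNat C 2
  rw [this]
  ring

theorem d_Dl_succ (x : ℂ) (k : ℕ) : PowerSeries.derivative ℂ (Dl x (k + 1)) =
    C (1 + (1 - x)) * Dl x (k + 1) + Dl x k + C (1 - x) * Dl x (k + 2) +
      C x * AA x (k + 1) * Dl x 0 := by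
  unfold Dl
  rw [map_sub, Derivation.leibniz, d_GG_succ, d_GG_zero, d_AA_succ]
  simp only [smul_eq_mul, map_add, map_sub, map_neg, map_one]
  have : (C (2 : ℂ) : PowerSeries ℂ) = 2 := map_ofNat C 2
  rw [this]
  ring

theorem coeff_Dl (x : ℂ) : ∀ (n k : ℕ), PowerSeries.coeff n (Dl x k) = 0 := by
  intro n
  induction n using Nat.strong_induction_on with
  | _ n ih =>
    intro k
    rcases n with _ | n
    · unfold Dl GG AA
      simp only [map_sub, PowerSeries.coeff_zero_eq_constantCoeff, map_mul]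
      simp [egf, Gam, phi_zero, ← PowerSeries.coeff_zero_eq_constantCoeff_apply]
    · have hmul : ∀ (f : PowerSeries ℂ) (j : ℕ), PowerSeries.coeff n (f * Dl x j) = 0 := by
        intro f j
        rw [PowerSeries.coeff_mul]
        refine Finset.sum_eq_zero fun p hp => ?_
        have := Finset.HasAntidiagonal.mem_antidiagonal.1 hp
        rw [ih p.2 (by omega) j, mul_zero]
      have h1 : PowerSeries.coeff n (PowerSeries.derivative ℂ (Dl x k)) = 0 := by
        rcases k with _ | k
        · rw [d_Dl_zero]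
          simp only [map_add, hmul, add_zero]
        · rw [d_Dl_succ]
          simp only [map_add, hmul, ih n (by omega) k, add_zero]
      rw [PowerSeries.coeff_derivative] at h1
      have h2 : ((n : ℂ) + 1) ≠ 0 := by exact_mod_cast Nat.succ_ne_zero n
      exact (mul_eq_zero.1 h1).resolve_right h2

theorem GG_eq (x : ℂ) : GG x 1 = GG x 0 * AA x 0 := by
  have : Dl x 0 = 0 := by ext n; rw [coeff_Dl]; simp
  unfold Dl at this
  exact sub_eq_zero.1 this

theorem d_GG (x : ℂ) : PowerSeries.derivative ℂ (GG x 0) = C (-x) * (GG x 0 * (1 + AA x 0)) := by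
  rw [d_GG_zero, GG_eq]; ring

/-- the generating polynomial of descents after stack sorting -/
noncomputable def P (x : ℂ) (m : ℕ) : ℂ := ∑ l ∈ W (Finset.range m), x ^ des (srt l)

theorem P_eq (x : ℂ) (m : ℕ) : P x m = (if m = 0 then 1 else 0) + phi x 0 m := by
  unfold P phi
  rcases m with _ | m
  · simp [W_empty, srt_nil, des_nil, F_empty]
  · simp only [Nat.add_eq_zero_iff, one_ne_zero, and_false, if_false, zero_add, F, R]
    refine Finset.sum_congr rfl fun l hl => ?_
    have hne : srt l ≠ [] := srt_ne_nil (W_ne_nil (by simp) hl)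
    obtain ⟨b, r, hbr⟩ := List.exists_cons_of_ne_nil hne
    rw [if_pos]
    exact ⟨b, by rw [hbr]; rfl, trivial⟩

/-- `g n` -/
noncomputable def g (x : ℂ) (n : ℕ) : ℂ := Gam x 0 n / (n.factorial : ℂ)

/-- the key identity -/
theorem key (x : ℂ) (n : ℕ) : ∑ i ∈ Finset.range (n + 1),
    g x i * (x * P x (n - i) / ((n - i).factorial : ℂ)) = - ((n : ℂ) + 1) * g x (n + 1) := by
  have h := congrArg (PowerSeries.coeff n) (d_GG x)
  rw [PowerSeries.coeff_derivative] at h
  have h1 : (1 : PowerSeries ℂ) + AA x 0 = egf (P x) := by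
    rw [← egf_one, AA, egf_add]; congr 1; funext n; rw [P_eq]
  rw [h1, PowerSeries.coeff_C_mul, PowerSeries.coeff_mul,
    Finset.Nat.sum_antidiagonal_eq_sum_range_succ
    (fun i j => PowerSeries.coeff i (GG x 0) * PowerSeries.coeff j (egf (P x)))] at h
  simp only [GG, egf, PowerSeries.coeff_mk] at h
  unfold g
  have h2 : ∑ i ∈ Finset.range (n + 1), Gam x 0 i / (i.factorial : ℂ) *
      (x * P x (n - i) / ((n - i).factorial : ℂ)) =
      x * ∑ i ∈ Finset.range (n + 1), Gam x 0 i / (i.factorial : ℂ) *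
      (P x (n - i) / ((n - i).factorial : ℂ)) := by
    rw [Finset.mul_sum]
    refine Finset.sum_congr rfl fun i _ => ?_
    ring
  rw [h2]
  linear_combination h

theorem g_zero (x : ℂ) : g x 0 = 1 := by simp [g, Gam]
theorem g_one (x : ℂ) : g x 1 = -x := by simp [g, Gam, w]
theorem g_succ_succ (x : ℂ) (n : ℕ) : g x (n + 2) =
    - (x * (1 - x) * w (1 - x) (n + 1) 1) / ((n + 2).factorial : ℂ) := by
  simp [g, Gam, w]

end Pool.Agent.Helper101.Stack
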