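import Mathlib
import Pool.Agent.Helper101.StackE

set_option autoImplicit false

namespace Pool.Agent.Helper101.Stack

open Finset Filter Topology

/-! bounds for `w` -/

theorem w_bound (δ : ℂ) (hδ : ‖δ‖ ≤ 1) : ∀ n k : ℕ, ‖w δ n k‖ ≤ 4 ^ n := by
  intro n
  induction n with
  | zero => intro k; simp only [w]; split_ifs <;> simp
  | succ n ih =>
    intro k
    rcases k with _ | k
    · simp [w]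
    · simp only [w]
      have h1 := ih k
      have h2 := ih (k + 1)
      have h3 := ih (k + 2)
      have h4 : ‖(1 : ℂ) + δ‖ ≤ 2 := by
        calc ‖(1 : ℂ) + δ‖ ≤ ‖(1 : ℂ)‖ + ‖δ‖ := norm_add_le _ _
          _ ≤ 2 := by rw [norm_one]; linarith
      calc ‖w δ n k + (1 + δ) * w δ n (k + 1) + δ * w δ n (k + 2)‖
          ≤ ‖w δ n k‖ + ‖(1 + δ) * w δ n (k + 1)‖ + ‖δ * w δ n (k + 2)‖ := norm_add₃_le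
        _ = ‖w δ n k‖ + ‖(1 + δ)‖ * ‖w δ n (k + 1)‖ + ‖δ‖ * ‖w δ n (k + 2)‖ := by
          rw [norm_mul, norm_mul]
        _ ≤ 4 ^ n + 2 * 4 ^ n + 1 * 4 ^ n := by gcongr
        _ = 4 ^ (n + 1) := by ring

theorem w_one_two (δ : ℂ) (hδ : ‖δ‖ ≤ 1) : ∀ n : ℕ,
    ‖w δ (n + 1) 1 - 1‖ ≤ ‖δ‖ * 5 ^ (n + 1) ∧ ‖w δ (n + 1) 2 - n‖ ≤ ‖δ‖ * 5 ^ (n + 1) := by
  intro n
  have hδ0 := norm_nonneg δ
  induction n with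
  | zero => simp [w]
  | succ n ih =>
    obtain ⟨h1, h2⟩ := ih
    have b1 := w_bound δ hδ (n + 1) 1
    have b2 := w_bound δ hδ (n + 1) 2
    have b3 := w_bound δ hδ (n + 1) 3
    have h45 : (4 : ℝ) ^ (n + 1) ≤ 5 ^ (n + 1) := by gcongr; norm_num
    have p5 : (0 : ℝ) ≤ 5 ^ (n + 1) := by positivity
    constructor
    · have e : w δ (n + 1 + 1) 1 - 1 = (w δ (n + 1) 1 - 1) + δ * w δ (n + 1) 1 +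
          δ * w δ (n + 1) 2 := by
        simp only [w]; ring
      rw [e]
      calc _ ≤ ‖w δ (n + 1) 1 - 1‖ + ‖δ * w δ (n + 1) 1‖ + ‖δ * w δ (n + 1) 2‖ := norm_add₃_le
        _ = ‖w δ (n + 1) 1 - 1‖ + ‖δ‖ * ‖w δ (n + 1) 1‖ + ‖δ‖ * ‖w δ (n + 1) 2‖ := by
          rw [norm_mul, norm_mul]
        _ ≤ ‖δ‖ * 5 ^ (n + 1) + ‖δ‖ * 5 ^ (n + 1) + ‖δ‖ * 5 ^ (n + 1) := by
          gcongr <;> linarith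
        _ ≤ ‖δ‖ * 5 ^ (n + 1 + 1) := by
          have : ‖δ‖ * (5 : ℝ) ^ (n + 1 + 1) = 5 * (‖δ‖ * 5 ^ (n + 1)) := by ring
          rw [this]
          have : 0 ≤ ‖δ‖ * 5 ^ (n + 1) := by positivity
          linarith
    · have e : w δ (n + 1 + 1) 2 - ((n + 1 : ℕ) : ℂ) = (w δ (n + 1) 1 - 1) +
          (w δ (n + 1) 2 - n) + (δ * w δ (n + 1) 2 + δ * w δ (n + 1) 3) := by
        have : w δ (n + 1 + 1) 2 = w δ (n + 1) 1 + (1 + δ) * w δ (n + 1) 2 +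
          δ * w δ (n + 1) 3 := by rw [w]
        rw [this]; push_cast; ring
      rw [e]
      calc _ ≤ ‖w δ (n + 1) 1 - 1‖ + ‖w δ (n + 1) 2 - n‖ +
            ‖δ * w δ (n + 1) 2 + δ * w δ (n + 1) 3‖ := norm_add₃_le
        _ ≤ ‖w δ (n + 1) 1 - 1‖ + ‖w δ (n + 1) 2 - n‖ +
            (‖δ * w δ (n + 1) 2‖ + ‖δ * w δ (n + 1) 3‖) := by gcongr; exact norm_add_le _ _
        _ = ‖w δ (n + 1) 1 - 1‖ + ‖w δ (n + 1) 2 - n‖ +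
            (‖δ‖ * ‖w δ (n + 1) 2‖ + ‖δ‖ * ‖w δ (n + 1) 3‖) := by
          rw [norm_mul, norm_mul]
        _ ≤ ‖δ‖ * 5 ^ (n + 1) + ‖δ‖ * 5 ^ (n + 1) + (‖δ‖ * 5 ^ (n + 1) + ‖δ‖ * 5 ^ (n + 1)) := by
          gcongr <;> linarith
        _ ≤ ‖δ‖ * 5 ^ (n + 1 + 1) := by
          have : ‖δ‖ * (5 : ℝ) ^ (n + 1 + 1) = 5 * (‖δ‖ * 5 ^ (n + 1)) := by ring
          rw [this]
          have : 0 ≤ ‖δ‖ * 5 ^ (n + 1) := by positivity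
          linarith

/-- second order expansion of `w δ (n+1) 1`; `C(n+1,2) = (n+1) n / 2` -/
theorem w_second (δ : ℂ) (hδ : ‖δ‖ ≤ 1) : ∀ n : ℕ,
    ‖w δ (n + 1) 1 - 1 - ((n : ℂ) + 1) * n / 2 * δ‖ ≤ ‖δ‖ ^ 2 * 5 ^ (n + 1) := by
  intro n
  have hδ0 := norm_nonneg δ
  induction n with
  | zero => simp [w]
  | succ n ih =>
    obtain ⟨h1, h2⟩ := w_one_two δ hδ n
    have e : w δ (n + 1 + 1) 1 - 1 - (((n + 1 : ℕ) : ℂ) + 1) * ((n + 1 : ℕ) : ℂ) / 2 * δ =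
        (w δ (n + 1) 1 - 1 - ((n : ℂ) + 1) * n / 2 * δ) + δ * (w δ (n + 1) 1 - 1) +
          δ * (w δ (n + 1) 2 - n) := by
      have : w δ (n + 1 + 1) 1 = w δ (n + 1) 1 + δ * w δ (n + 1) 1 + δ * w δ (n + 1) 2 := by
        simp only [w]; ring
      rw [this]; push_cast; ring
    rw [e]
    calc _ ≤ ‖w δ (n + 1) 1 - 1 - ((n : ℂ) + 1) * n / 2 * δ‖ + ‖δ * (w δ (n + 1) 1 - 1)‖ +
          ‖δ * (w δ (n + 1) 2 - n)‖ := norm_add₃_le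
      _ = ‖w δ (n + 1) 1 - 1 - ((n : ℂ) + 1) * n / 2 * δ‖ + ‖δ‖ * ‖w δ (n + 1) 1 - 1‖ +
          ‖δ‖ * ‖w δ (n + 1) 2 - n‖ := by rw [norm_mul, norm_mul]
      _ ≤ ‖δ‖ ^ 2 * 5 ^ (n + 1) + ‖δ‖ * (‖δ‖ * 5 ^ (n + 1)) + ‖δ‖ * (‖δ‖ * 5 ^ (n + 1)) := by
        gcongr
      _ ≤ ‖δ‖ ^ 2 * 5 ^ (n + 1 + 1) := by
        have : ‖δ‖ ^ 2 * (5 : ℝ) ^ (n + 1 + 1) = 5 * (‖δ‖ ^ 2 * 5 ^ (n + 1)) := by ring
        rw [this]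
        have : 0 ≤ ‖δ‖ ^ 2 * 5 ^ (n + 1) := by positivity
        have e2 : ‖δ‖ * (‖δ‖ * 5 ^ (n + 1)) = ‖δ‖ ^ 2 * 5 ^ (n + 1) := by ring
        rw [e2]; linarith

theorem pow_expand (ρ : ℂ) (hρ : ‖ρ‖ ≤ 2) : ∀ m : ℕ,
    ‖ρ ^ m - 1 - m * (ρ - 1)‖ ≤ 4 ^ m * ‖ρ - 1‖ ^ 2 := by
  intro m
  induction m with
  | zero => simp
  | succ m ih =>
    have e : ρ ^ (m + 1) - 1 - ((m + 1 : ℕ) : ℂ) * (ρ - 1) =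
        ρ * (ρ ^ m - 1 - m * (ρ - 1)) + m * (ρ - 1) ^ 2 := by
      push_cast; ring
    rw [e]
    have hm : (m : ℝ) ≤ 4 ^ m := by
      have : m < 4 ^ m := Nat.lt_pow_self (by norm_num)
      exact_mod_cast this.le
    calc _ ≤ ‖ρ * (ρ ^ m - 1 - m * (ρ - 1))‖ + ‖(m : ℂ) * (ρ - 1) ^ 2‖ := norm_add_le _ _
      _ = ‖ρ‖ * ‖ρ ^ m - 1 - m * (ρ - 1)‖ + m * ‖ρ - 1‖ ^ 2 := by
        rw [norm_mul, norm_mul, norm_pow, Complex.norm_natCast]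
      _ ≤ 2 * (4 ^ m * ‖ρ - 1‖ ^ 2) + 4 ^ m * ‖ρ - 1‖ ^ 2 := by gcongr
      _ ≤ 4 ^ (m + 1) * ‖ρ - 1‖ ^ 2 := by
        have : (4 : ℝ) ^ (m + 1) * ‖ρ - 1‖ ^ 2 = 4 * (4 ^ m * ‖ρ - 1‖ ^ 2) := by ring
        rw [this]
        have : 0 ≤ 4 ^ m * ‖ρ - 1‖ ^ 2 := by positivity
        linarith

/-- bound for the remainder -/
theorem rem_bound (δ : ℂ) (hδ : ‖δ‖ ≤ 1) (a b : ℂ) (hb : ‖b‖ ≤ 1)
    (ρ : ℂ) (hρ : ρ = 1 + a * δ + b * δ ^ 2) (hρ2 : ‖ρ‖ ≤ 2) (hρ1 : ‖ρ - 1‖ ≤ ‖δ‖) (j : ℕ) :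
    ‖w δ (j + 1) 1 * ρ ^ (j + 2) - 1 - δ * (((j : ℂ) + 1) * j / 2 + a * ((j : ℂ) + 2))‖ ≤
      ‖δ‖ ^ 2 * (4 * 20 ^ (j + 2)) := by
  set c : ℂ := ((j : ℂ) + 1) * j / 2 with hc
  have hδ0 := norm_nonneg δ
  have e : w δ (j + 1) 1 * ρ ^ (j + 2) - 1 - δ * (c + a * ((j : ℂ) + 2)) =
      (w δ (j + 1) 1 - 1 - c * δ) * ρ ^ (j + 2) +
      (1 + c * δ) * (ρ ^ (j + 2) - 1 - ((j + 2 : ℕ) : ℂ) * (ρ - 1)) +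
      (c * δ * ((j : ℂ) + 2) * (ρ - 1) + ((j : ℂ) + 2) * b * δ ^ 2) := by
    rw [hρ]; push_cast; ring
  rw [e]
  have b1 := w_second δ hδ j
  have b2 := pow_expand ρ hρ2 (j + 2)
  have hj : ((j : ℝ) + 2) ≤ 2 ^ (j + 2) := by
    have : j + 2 < 2 ^ (j + 2) := Nat.lt_pow_self (by norm_num)
    exact_mod_cast this.le
  have hj0 : (0 : ℝ) ≤ j := Nat.cast_nonneg j
  have hjn : ‖(j : ℂ) + 2‖ ≤ 2 ^ (j + 2) := by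
    have : ‖(j : ℂ) + 2‖ = (j : ℝ) + 2 := by
      have h : (j : ℂ) + 2 = (((j : ℝ) + 2 : ℝ) : ℂ) := by push_cast; ring
      rw [h, Complex.norm_real, Real.norm_of_nonneg (by positivity)]
    rw [this]; exact hj
  have hcn : ‖c‖ ≤ 4 ^ (j + 2) := by
    have h1 : ‖c‖ = ((j : ℝ) + 1) * j / 2 := by
      have h : c = ((((j : ℝ) + 1) * j / 2 : ℝ) : ℂ) := by rw [hc]; push_cast; ring
      rw [h, Complex.norm_real, Real.norm_of_nonneg (by positivity)]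
    rw [h1]
    have h2 : (4 : ℝ) ^ (j + 2) = 2 ^ (j + 2) * 2 ^ (j + 2) := by
      rw [← mul_pow]; norm_num
    rw [h2]
    have h3 : (0 : ℝ) < 2 ^ (j + 2) := by positivity
    nlinarith
  have p1 : ‖ρ ^ (j + 2)‖ ≤ 2 ^ (j + 2) := by rw [norm_pow]; gcongr
  have q1 : ‖(w δ (j + 1) 1 - 1 - c * δ) * ρ ^ (j + 2)‖ ≤ ‖δ‖ ^ 2 * 20 ^ (j + 2) := by
    rw [norm_mul]
    calc _ ≤ (‖δ‖ ^ 2 * 5 ^ (j + 1)) * 2 ^ (j + 2) := by gcongr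
      _ ≤ (‖δ‖ ^ 2 * 5 ^ (j + 2)) * 4 ^ (j + 2) := by
        gcongr <;> norm_num
      _ = ‖δ‖ ^ 2 * 20 ^ (j + 2) := by
        rw [mul_assoc, ← mul_pow]; norm_num
  have q2 : ‖(1 + c * δ) * (ρ ^ (j + 2) - 1 - ((j + 2 : ℕ) : ℂ) * (ρ - 1))‖ ≤
      ‖δ‖ ^ 2 * 20 ^ (j + 2) := by
    rw [norm_mul]
    have h1 : ‖1 + c * δ‖ ≤ 5 ^ (j + 2) := by
      calc ‖1 + c * δ‖ ≤ ‖(1 : ℂ)‖ + ‖c * δ‖ := norm_add_le _ _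
        _ = 1 + ‖c‖ * ‖δ‖ := by rw [norm_one, norm_mul]
        _ ≤ 1 + 4 ^ (j + 2) * 1 := by gcongr
        _ ≤ 5 ^ (j + 2) := by
          have h45 : (4 : ℝ) ^ (j + 1) ≤ 5 ^ (j + 1) := by gcongr; norm_num
          have h1 : (1 : ℝ) ≤ 5 ^ (j + 1) := one_le_pow₀ (by norm_num)
          have e4 : (4 : ℝ) ^ (j + 2) = 4 * 4 ^ (j + 1) := by ring
          have e5 : (5 : ℝ) ^ (j + 2) = 5 * 5 ^ (j + 1) := by ring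
          rw [e4, e5]; linarith
    calc _ ≤ 5 ^ (j + 2) * (4 ^ (j + 2) * ‖ρ - 1‖ ^ 2) := by gcongr
      _ ≤ 5 ^ (j + 2) * (4 ^ (j + 2) * ‖δ‖ ^ 2) := by gcongr
      _ = ‖δ‖ ^ 2 * (5 ^ (j + 2) * 4 ^ (j + 2)) := by ring
      _ = ‖δ‖ ^ 2 * 20 ^ (j + 2) := by rw [← mul_pow]; norm_num
  have q3 : ‖c * δ * ((j : ℂ) + 2) * (ρ - 1) + ((j : ℂ) + 2) * b * δ ^ 2‖ ≤
      ‖δ‖ ^ 2 * (2 * 20 ^ (j + 2)) := by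
    calc _ ≤ ‖c * δ * ((j : ℂ) + 2) * (ρ - 1)‖ + ‖((j : ℂ) + 2) * b * δ ^ 2‖ := norm_add_le _ _
      _ = ‖c‖ * ‖δ‖ * ‖(j : ℂ) + 2‖ * ‖ρ - 1‖ + ‖(j : ℂ) + 2‖ * ‖b‖ * ‖δ‖ ^ 2 := by
        simp only [norm_mul, norm_pow]
      _ ≤ 4 ^ (j + 2) * ‖δ‖ * 2 ^ (j + 2) * ‖δ‖ + 2 ^ (j + 2) * 1 * ‖δ‖ ^ 2 := by gcongr
      _ = ‖δ‖ ^ 2 * (4 ^ (j + 2) * 2 ^ (j + 2) + 2 ^ (j + 2)) := by ring
      _ ≤ ‖δ‖ ^ 2 * (2 * 20 ^ (j + 2)) := by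
        have h8 : (4 : ℝ) ^ (j + 2) * 2 ^ (j + 2) ≤ 20 ^ (j + 2) := by
          rw [← mul_pow]; gcongr; norm_num
        have h2 : (2 : ℝ) ^ (j + 2) ≤ 20 ^ (j + 2) := by gcongr; norm_num
        gcongr
        linarith
  calc _ ≤ ‖(w δ (j + 1) 1 - 1 - c * δ) * ρ ^ (j + 2)‖ +
      ‖(1 + c * δ) * (ρ ^ (j + 2) - 1 - ((j + 2 : ℕ) : ℂ) * (ρ - 1))‖ +
      ‖(c * δ * ((j : ℂ) + 2) * (ρ - 1) + ((j : ℂ) + 2) * b * δ ^ 2)‖ := norm_add₃_le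
    _ ≤ ‖δ‖ ^ 2 * 20 ^ (j + 2) + ‖δ‖ ^ 2 * 20 ^ (j + 2) + ‖δ‖ ^ 2 * (2 * 20 ^ (j + 2)) := by
      gcongr
    _ = ‖δ‖ ^ 2 * (4 * 20 ^ (j + 2)) := by ring

end Pool.Agent.Helper101.Stack
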