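import Mathlib
import Pool.Agent.Helper101.StackF

set_option autoImplicit false

namespace Pool.Agent.Helper101.Stack

open Finset Filter Topology

/-- finite summation identity -/
theorem sum_identity (ρ : ℂ) (g E : ℕ → ℂ) : ∀ N : ℕ,
    ∑ k ∈ range N, E k * ρ ^ (k + 1) * ∑ i ∈ range (N - k), g i * ρ ^ i =
      ∑ n ∈ range N, ρ ^ (n + 1) * ∑ i ∈ range (n + 1), g i * E (n - i) := by
  intro N
  induction N with
  | zero => simp
  | succ N ih =>
    rw [Finset.sum_range_succ _ N, Finset.sum_range_succ _ N, ← ih]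
    have h1 : ∑ k ∈ range N, E k * ρ ^ (k + 1) * ∑ i ∈ range (N + 1 - k), g i * ρ ^ i =
        ∑ k ∈ range N, E k * ρ ^ (k + 1) * ∑ i ∈ range (N - k), g i * ρ ^ i +
        ∑ k ∈ range N, ρ ^ (N + 1) * (g (N - k) * E k) := by
      rw [← Finset.sum_add_distrib]
      refine Finset.sum_congr rfl fun k hk => ?_
      have hk' : k < N := Finset.mem_range.1 hk
      have e1 : N + 1 - k = (N - k) + 1 := by omega
      rw [e1, Finset.sum_range_succ]
      have e2 : ρ ^ (N + 1) = ρ ^ (k + 1) * ρ ^ (N - k) := by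
        rw [← pow_add]; congr 1; omega
      rw [e2]; ring
    rw [h1, add_assoc]
    congr 1
    have h2 : ∑ i ∈ range (N + 1), g i * E (N - i) = ∑ k ∈ range (N + 1), g (N - k) * E k := by
      rw [← Finset.sum_range_reflect]
      refine Finset.sum_congr rfl fun k hk => ?_
      have hk' : k < N + 1 := Finset.mem_range.1 hk
      have e1 : N + 1 - 1 - k = N - k := by omega
      have e2 : N - (N - k) = k := by omega
      rw [e1, e2]
    rw [h2, Finset.sum_range_succ, mul_add, ← Finset.mul_sum]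
    have e3 : N + 1 - N = 1 := by omega
    have e4 : N - N = 0 := by omega
    rw [e3, e4]
    simp
    ring

theorem tail_bound (M N : ℕ) :
    ∑ i ∈ Finset.Ico M (N + 1), (8 : ℝ) ^ i / i.factorial ≤ (1 / 2) ^ M * Real.exp 16 := by
  have h1 : ∀ i ∈ Finset.Ico M (N + 1), (8 : ℝ) ^ i / i.factorial ≤
      (1 / 2) ^ M * ((16 : ℝ) ^ i / i.factorial) := by
    intro i hi
    have hMi : M ≤ i := (Finset.mem_Ico.1 hi).1
    have e : (8 : ℝ) ^ i = (1 / 2) ^ i * 16 ^ i := by rw [← mul_pow]; norm_num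
    rw [e, mul_div_assoc]
    have : ((1 : ℝ) / 2) ^ i ≤ (1 / 2) ^ M := pow_le_pow_of_le_one (by norm_num) (by norm_num) hMi
    gcongr
  calc _ ≤ ∑ i ∈ Finset.Ico M (N + 1), (1 / 2) ^ M * ((16 : ℝ) ^ i / i.factorial) :=
        Finset.sum_le_sum h1
    _ = (1 / 2) ^ M * ∑ i ∈ Finset.Ico M (N + 1), ((16 : ℝ) ^ i / i.factorial) := by
        rw [Finset.mul_sum]
    _ ≤ (1 / 2) ^ M * ∑ i ∈ Finset.range (N + 1), ((16 : ℝ) ^ i / i.factorial) := by
        refine mul_le_mul_of_nonneg_left ?_ (by positivity)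
        apply Finset.sum_le_sum_of_subset_of_nonneg
        · intro i hi; rw [Finset.mem_range]; exact (Finset.mem_Ico.1 hi).2
        · intro i _ _; positivity
    _ ≤ (1 / 2) ^ M * Real.exp 16 := by
        gcongr
        exact Real.sum_le_exp_of_nonneg (by norm_num) _

theorem g_norm (x : ℂ) (hx : ‖x‖ = 1) (hδ : ‖1 - x‖ ≤ 1) (i : ℕ) (hi : 2 ≤ i) :
    ‖g x i‖ ≤ ‖1 - x‖ * (4 ^ i / i.factorial) := by
  obtain ⟨n, rfl⟩ := Nat.exists_eq_add_of_le' hi
  rw [g_succ_succ]
  rw [norm_div, norm_neg, norm_mul, norm_mul, hx, one_mul, Complex.norm_natCast]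
  have h1 := w_bound (1 - x) hδ (n + 1) 1
  have h2 : (4 : ℝ) ^ (n + 1) ≤ 4 ^ (n + 2) := by gcongr <;> norm_num
  rw [mul_div_assoc]
  gcongr
  exact h1.trans h2

/-- the normalised generating polynomial: the expectation of `x ^ D_{k+1}` -/
noncomputable def EE (x : ℂ) (k : ℕ) : ℂ := x * P x k / (k.factorial : ℂ)

/-- the main inequality -/
theorem main_ineq (x : ℂ) (hx : ‖x‖ = 1) (hδ : ‖1 - x‖ ≤ 1) (ρ : ℂ) (hρ : ‖ρ‖ ≤ 2)
    (hE : ∀ k, ‖EE x k‖ ≤ 1) (B : ℝ) (N : ℕ) (hB : ∀ k ≤ N + 1, ‖ρ‖ ^ k ≤ B) :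
    ‖EE x N * ρ ^ (N + 1) - x * ρ‖ ≤
      ‖1 - x‖ * (8 * Real.exp 8) + B * (N * ‖∑ i ∈ range (N + 2), g x i * ρ ^ i‖ +
        ‖1 - x‖ * Real.exp 16) := by
  have hB0 : 0 ≤ B := le_trans (by positivity) (hB 0 (by omega))
  have key1 := sum_identity ρ (g x) (EE x) (N + 1)
  have key2 : ∑ n ∈ range (N + 1), ρ ^ (n + 1) * ∑ i ∈ range (n + 1), g x i * EE x (n - i) =
      x * ρ - ∑ n ∈ range N, ((n : ℂ) + 2) * g x (n + 2) * ρ ^ (n + 2) := by
    have h1 : ∀ n ∈ range (N + 1), ρ ^ (n + 1) * ∑ i ∈ range (n + 1), g x i * EE x (n - i) =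
        - (((n : ℂ) + 1) * g x (n + 1) * ρ ^ (n + 1)) := by
      intro n _
      unfold EE
      rw [key x n]; ring
    rw [Finset.sum_congr rfl h1, Finset.sum_range_succ', g_one]
    rw [Finset.sum_neg_distrib]
    have h2 : ∑ k ∈ range N, (((k + 1 : ℕ) : ℂ) + 1) * g x (k + 1 + 1) * ρ ^ (k + 1 + 1) =
      ∑ n ∈ range N, ((n : ℂ) + 2) * g x (n + 2) * ρ ^ (n + 2) := by
      refine Finset.sum_congr rfl fun k _ => ?_
      push_cast; ring
    rw [h2]
    push_cast; ring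
  rw [key2] at key1
  rw [Finset.sum_range_succ] at key1
  have e3 : N + 1 - N = 1 := by omega
  rw [e3, Finset.sum_range_one, g_zero, pow_zero, mul_one, mul_one] at key1
  set T := ∑ i ∈ range (N + 2), g x i * ρ ^ i with hT
  have e4 : ∀ k ∈ range N, EE x k * ρ ^ (k + 1) * ∑ i ∈ range (N + 1 - k), g x i * ρ ^ i =
      EE x k * ρ ^ (k + 1) * (T - ∑ i ∈ Finset.Ico (N + 1 - k) (N + 2), g x i * ρ ^ i) := by
    intro k hk
    have : T = ∑ i ∈ range (N + 1 - k), g x i * ρ ^ i +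
        ∑ i ∈ Finset.Ico (N + 1 - k) (N + 2), g x i * ρ ^ i := by
      rw [hT, Finset.sum_range_add_sum_Ico _ (by omega)]
    rw [this]; ring
  rw [Finset.sum_congr rfl e4] at key1
  have key3 : EE x N * ρ ^ (N + 1) - x * ρ =
      - ∑ n ∈ range N, ((n : ℂ) + 2) * g x (n + 2) * ρ ^ (n + 2) -
      ∑ k ∈ range N, EE x k * ρ ^ (k + 1) *
        (T - ∑ i ∈ Finset.Ico (N + 1 - k) (N + 2), g x i * ρ ^ i) := by
    linear_combination key1
  rw [key3]
  have hδ0 := norm_nonneg (1 - x)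
  -- first sum
  have b1 : ‖∑ n ∈ range N, ((n : ℂ) + 2) * g x (n + 2) * ρ ^ (n + 2)‖ ≤
      ‖1 - x‖ * (8 * Real.exp 8) := by
    calc _ ≤ ∑ n ∈ range N, ‖((n : ℂ) + 2) * g x (n + 2) * ρ ^ (n + 2)‖ := norm_sum_le _ _
      _ ≤ ∑ n ∈ range N, ‖1 - x‖ * (8 * ((8 : ℝ) ^ (n + 1) / (n + 1).factorial)) := by
        refine Finset.sum_le_sum fun n _ => ?_
        have h1 := g_norm x hx hδ (n + 2) (by omega)
        have h2 : ‖(n : ℂ) + 2‖ = (n : ℝ) + 2 := by
          have h : (n : ℂ) + 2 = (((n : ℝ) + 2 : ℝ) : ℂ) := by push_cast; ring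
          rw [h, Complex.norm_real, Real.norm_of_nonneg (by positivity)]
        rw [norm_mul, norm_mul, h2, norm_pow]
        calc ((n : ℝ) + 2) * ‖g x (n + 2)‖ * ‖ρ‖ ^ (n + 2)
            ≤ ((n : ℝ) + 2) * (‖1 - x‖ * (4 ^ (n + 2) / (n + 2).factorial)) * 2 ^ (n + 2) := by
              gcongr
          _ = ‖1 - x‖ * (8 * ((8 : ℝ) ^ (n + 1) / (n + 1).factorial)) := by
              have h3 : ((n + 2).factorial : ℝ) = ((n : ℝ) + 2) * (n + 1).factorial := by
                rw [Nat.factorial_succ (n + 1)]; push_cast; ring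
              have h4 : ((n + 1).factorial : ℝ) ≠ 0 := by
                exact_mod_cast Nat.factorial_ne_zero _
              have h5 : ((n : ℝ) + 2) ≠ 0 := by positivity
              have h6 : (8 : ℝ) * 8 ^ (n + 1) = 4 ^ (n + 2) * 2 ^ (n + 2) := by
                rw [← mul_pow, ← pow_succ']; norm_num
              rw [h3, ← mul_div_assoc 8, h6]
              field_simp
      _ = ‖1 - x‖ * (8 * ∑ n ∈ range N, ((8 : ℝ) ^ (n + 1) / (n + 1).factorial)) := by
        rw [← Finset.mul_sum, ← Finset.mul_sum]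
      _ ≤ ‖1 - x‖ * (8 * Real.exp 8) := by
        gcongr
        have h1 : ∑ n ∈ range N, ((8 : ℝ) ^ (n + 1) / (n + 1).factorial) ≤
            ∑ n ∈ range (N + 1), ((8 : ℝ) ^ n / n.factorial) := by
          rw [Finset.sum_range_succ' _ N]; simp
        exact h1.trans (Real.sum_le_exp_of_nonneg (by norm_num) _)
  -- second sum
  have b2 : ‖∑ k ∈ range N, EE x k * ρ ^ (k + 1) *
        (T - ∑ i ∈ Finset.Ico (N + 1 - k) (N + 2), g x i * ρ ^ i)‖ ≤
      B * (N * ‖T‖ + ‖1 - x‖ * Real.exp 16) := by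
    calc _ ≤ ∑ k ∈ range N, ‖EE x k * ρ ^ (k + 1) *
        (T - ∑ i ∈ Finset.Ico (N + 1 - k) (N + 2), g x i * ρ ^ i)‖ := norm_sum_le _ _
      _ ≤ ∑ k ∈ range N, B * (‖T‖ + ‖1 - x‖ * ((1 / 2) ^ (N - k) * (1 / 2) * Real.exp 16)) := by
        refine Finset.sum_le_sum fun k hk => ?_
        have hkN := Finset.mem_range.1 hk
        rw [norm_mul, norm_mul, norm_pow]
        have h1 : ‖EE x k‖ * ‖ρ‖ ^ (k + 1) ≤ B := by
          calc _ ≤ 1 * B := by gcongr; exact hE k; exact hB _ (by omega)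
            _ = B := one_mul _
        have h2 : ‖T - ∑ i ∈ Finset.Ico (N + 1 - k) (N + 2), g x i * ρ ^ i‖ ≤
            ‖T‖ + ‖1 - x‖ * ((1 / 2) ^ (N - k) * (1 / 2) * Real.exp 16) := by
          refine (norm_sub_le _ _).trans ?_
          gcongr
          calc _ ≤ ∑ i ∈ Finset.Ico (N + 1 - k) (N + 2), ‖g x i * ρ ^ i‖ := norm_sum_le _ _
            _ ≤ ∑ i ∈ Finset.Ico (N + 1 - k) (N + 2), ‖1 - x‖ * (8 ^ i / i.factorial) := by
              refine Finset.sum_le_sum fun i hi => ?_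
              have hi2 : 2 ≤ i := by have := (Finset.mem_Ico.1 hi).1; omega
              rw [norm_mul, norm_pow]
              calc _ ≤ (‖1 - x‖ * (4 ^ i / i.factorial)) * 2 ^ i := by
                    gcongr; exact g_norm x hx hδ i hi2
                _ = ‖1 - x‖ * (8 ^ i / i.factorial) := by
                    have : (8 : ℝ) ^ i = 4 ^ i * 2 ^ i := by rw [← mul_pow]; norm_num
                    rw [this]; ring
            _ = ‖1 - x‖ * ∑ i ∈ Finset.Ico (N + 1 - k) (N + 2), (8 : ℝ) ^ i / i.factorial := by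
              rw [Finset.mul_sum]
            _ ≤ ‖1 - x‖ * ((1 / 2) ^ (N - k) * (1 / 2) * Real.exp 16) := by
              gcongr
              have := tail_bound (N + 1 - k) (N + 1)
              have e5 : N + 1 - k = (N - k) + 1 := by omega
              rw [e5, pow_succ] at this
              rw [e5]
              exact this
        calc _ ≤ B * ‖T - ∑ i ∈ Finset.Ico (N + 1 - k) (N + 2), g x i * ρ ^ i‖ := by gcongr
          _ ≤ _ := by gcongr
      _ = B * (N * ‖T‖ + ‖1 - x‖ * ((∑ k ∈ range N, (1 / 2 : ℝ) ^ (N - k)) * (1 / 2) *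
            Real.exp 16)) := by
        rw [← Finset.mul_sum, Finset.sum_add_distrib, Finset.sum_const, Finset.card_range,
          nsmul_eq_mul, ← Finset.mul_sum, ← Finset.sum_mul, ← Finset.sum_mul]
      _ ≤ B * (N * ‖T‖ + ‖1 - x‖ * Real.exp 16) := by
        have h1 : (∑ k ∈ range N, (1 / 2 : ℝ) ^ (N - k)) ≤ 2 := by
          have h2 : (∑ k ∈ range N, (1 / 2 : ℝ) ^ (N - k)) ≤
              ∑ k ∈ range (N + 1), (1 / 2 : ℝ) ^ k := by
            rw [← Finset.sum_range_reflect, Finset.sum_range_succ']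
            have : ∀ j ∈ range N, (1 / 2 : ℝ) ^ (N - (N - 1 - j)) = (1 / 2 : ℝ) ^ (j + 1) := by
              intro j hj
              have := Finset.mem_range.1 hj
              congr 1; omega
            rw [Finset.sum_congr rfl this]
            simp
          have h3 := (summable_geometric_two).sum_le_tsum (range (N + 1)) (fun i _ => by positivity)
          rw [tsum_geometric_two] at h3
          exact h2.trans h3
        have h4 : (∑ k ∈ range N, (1 / 2 : ℝ) ^ (N - k)) * (1 / 2) * Real.exp 16 ≤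
            Real.exp 16 := by
          have : (∑ k ∈ range N, (1 / 2 : ℝ) ^ (N - k)) * (1 / 2) ≤ 1 := by linarith
          calc _ ≤ 1 * Real.exp 16 := by gcongr
            _ = _ := one_mul _
        gcongr
  calc _ ≤ ‖- ∑ n ∈ range N, ((n : ℂ) + 2) * g x (n + 2) * ρ ^ (n + 2)‖ +
      ‖∑ k ∈ range N, EE x k * ρ ^ (k + 1) *
        (T - ∑ i ∈ Finset.Ico (N + 1 - k) (N + 2), g x i * ρ ^ i)‖ := norm_sub_le _ _
    _ ≤ _ := by rw [norm_neg]; gcongr

end Pool.Agent.Helper101.Stack
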