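import Mathlib
import Pool.Agent.Helper101.StackG

set_option autoImplicit false

namespace Pool.Agent.Helper101.Stack

open Finset Filter Topology

noncomputable def ce : ℝ := Real.exp 1
noncomputable def ca : ℝ := 3 - ce
noncomputable def cb : ℝ := 5 - 9 / 2 * ce + ce ^ 2
noncomputable def cs : ℝ := (ce - 2) / 2 + ca * (ce - 1)

noncomputable def s0 (N : ℕ) : ℝ := ∑ j ∈ range N, 1 / ((j + 2).factorial : ℝ)
noncomputable def s1 (N : ℕ) : ℝ :=
  ∑ j ∈ range N, (((j : ℝ) + 1) * j / 2 + ca * ((j : ℝ) + 2)) / ((j + 2).factorial : ℝ)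

theorem ce_lt : ce < 2.7182818286 := Real.exp_one_lt_d9
theorem lt_ce : 2.7182818283 < ce := Real.exp_one_gt_d9

theorem ca_bd : 0 ≤ ca ∧ ca ≤ 1 / 2 := by
  have h1 := ce_lt
  have h2 := lt_ce
  unfold ca
  constructor <;> linarith

theorem cb_bd : 0 ≤ cb ∧ cb ≤ 1 / 2 := by
  have h1 := ce_lt
  have h2 := lt_ce
  unfold cb
  constructor <;> nlinarith

theorem T_bound (x ρ : ℂ) (hx : ‖x‖ = 1) (hδ : ‖1 - x‖ ≤ 1)
    (hρ : ρ = 1 + (ca : ℂ) * (1 - x) + (cb : ℂ) * (1 - x) ^ 2) (hρ2 : ‖ρ‖ ≤ 2)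
    (hρ1 : ‖ρ - 1‖ ≤ ‖1 - x‖) (N : ℕ) :
    ‖∑ i ∈ range (N + 2), g x i * ρ ^ i‖ ≤
      (|cb + cs| + 4 * Real.exp 20) * ‖1 - x‖ ^ 3 + ‖1 - x‖ * |ce - 2 - s0 N| +
        ‖1 - x‖ ^ 2 * |cs - s1 N| := by
  set δ : ℂ := 1 - x with hδdef
  have hxδ : x = 1 - δ := by rw [hδdef]; ring
  have hδ0 := norm_nonneg δ
  set r : ℕ → ℂ := fun j => w δ (j + 1) 1 * ρ ^ (j + 2) - 1 -
    δ * (((j : ℂ) + 1) * j / 2 + (ca : ℂ) * ((j : ℂ) + 2)) with hr
  have hrb : ∀ j, ‖r j‖ ≤ ‖δ‖ ^ 2 * (4 * 20 ^ (j + 2)) := by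
    intro j
    exact rem_bound δ hδ (ca : ℂ) (cb : ℂ) (by
      rw [Complex.norm_real, Real.norm_of_nonneg cb_bd.1]; linarith [cb_bd.2]) ρ hρ hρ2 hρ1 j
  have e1 : ∑ i ∈ range (N + 2), g x i * ρ ^ i =
      1 - x * ρ - x * δ * ((s0 N : ℂ) + δ * (s1 N : ℂ) +
        ∑ j ∈ range N, r j / ((j + 2).factorial : ℂ)) := by
    rw [Finset.sum_range_succ' _ (N + 1), Finset.sum_range_succ' _ N, g_zero, g_one]
    have h1 : ∀ j ∈ range N, g x (j + 1 + 1) * ρ ^ (j + 1 + 1) =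
        - (x * δ) * (1 / ((j + 2).factorial : ℂ) +
          δ * ((((j : ℂ) + 1) * j / 2 + (ca : ℂ) * ((j : ℂ) + 2)) / ((j + 2).factorial : ℂ)) +
          r j / ((j + 2).factorial : ℂ)) := by
      intro j _
      have : g x (j + 1 + 1) = g x (j + 2) := rfl
      rw [this, g_succ_succ]
      have h4 : ((j + 2).factorial : ℂ) ≠ 0 := by exact_mod_cast Nat.factorial_ne_zero _
      simp only [hr]
      rw [← hδdef]
      field_simp
      ring
    rw [Finset.sum_congr rfl h1, ← Finset.mul_sum, Finset.sum_add_distrib,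
      Finset.sum_add_distrib, ← Finset.mul_sum]
    unfold s0 s1
    push_cast
    ring
  have e2 : ∑ i ∈ range (N + 2), g x i * ρ ^ i =
      ((cb + cs : ℝ) : ℂ) * δ ^ 3 + x * (δ * ((ce - 2 - s0 N : ℝ) : ℂ)) +
      x * (δ ^ 2 * ((cs - s1 N : ℝ) : ℂ)) -
      x * (δ * ∑ j ∈ range N, r j / ((j + 2).factorial : ℂ)) := by
    rw [e1, hρ]
    unfold cs cb ca
    rw [hxδ]
    push_cast
    ring
  rw [e2]
  have hsum : ‖∑ j ∈ range N, r j / ((j + 2).factorial : ℂ)‖ ≤ ‖δ‖ ^ 2 * (4 * Real.exp 20) := by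
    calc _ ≤ ∑ j ∈ range N, ‖r j / ((j + 2).factorial : ℂ)‖ := norm_sum_le _ _
      _ ≤ ∑ j ∈ range N, ‖δ‖ ^ 2 * (4 * ((20 : ℝ) ^ (j + 2) / (j + 2).factorial)) := by
        refine Finset.sum_le_sum fun j _ => ?_
        rw [norm_div, Complex.norm_natCast]
        calc _ ≤ (‖δ‖ ^ 2 * (4 * 20 ^ (j + 2))) / (j + 2).factorial := by
              gcongr; exact hrb j
          _ = _ := by ring
      _ = ‖δ‖ ^ 2 * (4 * ∑ j ∈ range N, ((20 : ℝ) ^ (j + 2) / (j + 2).factorial)) := by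
        rw [← Finset.mul_sum, ← Finset.mul_sum]
      _ ≤ ‖δ‖ ^ 2 * (4 * Real.exp 20) := by
        gcongr
        have h1 : ∑ j ∈ range N, ((20 : ℝ) ^ (j + 2) / (j + 2).factorial) ≤
            ∑ n ∈ range (N + 2), ((20 : ℝ) ^ n / n.factorial) := by
          rw [Finset.sum_range_succ' _ (N + 1), Finset.sum_range_succ' _ N]
          have : (0 : ℝ) ≤ 20 ^ (0 + 1) / ((0 + 1).factorial : ℝ) := by positivity
          have : (0 : ℝ) ≤ 20 ^ 0 / ((0).factorial : ℝ) := by positivity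
          linarith
        exact h1.trans (Real.sum_le_exp_of_nonneg (by norm_num) _)
  have n1 : ‖((cb + cs : ℝ) : ℂ) * δ ^ 3‖ = |cb + cs| * ‖δ‖ ^ 3 := by
    rw [norm_mul, norm_pow, Complex.norm_real, Real.norm_eq_abs]
  have n2 : ‖x * (δ * ((ce - 2 - s0 N : ℝ) : ℂ))‖ = ‖δ‖ * |ce - 2 - s0 N| := by
    rw [norm_mul, norm_mul, hx, one_mul, Complex.norm_real, Real.norm_eq_abs]
  have n3 : ‖x * (δ ^ 2 * ((cs - s1 N : ℝ) : ℂ))‖ = ‖δ‖ ^ 2 * |cs - s1 N| := by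
    rw [norm_mul, norm_mul, hx, one_mul, norm_pow, Complex.norm_real, Real.norm_eq_abs]
  have n4 : ‖x * (δ * ∑ j ∈ range N, r j / ((j + 2).factorial : ℂ))‖ ≤
      4 * Real.exp 20 * ‖δ‖ ^ 3 := by
    rw [norm_mul, norm_mul, hx, one_mul]
    calc _ ≤ ‖δ‖ * (‖δ‖ ^ 2 * (4 * Real.exp 20)) := by gcongr
      _ = _ := by ring
  calc _ ≤ ‖((cb + cs : ℝ) : ℂ) * δ ^ 3 + x * (δ * ((ce - 2 - s0 N : ℝ) : ℂ)) +
      x * (δ ^ 2 * ((cs - s1 N : ℝ) : ℂ))‖ +
      ‖x * (δ * ∑ j ∈ range N, r j / ((j + 2).factorial : ℂ))‖ := norm_sub_le _ _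
    _ ≤ (‖((cb + cs : ℝ) : ℂ) * δ ^ 3‖ + ‖x * (δ * ((ce - 2 - s0 N : ℝ) : ℂ))‖ +
      ‖x * (δ ^ 2 * ((cs - s1 N : ℝ) : ℂ))‖) +
      ‖x * (δ * ∑ j ∈ range N, r j / ((j + 2).factorial : ℂ))‖ := by
        gcongr; exact norm_add₃_le
    _ ≤ (|cb + cs| * ‖δ‖ ^ 3 + ‖δ‖ * |ce - 2 - s0 N| + ‖δ‖ ^ 2 * |cs - s1 N|) +
      4 * Real.exp 20 * ‖δ‖ ^ 3 := by rw [n1, n2, n3]; gcongr
    _ = _ := by ring

/-! limits of the partial sums -/

theorem hasSum_inv_fact : HasSum (fun n : ℕ => 1 / (n.factorial : ℝ)) ce := by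
  have := NormedSpace.expSeries_div_hasSum_exp (1 : ℝ)
  simp only [one_pow] at this
  rw [← Real.exp_eq_exp_ℝ] at this
  exact this

theorem hasSum_inv_fact1 : HasSum (fun n : ℕ => 1 / ((n + 1).factorial : ℝ)) (ce - 1) := by
  have := (hasSum_nat_add_iff' (f := fun n : ℕ => 1 / (n.factorial : ℝ)) 1).2 hasSum_inv_fact
  simpa using this

theorem hasSum_inv_fact2 : HasSum (fun n : ℕ => 1 / ((n + 2).factorial : ℝ)) (ce - 2) := by
  have := (hasSum_nat_add_iff' (f := fun n : ℕ => 1 / (n.factorial : ℝ)) 2).2 hasSum_inv_fact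
  simp only [Finset.sum_range_succ, Finset.sum_range_zero] at this
  norm_num at this
  simpa using this

theorem s1_tendsto : Tendsto s1 atTop (𝓝 cs) := by
  have h : HasSum (fun j : ℕ => (((j : ℝ) + 1) * j / 2 + ca * ((j : ℝ) + 2)) /
      ((j + 2).factorial : ℝ)) cs := by
    have h1 := ((hasSum_inv_fact.sub (hasSum_inv_fact1.mul_left 2)).add
      (hasSum_inv_fact2.mul_left 2)).mul_left (1 / 2)
    have h2 := h1.add (hasSum_inv_fact1.mul_left ca)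
    have h3 : 1 / 2 * (ce - 2 * (ce - 1) + 2 * (ce - 2)) + ca * (ce - 1) = cs := by
      unfold cs; ring
    rw [h3] at h2
    have hfun : (fun j : ℕ => (((j : ℝ) + 1) * j / 2 + ca * ((j : ℝ) + 2)) /
      ((j + 2).factorial : ℝ)) = (fun j : ℕ =>
      1 / 2 * (1 / (j.factorial : ℝ) - 2 * (1 / ((j + 1).factorial : ℝ)) +
        2 * (1 / ((j + 2).factorial : ℝ))) + ca * (1 / ((j + 1).factorial : ℝ))) := by
      funext j
      have f2 : ((j + 2).factorial : ℝ) = ((j : ℝ) + 2) * (((j : ℝ) + 1) * j.factorial) := by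
        rw [Nat.factorial_succ (j + 1), Nat.factorial_succ j]; push_cast; ring
      have f1 : ((j + 1).factorial : ℝ) = ((j : ℝ) + 1) * j.factorial := by
        rw [Nat.factorial_succ j]; push_cast; ring
      have h4 : (j.factorial : ℝ) ≠ 0 := by exact_mod_cast Nat.factorial_ne_zero _
      have h5 : (j : ℝ) + 1 ≠ 0 := by positivity
      have h6 : (j : ℝ) + 2 ≠ 0 := by positivity
      rw [f1, f2]
      field_simp
      ring
    rw [hfun]
    exact h2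
  exact h.tendsto_sum_nat

theorem s0_bound (N : ℕ) : |ce - 2 - s0 N| ≤ 2 / ((N : ℝ) + 2) := by
  have h1 := Real.exp_bound (x := 1) (by simp) (n := N + 2) (by omega)
  have h2 : ∑ m ∈ range (N + 2), (1 : ℝ) ^ m / m.factorial = 2 + s0 N := by
    rw [Finset.sum_range_succ' _ (N + 1), Finset.sum_range_succ' _ N]
    unfold s0
    simp
    ring
  rw [h2] at h1
  have h3 : ce - 2 - s0 N = Real.exp 1 - (2 + s0 N) := by unfold ce; ring
  rw [h3]
  refine h1.trans ?_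
  simp only [abs_one, one_pow, one_mul]
  have h4 : ((N : ℝ) + 2) ≤ ((N + 2).factorial : ℝ) := by
    exact_mod_cast Nat.self_le_factorial (N + 2)
  have hN : (0 : ℝ) ≤ N := Nat.cast_nonneg N
  rw [div_le_div_iff₀ (by positivity) (by positivity)]
  push_cast
  have h5 : (((N + 2 : ℕ).succ : ℕ) : ℝ) = (N : ℝ) + 3 := by push_cast; ring
  nlinarith [Nat.cast_nonneg (α := ℝ) (N + 2).factorial]

end Pool.Agent.Helper101.Stack
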