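import Mathlib
import Pool.Agent.Helper101.StackH

set_option autoImplicit false

namespace Pool.Agent.Helper101.Stack

open Finset Filter Topology

noncomputable def cv : ℝ := 2 + 2 * ce - ce ^ 2

/-- third order bound -/
theorem psi_bound (y : ℂ) (hy : ‖y‖ ≤ 1) :
    ‖(1 + (ca : ℂ) * (1 - Complex.exp y) + (cb : ℂ) * (1 - Complex.exp y) ^ 2) *
      Complex.exp ((ca : ℂ) * y) - 1 + ((cv / 2 : ℝ) : ℂ) * y ^ 2‖ ≤ 26 * ‖y‖ ^ 3 := by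
  obtain ⟨ha0, ha1⟩ := ca_bd
  obtain ⟨hb0, hb1⟩ := cb_bd
  have hya0 := norm_nonneg y
  set a : ℂ := (ca : ℂ) with ha
  set b : ℂ := (cb : ℂ) with hb
  have hna : ‖a‖ ≤ 1 / 2 := by rw [ha, Complex.norm_real, Real.norm_of_nonneg ha0]; exact ha1
  have hnb : ‖b‖ ≤ 1 / 2 := by rw [hb, Complex.norm_real, Real.norm_of_nonneg hb0]; exact hb1
  set E1 := Complex.exp y with hE1
  set E2 := Complex.exp (a * y) with hE2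
  set R1 := E1 - (1 + y + y ^ 2 / 2) with hR1
  set R2 := E2 - (1 + a * y + (a * y) ^ 2 / 2) with hR2
  have bR : ∀ z : ℂ, ‖z‖ ≤ 1 → ‖Complex.exp z - (1 + z + z ^ 2 / 2)‖ ≤ ‖z‖ ^ 3 := by
    intro z hz
    have h := Complex.exp_bound hz (n := 3) (by norm_num)
    simp only [Finset.sum_range_succ, Finset.sum_range_zero, Nat.factorial] at h
    have e : Complex.exp z - (1 + z + z ^ 2 / 2) = Complex.exp z -
      (0 + z ^ 0 / ((1 : ℕ) : ℂ) + z ^ 1 / (((0 + 1) * 1 : ℕ) : ℂ) +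
        z ^ 2 / (((1 + 1) * ((0 + 1) * 1) : ℕ) : ℂ)) := by
      push_cast; ring
    rw [e]
    refine h.trans ?_
    have : (0 : ℝ) ≤ ‖z‖ ^ 3 := by positivity
    push_cast
    nlinarith
  have hay : ‖a * y‖ ≤ ‖y‖ := by
    rw [norm_mul]
    calc _ ≤ 1 / 2 * ‖y‖ := by gcongr
      _ ≤ ‖y‖ := by linarith
  have b1 : ‖R1‖ ≤ ‖y‖ ^ 3 := bR y hy
  have b2 : ‖R2‖ ≤ ‖y‖ ^ 3 := (bR (a * y) (hay.trans hy)).trans (by gcongr)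
  have nE1 : ‖E1‖ ≤ 3 := by
    have : ‖Complex.exp y‖ ≤ Real.exp ‖y‖ := Complex.norm_exp_le_exp_norm y
    refine this.trans ?_
    have h2 : Real.exp ‖y‖ ≤ Real.exp 1 := Real.exp_le_exp.2 hy
    have := Real.exp_one_lt_d9
    linarith
  have hvab : ((cv / 2 : ℝ) : ℂ) = a ^ 2 / 2 + a / 2 - b := by
    rw [ha, hb]; unfold cv ca cb; push_cast; ring
  set q : ℂ := (-a ^ 3 / 2 + a * b - a ^ 2 / 2 + b) + y * ((b - a / 2) * a ^ 2 / 2 + a * b + b / 4) +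
    y ^ 2 * (a ^ 2 * b / 2 + a * b / 4) + y ^ 3 * (a ^ 2 * b / 8) with hq
  have e : (1 + a * (1 - E1) + b * (1 - E1) ^ 2) * E2 - 1 + ((cv / 2 : ℝ) : ℂ) * y ^ 2 =
      (1 + a * (1 - E1) + b * (1 - E1) ^ 2) * R2 -
      (1 + a * y + (a * y) ^ 2 / 2) * R1 * (a + b * (2 - E1 - (1 + y + y ^ 2 / 2))) +
      y ^ 3 * q := by
    rw [hvab, hR1, hR2, hq]; ring
  rw [e]
  have c1 : ‖1 + a * (1 - E1) + b * (1 - E1) ^ 2‖ ≤ 11 := by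
    have h1 : ‖1 - E1‖ ≤ 4 := by
      calc _ ≤ ‖(1 : ℂ)‖ + ‖E1‖ := norm_sub_le _ _
        _ ≤ 4 := by rw [norm_one]; linarith
    calc _ ≤ ‖(1 : ℂ)‖ + ‖a * (1 - E1)‖ + ‖b * (1 - E1) ^ 2‖ := norm_add₃_le
      _ = 1 + ‖a‖ * ‖1 - E1‖ + ‖b‖ * ‖1 - E1‖ ^ 2 := by
        rw [norm_one, norm_mul, norm_mul, norm_pow]
      _ ≤ 1 + 1 / 2 * 4 + 1 / 2 * 4 ^ 2 := by gcongr
      _ = 11 := by norm_num
  have c2 : ‖1 + a * y + (a * y) ^ 2 / 2‖ ≤ 2 := by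
    have h1 : ‖a * y‖ ≤ 1 / 2 := by
      rw [norm_mul]
      calc ‖a‖ * ‖y‖ ≤ 1 / 2 * 1 := by gcongr
        _ = 1 / 2 := by norm_num
    calc _ ≤ ‖(1 : ℂ)‖ + ‖a * y‖ + ‖(a * y) ^ 2 / 2‖ := norm_add₃_le
      _ = 1 + ‖a * y‖ + ‖a * y‖ ^ 2 / 2 := by
        rw [norm_one, norm_div, norm_pow, Complex.norm_ofNat]
      _ ≤ 1 + 1 / 2 + (1 / 2) ^ 2 / 2 := by gcongr
      _ ≤ 2 := by norm_num
  have c3 : ‖a + b * (2 - E1 - (1 + y + y ^ 2 / 2))‖ ≤ 5 := by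
    have h1 : ‖2 - E1 - (1 + y + y ^ 2 / 2)‖ ≤ 8 := by
      calc _ ≤ ‖2 - E1‖ + ‖1 + y + y ^ 2 / 2‖ := norm_sub_le _ _
        _ ≤ (‖(2 : ℂ)‖ + ‖E1‖) + (‖(1 : ℂ)‖ + ‖y‖ + ‖y ^ 2 / 2‖) :=
          add_le_add (norm_sub_le _ _) norm_add₃_le
        _ = (2 + ‖E1‖) + (1 + ‖y‖ + ‖y‖ ^ 2 / 2) := by
          rw [norm_one, norm_div, norm_pow, Complex.norm_ofNat]
        _ ≤ (2 + 3) + (1 + 1 + 1 ^ 2 / 2) := by gcongr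
        _ ≤ 8 := by norm_num
    calc _ ≤ ‖a‖ + ‖b * (2 - E1 - (1 + y + y ^ 2 / 2))‖ := norm_add_le _ _
      _ = ‖a‖ + ‖b‖ * ‖2 - E1 - (1 + y + y ^ 2 / 2)‖ := by rw [norm_mul]
      _ ≤ 1 / 2 + 1 / 2 * 8 := by gcongr
      _ ≤ 5 := by norm_num
  have c4 : ‖q‖ ≤ 5 := by
    have q1 : ‖-a ^ 3 / 2 + a * b - a ^ 2 / 2 + b‖ ≤ 2 := by
      calc _ ≤ ‖-a ^ 3 / 2 + a * b - a ^ 2 / 2‖ + ‖b‖ := norm_add_le _ _
        _ ≤ (‖-a ^ 3 / 2 + a * b‖ + ‖a ^ 2 / 2‖) + ‖b‖ := by gcongr; exact norm_sub_le _ _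
        _ ≤ ((‖-a ^ 3 / 2‖ + ‖a * b‖) + ‖a ^ 2 / 2‖) + ‖b‖ := by gcongr; exact norm_add_le _ _
        _ = ((‖a‖ ^ 3 / 2 + ‖a‖ * ‖b‖) + ‖a‖ ^ 2 / 2) + ‖b‖ := by
          simp only [norm_div, norm_neg, norm_pow, norm_mul, Complex.norm_ofNat]
        _ ≤ (((1 / 2) ^ 3 / 2 + 1 / 2 * (1 / 2)) + (1 / 2) ^ 2 / 2) + 1 / 2 := by gcongr
        _ ≤ 2 := by norm_num
    have q2 : ‖y * ((b - a / 2) * a ^ 2 / 2 + a * b + b / 4)‖ ≤ 1 := by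
      have : ‖(b - a / 2) * a ^ 2 / 2 + a * b + b / 4‖ ≤ 1 := by
        calc _ ≤ ‖(b - a / 2) * a ^ 2 / 2‖ + ‖a * b‖ + ‖b / 4‖ := norm_add₃_le
          _ = ‖b - a / 2‖ * ‖a‖ ^ 2 / 2 + ‖a‖ * ‖b‖ + ‖b‖ / 4 := by
            simp only [norm_div, norm_pow, norm_mul, Complex.norm_ofNat]
          _ ≤ (‖b‖ + ‖a / 2‖) * ‖a‖ ^ 2 / 2 + ‖a‖ * ‖b‖ + ‖b‖ / 4 := by
            gcongr; exact norm_sub_le _ _
          _ = (‖b‖ + ‖a‖ / 2) * ‖a‖ ^ 2 / 2 + ‖a‖ * ‖b‖ + ‖b‖ / 4 := by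
            rw [norm_div, Complex.norm_ofNat]
          _ ≤ (1 / 2 + 1 / 2 / 2) * (1 / 2) ^ 2 / 2 + 1 / 2 * (1 / 2) + 1 / 2 / 4 := by gcongr
          _ ≤ 1 := by norm_num
      rw [norm_mul]
      calc ‖y‖ * ‖(b - a / 2) * a ^ 2 / 2 + a * b + b / 4‖ ≤ 1 * 1 := by gcongr
        _ = 1 := by norm_num
    have q3 : ‖y ^ 2 * (a ^ 2 * b / 2 + a * b / 4)‖ ≤ 1 := by
      have : ‖a ^ 2 * b / 2 + a * b / 4‖ ≤ 1 := by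
        calc _ ≤ ‖a ^ 2 * b / 2‖ + ‖a * b / 4‖ := norm_add_le _ _
          _ = ‖a‖ ^ 2 * ‖b‖ / 2 + ‖a‖ * ‖b‖ / 4 := by
            simp only [norm_div, norm_pow, norm_mul, Complex.norm_ofNat]
          _ ≤ (1 / 2) ^ 2 * (1 / 2) / 2 + 1 / 2 * (1 / 2) / 4 := by gcongr
          _ ≤ 1 := by norm_num
      rw [norm_mul, norm_pow]
      calc ‖y‖ ^ 2 * ‖a ^ 2 * b / 2 + a * b / 4‖ ≤ 1 ^ 2 * 1 := by gcongr
        _ = 1 := by norm_num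
    have q4 : ‖y ^ 3 * (a ^ 2 * b / 8)‖ ≤ 1 := by
      have : ‖a ^ 2 * b / 8‖ ≤ 1 := by
        calc _ = ‖a‖ ^ 2 * ‖b‖ / 8 := by
              simp only [norm_div, norm_pow, norm_mul, Complex.norm_ofNat]
          _ ≤ (1 / 2) ^ 2 * (1 / 2) / 8 := by gcongr
          _ ≤ 1 := by norm_num
      rw [norm_mul, norm_pow]
      calc ‖y‖ ^ 3 * ‖a ^ 2 * b / 8‖ ≤ 1 ^ 3 * 1 := by gcongr
        _ = 1 := by norm_num
    rw [hq]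
    calc _ ≤ ‖(-a ^ 3 / 2 + a * b - a ^ 2 / 2 + b) +
          y * ((b - a / 2) * a ^ 2 / 2 + a * b + b / 4) +
          y ^ 2 * (a ^ 2 * b / 2 + a * b / 4)‖ + ‖y ^ 3 * (a ^ 2 * b / 8)‖ := norm_add_le _ _
      _ ≤ (‖-a ^ 3 / 2 + a * b - a ^ 2 / 2 + b‖ +
          ‖y * ((b - a / 2) * a ^ 2 / 2 + a * b + b / 4)‖ +
          ‖y ^ 2 * (a ^ 2 * b / 2 + a * b / 4)‖) + ‖y ^ 3 * (a ^ 2 * b / 8)‖ := by
            gcongr; exact norm_add₃_le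
      _ ≤ (2 + 1 + 1) + 1 := by gcongr
      _ = 5 := by norm_num
  calc _ ≤ ‖(1 + a * (1 - E1) + b * (1 - E1) ^ 2) * R2 -
      (1 + a * y + (a * y) ^ 2 / 2) * R1 * (a + b * (2 - E1 - (1 + y + y ^ 2 / 2)))‖ +
      ‖y ^ 3 * q‖ := norm_add_le _ _
    _ ≤ (‖(1 + a * (1 - E1) + b * (1 - E1) ^ 2) * R2‖ +
      ‖(1 + a * y + (a * y) ^ 2 / 2) * R1 * (a + b * (2 - E1 - (1 + y + y ^ 2 / 2)))‖) +
      ‖y ^ 3 * q‖ := by gcongr; exact norm_sub_le _ _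
    _ = (‖1 + a * (1 - E1) + b * (1 - E1) ^ 2‖ * ‖R2‖ +
      ‖1 + a * y + (a * y) ^ 2 / 2‖ * ‖R1‖ * ‖a + b * (2 - E1 - (1 + y + y ^ 2 / 2))‖) +
      ‖y‖ ^ 3 * ‖q‖ := by rw [norm_mul, norm_mul, norm_mul, norm_mul, norm_pow]
    _ ≤ (11 * ‖y‖ ^ 3 + 2 * ‖y‖ ^ 3 * 5) + ‖y‖ ^ 3 * 5 := by gcongr
    _ = 26 * ‖y‖ ^ 3 := by ring

theorem EE_bound (x : ℂ) (hx : ‖x‖ = 1) (k : ℕ) : ‖EE x k‖ ≤ 1 := by
  unfold EE P
  rw [norm_div, norm_mul, hx, one_mul, Complex.norm_natCast]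
  have h1 : ‖∑ l ∈ W (Finset.range k), x ^ des (srt l)‖ ≤ (k.factorial : ℝ) := by
    calc _ ≤ ∑ l ∈ W (Finset.range k), ‖x ^ des (srt l)‖ := norm_sum_le _ _
      _ = (W (Finset.range k)).card := by simp [norm_pow, hx]
      _ ≤ (k.factorial : ℝ) := by
        have h2 : (W (Finset.range k)).card ≤ (Finset.range k).toList.permutations.length :=
          List.toFinset_card_le _
        rw [List.length_permutations, Finset.length_toList, Finset.card_range] at h2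
        exact_mod_cast h2
  have h3 : (0 : ℝ) < k.factorial := by exact_mod_cast Nat.factorial_pos k
  rw [div_le_one h3]
  exact h1

end Pool.Agent.Helper101.Stack
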