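import Mathlib
import Pool.Agent.Helper101.StackI

set_option autoImplicit false

namespace Pool.Agent.Helper101.Stack

open Finset Filter Topology

theorem cf_tendsto (t : ℝ) : Tendsto (fun n : ℕ =>
    EE (Complex.exp (Complex.I * ((t / √(n : ℝ) : ℝ) : ℂ))) (n - 1) *
      Complex.exp (-((n : ℂ) * ((ca : ℂ) * (Complex.I * ((t / √(n : ℝ) : ℝ) : ℂ))))))
    atTop (𝓝 (Complex.exp (-((cv * t ^ 2 / 2 : ℝ) : ℂ)))) := by
  set th : ℕ → ℝ := fun n => t / √(n : ℝ) with hth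
  set y : ℕ → ℂ := fun n => Complex.I * ((th n : ℝ) : ℂ) with hy
  set x : ℕ → ℂ := fun n => Complex.exp (y n) with hx
  set ρ : ℕ → ℂ := fun n => 1 + (ca : ℂ) * (1 - x n) + (cb : ℂ) * (1 - x n) ^ 2 with hρ
  set E2 : ℕ → ℂ := fun n => Complex.exp ((ca : ℂ) * y n) with hE2
  have th0 : Tendsto th atTop (𝓝 0) :=
    tendsto_const_nhds.div_atTop (Real.tendsto_sqrt_atTop.comp tendsto_natCast_atTop_atTop)
  have absth0 : Tendsto (fun n => |th n|) atTop (𝓝 0) := by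
    have := th0.abs; simpa using this
  have hδle : ∀ n, ‖1 - x n‖ ≤ |th n| := by
    intro n
    rw [norm_sub_rev]
    exact Real.norm_exp_I_mul_ofReal_sub_one_le
  have hxn : ∀ n, ‖x n‖ = 1 := by
    intro n
    simp only [hx, hy]
    rw [mul_comm]
    exact Complex.norm_exp_ofReal_mul_I _
  have hyn : ∀ n, ‖y n‖ = |th n| := by
    intro n
    simp only [hy]
    rw [norm_mul, Complex.norm_I, one_mul, Complex.norm_real, Real.norm_eq_abs]
  have hE2n : ∀ n, ‖E2 n‖ = 1 := by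
    intro n
    simp only [hE2, hy]
    have : (ca : ℂ) * (Complex.I * ((th n : ℝ) : ℂ)) = ((ca * th n : ℝ) : ℂ) * Complex.I := by
      push_cast; ring
    rw [this]
    exact Complex.norm_exp_ofReal_mul_I _
  have hnth : ∀ n : ℕ, 1 ≤ n → (n : ℝ) * (th n) ^ 2 = t ^ 2 := by
    intro n hn
    have hn' : (0 : ℝ) < n := by exact_mod_cast hn
    simp only [hth]
    rw [div_pow, Real.sq_sqrt hn'.le]
    field_simp
  have hev : ∀ᶠ n : ℕ in atTop, 1 ≤ n ∧ |th n| ≤ 1 / 2 := by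
    refine (eventually_ge_atTop 1).and ?_
    exact absth0.eventually_le_const (by norm_num)
  -- first claim
  have hy2 : ∀ n, y n ^ 2 = -((th n ^ 2 : ℝ) : ℂ) := by
    intro n; simp only [hy]; rw [mul_pow, Complex.I_sq]; push_cast; ring
  have hpsi : ∀ n : ℕ, 1 ≤ n → |th n| ≤ 1 / 2 →
      ‖(n : ℂ) * (ρ n * E2 n - 1) - ((cv * t ^ 2 / 2 : ℝ) : ℂ)‖ ≤ 26 * t ^ 2 * |th n| := by
    intro n hn hn2
    have h1 := psi_bound (y n) (by rw [hyn]; linarith)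
    have h2 : (n : ℂ) * (ρ n * E2 n - 1) - ((cv * t ^ 2 / 2 : ℝ) : ℂ) =
        (n : ℂ) * ((1 + (ca : ℂ) * (1 - Complex.exp (y n)) +
          (cb : ℂ) * (1 - Complex.exp (y n)) ^ 2) * Complex.exp ((ca : ℂ) * y n) - 1 +
          ((cv / 2 : ℝ) : ℂ) * y n ^ 2) := by
      have h3 : ((t ^ 2 : ℝ) : ℂ) = (n : ℂ) * ((th n ^ 2 : ℝ) : ℂ) := by
        rw [← hnth n hn]; push_cast; ring
      have h4 : ((cv * t ^ 2 / 2 : ℝ) : ℂ) = ((cv / 2 : ℝ) : ℂ) * ((t ^ 2 : ℝ) : ℂ) := by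
        push_cast; ring
      rw [h4, h3, hy2]
      simp only [hρ, hE2, hx]
      ring
    rw [h2, norm_mul, Complex.norm_natCast]
    rw [hyn] at h1
    calc _ ≤ (n : ℝ) * (26 * |th n| ^ 3) := by gcongr
      _ = 26 * ((n : ℝ) * (th n) ^ 2) * |th n| := by
        have : |th n| ^ 3 = (th n) ^ 2 * |th n| := by rw [← sq_abs (th n)]; ring
        rw [this]; ring
      _ = 26 * t ^ 2 * |th n| := by rw [hnth n hn]
  have hA : Tendsto (fun n : ℕ => (n : ℂ) * (ρ n * E2 n - 1)) atTop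
      (𝓝 ((cv * t ^ 2 / 2 : ℝ) : ℂ)) := by
    rw [tendsto_iff_norm_sub_tendsto_zero]
    have h0 : Tendsto (fun n => 26 * t ^ 2 * |th n|) atTop (𝓝 0) := by
      have := absth0.const_mul (26 * t ^ 2); simpa using this
    refine tendsto_of_tendsto_of_tendsto_of_le_of_le' tendsto_const_nhds h0
      (Eventually.of_forall fun n => norm_nonneg _) ?_
    filter_upwards [hev] with n hn
    exact hpsi n hn.1 hn.2
  have hA' : Tendsto (fun n : ℕ => (ρ n * E2 n) ^ n) atTop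
      (𝓝 (Complex.exp ((cv * t ^ 2 / 2 : ℝ) : ℂ))) := by
    have := Complex.tendsto_one_add_pow_exp_of_tendsto hA
    simpa using this
  -- second claim
  set C : ℝ := |cv * t ^ 2 / 2| + 26 * t ^ 2 with hC
  have hC0 : 0 ≤ C := by positivity
  set B : ℝ := Real.exp C with hB
  have hρB : ∀ n : ℕ, 1 ≤ n → |th n| ≤ 1 / 2 → ∀ k ≤ n, ‖ρ n‖ ^ k ≤ B := by
    intro n hn hn2 k hk
    have hn' : (0 : ℝ) < n := by exact_mod_cast hn
    have h1 : ‖ρ n‖ = ‖ρ n * E2 n‖ := by rw [norm_mul, hE2n, mul_one]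
    have h2 : ‖(n : ℂ) * (ρ n * E2 n - 1)‖ ≤ C := by
      calc ‖(n : ℂ) * (ρ n * E2 n - 1)‖ = ‖((n : ℂ) * (ρ n * E2 n - 1) -
            ((cv * t ^ 2 / 2 : ℝ) : ℂ)) + ((cv * t ^ 2 / 2 : ℝ) : ℂ)‖ := by ring_nf
        _ ≤ ‖(n : ℂ) * (ρ n * E2 n - 1) - ((cv * t ^ 2 / 2 : ℝ) : ℂ)‖ +
            ‖((cv * t ^ 2 / 2 : ℝ) : ℂ)‖ := norm_add_le _ _
        _ ≤ 26 * t ^ 2 * |th n| + |cv * t ^ 2 / 2| := by
            gcongr
            · exact hpsi n hn hn2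
            · rw [Complex.norm_real, Real.norm_eq_abs]
        _ ≤ 26 * t ^ 2 * 1 + |cv * t ^ 2 / 2| := by gcongr; linarith
        _ = C := by rw [hC]; ring
    rw [norm_mul, Complex.norm_natCast] at h2
    have h3 : ‖ρ n * E2 n - 1‖ ≤ C / n := by
      rw [le_div_iff₀ hn']; linarith
    have h4 : ‖ρ n‖ ≤ Real.exp (C / n) := by
      rw [h1]
      calc ‖ρ n * E2 n‖ = ‖(ρ n * E2 n - 1) + 1‖ := by ring_nf
        _ ≤ ‖ρ n * E2 n - 1‖ + ‖(1 : ℂ)‖ := norm_add_le _ _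
        _ ≤ C / n + 1 := by rw [norm_one]; gcongr
        _ ≤ Real.exp (C / n) := Real.add_one_le_exp _
    calc ‖ρ n‖ ^ k ≤ (Real.exp (C / n)) ^ k := by gcongr
      _ = Real.exp (k * (C / n)) := by rw [← Real.exp_nat_mul]
      _ ≤ Real.exp C := by
        apply Real.exp_le_exp.2
        have : (k : ℝ) ≤ n := by exact_mod_cast hk
        calc (k : ℝ) * (C / n) ≤ n * (C / n) := by gcongr
          _ = C := by field_simp
  -- third claim
  set C3 : ℝ := |cb + cs| + 4 * Real.exp 20 with hC3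
  have hu : Tendsto (fun n : ℕ => EE (x n) (n - 1) * ρ n ^ n - x n * ρ n) atTop (𝓝 0) := by
    rw [tendsto_zero_iff_norm_tendsto_zero]
    have h0 : Tendsto (fun n : ℕ => |th n| * (8 * Real.exp 8) + B * ((C3 * t ^ 2 * |th n| +
        2 * |th n| + t ^ 2 * |cs - s1 (n - 1)|) + |th n| * Real.exp 16)) atTop (𝓝 0) := by
      have hs : Tendsto (fun n : ℕ => |cs - s1 (n - 1)|) atTop (𝓝 0) := by
        have h1 : Tendsto (fun n : ℕ => s1 (n - 1)) atTop (𝓝 cs) :=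
          s1_tendsto.comp (tendsto_sub_atTop_nat 1)
        have h2 := (tendsto_const_nhds (x := cs)).sub h1
        have h3 := h2.abs
        simpa using h3
      have h1 := absth0.mul_const (8 * Real.exp 8)
      have h2 := absth0.const_mul (C3 * t ^ 2)
      have h3 := absth0.const_mul 2
      have h4 := hs.const_mul (t ^ 2)
      have h5 := absth0.mul_const (Real.exp 16)
      have h6 := h1.add ((((h2.add h3).add h4).add h5).const_mul B)
      simpa using h6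
    refine tendsto_of_tendsto_of_tendsto_of_le_of_le' tendsto_const_nhds h0
      (Eventually.of_forall fun n => norm_nonneg _) ?_
    filter_upwards [hev] with n hn
    obtain ⟨hn1, hn2⟩ := hn
    obtain ⟨m, rfl⟩ : ∃ m, n = m + 1 := ⟨n - 1, by omega⟩
    have em : m + 1 - 1 = m := by omega
    rw [em]
    set δ := 1 - x (m + 1) with hδ
    have hδ1 : ‖δ‖ ≤ |th (m + 1)| := hδle _
    have hδ2 : ‖δ‖ ≤ 1 := by linarith
    have hδ0 := norm_nonneg δ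
    have hρ1 : ‖ρ (m + 1) - 1‖ ≤ ‖δ‖ := by
      have : ρ (m + 1) - 1 = (ca : ℂ) * δ + (cb : ℂ) * δ ^ 2 := by
        simp only [hρ]; ring
      rw [this]
      obtain ⟨ha0, ha1⟩ := ca_bd
      obtain ⟨hb0, hb1⟩ := cb_bd
      calc _ ≤ ‖(ca : ℂ) * δ‖ + ‖(cb : ℂ) * δ ^ 2‖ := norm_add_le _ _
        _ = ca * ‖δ‖ + cb * ‖δ‖ ^ 2 := by
          rw [norm_mul, norm_mul, norm_pow, Complex.norm_real, Complex.norm_real,
            Real.norm_of_nonneg ha0, Real.norm_of_nonneg hb0]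
        _ ≤ 1 / 2 * ‖δ‖ + 1 / 2 * ‖δ‖ := by
          gcongr
          calc ‖δ‖ ^ 2 = ‖δ‖ * ‖δ‖ := by ring
            _ ≤ 1 * ‖δ‖ := by gcongr
            _ = ‖δ‖ := one_mul _
        _ = ‖δ‖ := by ring
    have hρ2 : ‖ρ (m + 1)‖ ≤ 2 := by
      calc ‖ρ (m + 1)‖ = ‖(ρ (m + 1) - 1) + 1‖ := by ring_nf
        _ ≤ ‖ρ (m + 1) - 1‖ + ‖(1 : ℂ)‖ := norm_add_le _ _
        _ ≤ 2 := by rw [norm_one]; linarith
    have hmain := main_ineq (x (m + 1)) (hxn _) hδ2 (ρ (m + 1)) hρ2 (EE_bound _ (hxn _)) B m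
      (hρB (m + 1) hn1 hn2)
    refine hmain.trans ?_
    have hT := T_bound (x (m + 1)) (ρ (m + 1)) (hxn _) hδ2 rfl hρ2 hρ1 m
    rw [← hδ] at hT
    have hB0 : 0 ≤ B := (Real.exp_pos _).le
    have hC30 : 0 ≤ C3 := by positivity
    have hmT : (m : ℝ) * ‖∑ i ∈ range (m + 2), g (x (m + 1)) i * ρ (m + 1) ^ i‖ ≤
        C3 * t ^ 2 * |th (m + 1)| + 2 * |th (m + 1)| + t ^ 2 * |cs - s1 m| := by
      have hmn : (m : ℝ) ≤ ((m + 1 : ℕ) : ℝ) := by push_cast; linarith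
      have hm0 : (0 : ℝ) ≤ m := Nat.cast_nonneg m
      have e2 := hnth (m + 1) hn1
      have k1 : (m : ℝ) * (C3 * ‖δ‖ ^ 3) ≤ C3 * t ^ 2 * |th (m + 1)| := by
        calc (m : ℝ) * (C3 * ‖δ‖ ^ 3) ≤ ((m + 1 : ℕ) : ℝ) * (C3 * |th (m + 1)| ^ 3) := by gcongr
          _ = C3 * (((m + 1 : ℕ) : ℝ) * (th (m + 1)) ^ 2) * |th (m + 1)| := by
            have : |th (m + 1)| ^ 3 = (th (m + 1)) ^ 2 * |th (m + 1)| := by
              rw [← sq_abs (th (m + 1))]; ring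
            rw [this]; ring
          _ = _ := by rw [e2]
      have k2 : (m : ℝ) * (‖δ‖ * |ce - 2 - s0 m|) ≤ 2 * |th (m + 1)| := by
        have h1 := s0_bound m
        have h2 : (m : ℝ) * |ce - 2 - s0 m| ≤ 2 := by
          calc (m : ℝ) * |ce - 2 - s0 m| ≤ m * (2 / ((m : ℝ) + 2)) := by gcongr
            _ ≤ 2 := by
              rw [mul_div_assoc', div_le_iff₀ (by positivity)]; linarith
        calc (m : ℝ) * (‖δ‖ * |ce - 2 - s0 m|) = (m * |ce - 2 - s0 m|) * ‖δ‖ := by ring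
          _ ≤ 2 * |th (m + 1)| := by gcongr
      have k3 : (m : ℝ) * (‖δ‖ ^ 2 * |cs - s1 m|) ≤ t ^ 2 * |cs - s1 m| := by
        calc (m : ℝ) * (‖δ‖ ^ 2 * |cs - s1 m|) ≤
            ((m + 1 : ℕ) : ℝ) * (|th (m + 1)| ^ 2 * |cs - s1 m|) := by gcongr
          _ = (((m + 1 : ℕ) : ℝ) * (th (m + 1)) ^ 2) * |cs - s1 m| := by
            rw [sq_abs]; ring
          _ = _ := by rw [e2]
      calc _ ≤ (m : ℝ) * (C3 * ‖δ‖ ^ 3 + ‖δ‖ * |ce - 2 - s0 m| + ‖δ‖ ^ 2 * |cs - s1 m|) := by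
            gcongr
        _ = (m : ℝ) * (C3 * ‖δ‖ ^ 3) + (m : ℝ) * (‖δ‖ * |ce - 2 - s0 m|) +
            (m : ℝ) * (‖δ‖ ^ 2 * |cs - s1 m|) := by ring
        _ ≤ _ := by gcongr
    rw [← hδ]
    gcongr
  -- conclusion
  have hx1 : Tendsto x atTop (𝓝 1) := by
    have h1 : Tendsto (fun n => ‖1 - x n‖) atTop (𝓝 0) :=
      squeeze_zero (fun n => norm_nonneg _) hδle absth0
    have h2 : Tendsto (fun n => 1 - x n) atTop (𝓝 0) := tendsto_zero_iff_norm_tendsto_zero.2 h1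
    have h3 := (tendsto_const_nhds (x := (1 : ℂ))).sub h2
    simpa using h3
  have hρt : Tendsto ρ atTop (𝓝 1) := by
    have h1 := (tendsto_const_nhds (x := (1 : ℂ))).sub hx1
    have h2 := ((tendsto_const_nhds (x := (1 : ℂ))).add (h1.const_mul (ca : ℂ))).add
      ((h1.pow 2).const_mul (cb : ℂ))
    simpa using h2
  have hu1 : Tendsto (fun n : ℕ => EE (x n) (n - 1) * ρ n ^ n) atTop (𝓝 1) := by
    have := hu.add (hx1.mul hρt)
    simpa using this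
  have hfin := hu1.div hA' (Complex.exp_ne_zero _)
  rw [one_div, ← Complex.exp_neg] at hfin
  refine hfin.congr' ?_
  filter_upwards [hev] with n hn
  obtain ⟨hn1, hn2⟩ := hn
  have hρne : ρ n ≠ 0 := by
    intro h
    have h1 : ‖(1 : ℂ) - x n‖ ≤ 1 / 2 := (hδle n).trans hn2
    have h2 : (1 : ℂ) = -((ca : ℂ) * (1 - x n) + (cb : ℂ) * (1 - x n) ^ 2) := by
      have : 1 + (ca : ℂ) * (1 - x n) + (cb : ℂ) * (1 - x n) ^ 2 = 0 := h
      linear_combination this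
    have h3 : ‖(1 : ℂ)‖ ≤ 1 / 2 := by
      rw [h2, norm_neg]
      obtain ⟨ha0, ha1⟩ := ca_bd
      obtain ⟨hb0, hb1⟩ := cb_bd
      calc _ ≤ ‖(ca : ℂ) * (1 - x n)‖ + ‖(cb : ℂ) * (1 - x n) ^ 2‖ := norm_add_le _ _
        _ = ca * ‖1 - x n‖ + cb * ‖1 - x n‖ ^ 2 := by
          rw [norm_mul, norm_mul, norm_pow, Complex.norm_real, Complex.norm_real,
            Real.norm_of_nonneg ha0, Real.norm_of_nonneg hb0]
        _ ≤ 1 / 2 * (1 / 2) + 1 / 2 * (1 / 2) ^ 2 := by gcongr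
        _ ≤ 1 / 2 := by norm_num
    rw [norm_one] at h3
    norm_num at h3
  have hE : Complex.exp (-((n : ℂ) * ((ca : ℂ) * (Complex.I * ((th n : ℝ) : ℂ))))) =
      (E2 n ^ n)⁻¹ := by
    simp only [hE2, hy]
    rw [Complex.exp_neg, ← Complex.exp_nat_mul]
  have hE2ne : E2 n ≠ 0 := Complex.exp_ne_zero _
  show EE (x n) (n - 1) * ρ n ^ n / (ρ n * E2 n) ^ n = EE (x n) (n - 1) * Complex.exp _
  rw [hE, mul_pow]
  have h1 : ρ n ^ n ≠ 0 := pow_ne_zero _ hρne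
  have h2 : E2 n ^ n ≠ 0 := pow_ne_zero _ hE2ne
  field_simp

end Pool.Agent.Helper101.Stack
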