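import Mathlib
import Pool.Agent.Helper101.StackJ

set_option autoImplicit false

namespace Pool.Agent.Helper101.Stack

open Finset Filter Topology MeasureTheory ProbabilityTheory

/-- the normalised statistic -/
noncomputable def Y (n : ℕ) (σ : List ℕ) : ℝ := ((des (srt σ) : ℝ) + 1 - ca * n) / √(n : ℝ)

theorem card_W (m : ℕ) : (W (Finset.range m)).card = m.factorial := by
  unfold W
  rw [List.toFinset_card_of_nodup (List.nodup_permutations _ (Finset.nodup_toList _)),
    List.length_permutations, Finset.length_toList, Finset.card_range]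

/-- the law of `Y n` -/
noncomputable def mu (n : ℕ) : Measure ℝ :=
  ((n - 1).factorial : ENNReal)⁻¹ • ∑ σ ∈ W (Finset.range (n - 1)), Measure.dirac (Y n σ)

instance (n : ℕ) : IsProbabilityMeasure (mu n) := by
  constructor
  unfold mu
  rw [Measure.smul_apply, Measure.finsetSum_apply]
  simp only [measure_univ, Finset.sum_const, smul_eq_mul, nsmul_eq_mul, mul_one]
  rw [card_W]
  apply ENNReal.inv_mul_cancel
  · exact_mod_cast Nat.factorial_ne_zero _
  · exact ENNReal.natCast_ne_top _

theorem charFun_mu (n : ℕ) (t : ℝ) : charFun (mu n) t =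
    EE (Complex.exp (Complex.I * ((t / √(n : ℝ) : ℝ) : ℂ))) (n - 1) *
      Complex.exp (-((n : ℂ) * ((ca : ℂ) * (Complex.I * ((t / √(n : ℝ) : ℝ) : ℂ))))) := by
  rw [charFun_apply_real]
  unfold mu
  rw [integral_smul_measure, integral_finsetSum_measure (fun i _ => integrable_dirac (by simp))]
  simp only [integral_dirac]
  unfold EE P
  rw [ENNReal.toReal_inv, ENNReal.toReal_natCast]
  rw [Finset.mul_sum, Finset.sum_div, Finset.sum_mul, Finset.smul_sum]
  refine Finset.sum_congr rfl fun σ _ => ?_
  have h1 : (t : ℂ) * ((Y n σ : ℝ) : ℂ) * Complex.I =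
      ((des (srt σ) + 1 : ℕ) : ℂ) * (Complex.I * ((t / √(n : ℝ) : ℝ) : ℂ)) +
      (-((n : ℂ) * ((ca : ℂ) * (Complex.I * ((t / √(n : ℝ) : ℝ) : ℂ))))) := by
    unfold Y
    push_cast
    ring
  rw [h1, Complex.exp_add, Complex.exp_nat_mul, pow_succ]
  rw [Complex.real_smul]
  push_cast
  ring

theorem cv_pos : 0 < cv := by
  have h1 := ce_lt
  have h2 := lt_ce
  unfold cv
  nlinarith

noncomputable def muP (n : ℕ) : ProbabilityMeasure ℝ := ⟨mu n, inferInstance⟩

noncomputable def gP : ProbabilityMeasure ℝ := ⟨gaussianReal 0 (Real.toNNReal cv), inferInstance⟩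

theorem muP_coe (n : ℕ) : ((muP n : ProbabilityMeasure ℝ) : Measure ℝ) = mu n := rfl

theorem gP_coe : ((gP : ProbabilityMeasure ℝ) : Measure ℝ) = gaussianReal 0 (Real.toNNReal cv) := rfl

theorem mu_tendsto : Tendsto muP atTop (𝓝 gP) := by
  apply ProbabilityMeasure.tendsto_of_tendsto_charFun
  intro t
  have h := cf_tendsto t
  rw [gP_coe, charFun_gaussianReal]
  have e : Complex.exp ((t : ℂ) * ((0 : ℝ) : ℂ) * Complex.I - ((Real.toNNReal cv : ℝ) : ℂ) *
      (t : ℂ) ^ 2 / 2) = Complex.exp (-((cv * t ^ 2 / 2 : ℝ) : ℂ)) := by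
    rw [Real.coe_toNNReal _ cv_pos.le]
    congr 1; push_cast; ring
  rw [e]
  refine h.congr fun n => ?_
  rw [muP_coe, charFun_mu]

theorem cdf_tendsto (x : ℝ) : Tendsto (fun n => (mu n).real (Set.Iic x)) atTop
    (𝓝 (cdf (gaussianReal 0 (Real.toNNReal cv)) x)) := by
  rw [cdf_eq_real]
  have hv : Real.toNNReal cv ≠ 0 := by
    intro h
    rw [Real.toNNReal_eq_zero] at h
    exact absurd cv_pos (not_lt.2 h)
  have inst : NullSingletonClass (gaussianReal 0 (Real.toNNReal cv)) :=
    nullSingletonClass_gaussianReal hv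
  have h0 : (gaussianReal 0 (Real.toNNReal cv)) (frontier (Set.Iic x)) = 0 := by
    rw [frontier_Iic]
    exact measure_singleton x
  have h := ProbabilityMeasure.tendsto_measure_of_null_frontier_of_tendsto' mu_tendsto
    (E := Set.Iic x) h0
  rw [gP_coe] at h
  have h2 := (ENNReal.tendsto_toReal (measure_ne_top (gaussianReal 0 (Real.toNNReal cv))
    (Set.Iic x))).comp h
  exact h2

theorem W_range (m : ℕ) : W (Finset.range m) = (List.range m).permutations.toFinset := by
  ext l
  rw [mem_W, List.mem_toFinset, List.mem_permutations]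
  constructor
  · rintro ⟨h1, h2⟩
    rw [List.perm_ext_iff_of_nodup h1 List.nodup_range]
    intro a; rw [h2]; simp
  · intro h
    refine ⟨h.nodup_iff.2 List.nodup_range, fun a => ?_⟩
    rw [h.mem_iff]; simp

theorem mu_Iic (n : ℕ) (x : ℝ) (p : List ℕ → Bool) (hp : ∀ σ, p σ = true ↔ Y n σ ≤ x) :
    (mu n).real (Set.Iic x) =
      (((List.range (n - 1)).permutations.countP p : ℕ) : ℝ) / ((n - 1).factorial : ℝ) := by
  unfold mu Measure.real
  rw [Measure.smul_apply, Measure.finsetSum_apply]
  have h1 : ∑ σ ∈ W (Finset.range (n - 1)), (Measure.dirac (Y n σ)) (Set.Iic x) =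
      (((List.range (n - 1)).permutations.countP p : ℕ) : ENNReal) := by
    have h2 : ∀ σ ∈ W (Finset.range (n - 1)), (Measure.dirac (Y n σ)) (Set.Iic x) =
        if p σ = true then 1 else 0 := by
      intro σ _
      rw [Measure.dirac_apply' _ measurableSet_Iic, Set.indicator_apply]
      simp only [Set.mem_Iic, Pi.one_apply, hp]
    rw [Finset.sum_congr rfl h2, Finset.sum_boole, W_range]
    rw [List.countP_eq_length_filter, ← List.toFinset_card_of_nodup]
    · rw [List.toFinset_filter]
    · exact (List.nodup_permutations _ List.nodup_range).filter _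
  rw [h1, smul_eq_mul, ENNReal.toReal_mul, ENNReal.toReal_inv, ENNReal.toReal_natCast,
    ENNReal.toReal_natCast]
  field_simp

end Pool.Agent.Helper101.Stack
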