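import Mathlib

set_option autoImplicit false
set_option linter.unusedSectionVars false

namespace Pool.Agent.Helper101.Wr

open Finset

variable {V E : Type*} [DecidableEq V] [DecidableEq E]

/-- `c` is a proper colouring of the multigraph edges in `S`. -/
def Proper {k : ℕ} (ends : E → Sym2 V) (S : Finset E) (c : E → Fin k) : Prop :=
  ∀ e ∈ S, ∀ f ∈ S, e ≠ f → ∀ v, v ∈ ends e → v ∈ ends f → c e ≠ c f

/-- colour `a` is missing at `v`. -/
def Miss {k : ℕ} (ends : E → Sym2 V) (S : Finset E) (c : E → Fin k) (v : V) (a : Fin k) : Prop :=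
  ∀ e ∈ S, v ∈ ends e → c e ≠ a

/-- fan path from `z 0` of length `n` around centre `x`. -/
def FPath {k : ℕ} (ends : E → Sym2 V) (S : Finset E) (c : E → Fin k) (x : V) (z : ℕ → V)
    (n : ℕ) : Prop :=
  ∀ i < n, ∃ g ∈ S, ends g = s(x, z (i + 1)) ∧ Miss ends S c (z i) (c g)

lemma shift {k : ℕ} (ends : E → Sym2 V) (x : V) : ∀ (n : ℕ) (S : Finset E) (c : E → Fin k)
    (e0 : E) (y : V) (z : ℕ → V) (γ : Fin k),
    (∀ e ∈ S, ¬ (ends e).IsDiag) → e0 ∉ S → ends e0 = s(x, y) → x ≠ y → Proper ends S c →
    z 0 = y → FPath ends S c x z n → Miss ends S c x γ → Miss ends S c (z n) γ →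
    ∃ c' : E → Fin k, Proper ends (insert e0 S) c' := by
  intro n
  induction n using Nat.strong_induction_on with
  | _ n ih =>
  intro S c e0 y z γ hdiag he0 hxy hne hp hz0 hpath hmx hmz
  by_cases hn : n = 0
  · subst hn
    rw [hz0] at hmz
    refine ⟨Function.update c e0 γ, ?_⟩
    have key : ∀ f ∈ S, ∀ v, v ∈ ends e0 → v ∈ ends f → c f ≠ γ := by
      intro f hf v hv hvf
      rw [hxy, Sym2.mem_iff] at hv
      rcases hv with rfl | rfl
      · exact hmx f hf hvf
      · exact hmz f hf hvf
    intro e he f hf hef v hve hvf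
    rw [mem_insert] at he hf
    rcases he with rfl | he
    · rcases hf with rfl | hf
      · exact absurd rfl hef
      · rw [Function.update_self, Function.update_of_ne (Ne.symm hef)]
        exact (key f hf v hve hvf).symm
    · have hee : e ≠ e0 := fun h => he0 (h ▸ he)
      rcases hf with rfl | hf
      · rw [Function.update_self, Function.update_of_ne hee]
        exact key e he v hvf hve
      · have hfe : f ≠ e0 := fun h => he0 (h ▸ hf)
        rw [Function.update_of_ne hee, Function.update_of_ne hfe]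
        exact hp e he f hf hef v hve hvf
  · -- positive length
    by_cases hy : ∃ i, 1 ≤ i ∧ i ≤ n ∧ z i = y
    · obtain ⟨i, hi1, hin, hzi⟩ := hy
      refine ih (n - i) (by omega) S c e0 y (fun j => z (i + j)) γ hdiag he0 hxy hne hp
        (by simpa using hzi) ?_ hmx ?_
      · intro j hj
        obtain ⟨g, hg, hg2, hg3⟩ := hpath (i + j) (by omega)
        exact ⟨g, hg, by simpa [add_assoc] using hg2, hg3⟩
      · have : i + (n - i) = n := by omega
        simpa [this] using hmz
    · push Not at hy
      obtain ⟨g, hg, hgx, hgm⟩ := hpath 0 (by omega)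
      rw [zero_add] at hgx
      rw [hz0] at hgm
      have hge : g ≠ e0 := fun h => he0 (h ▸ hg)
      -- last index with z m = z 1
      classical
      set m := Nat.findGreatest (fun m => 1 ≤ m ∧ z m = z 1) n with hm
      have hm1 : 1 ≤ m ∧ z m = z 1 :=
        Nat.findGreatest_spec (P := fun m => 1 ≤ m ∧ z m = z 1) (m := 1) (by omega)
          ⟨le_refl _, rfl⟩
      have hmn : m ≤ n := Nat.findGreatest_le n
      have hmax : ∀ j, m < j → j ≤ n → z j ≠ z 1 := by
        intro j hj hjn h
        exact Nat.findGreatest_is_greatest hj hjn ⟨by omega, h⟩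
      have hxz : ∀ j, 1 ≤ j → j ≤ n → z j ≠ x := by
        intro j hj hjn h
        obtain ⟨g', hg', hg2', -⟩ := hpath (j - 1) (by omega)
        have : j - 1 + 1 = j := by omega
        rw [this, h] at hg2'
        exact hdiag g' hg' (by rw [hg2']; exact Sym2.mk_isDiag_iff.mpr rfl)
      set S' := insert e0 (S.erase g) with hS'
      set c' := Function.update c e0 (c g) with hc'
      have hgS' : g ∉ S' := by
        simp [hS', hge]
      have hins : insert g S' = insert e0 S := by
        rw [hS', Finset.insert_comm, Finset.insert_erase hg]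
      have hdiag' : ∀ e ∈ S', ¬ (ends e).IsDiag := by
        intro e he
        rw [hS', mem_insert] at he
        rcases he with rfl | he
        · rw [hxy]; exact fun h => hne (Sym2.mk_isDiag_iff.mp h)
        · exact hdiag e (mem_of_mem_erase he)
      have hc'S : ∀ e ∈ S, c' e = c e := by
        intro e he
        have hee : e ≠ e0 := fun h => he0 (h ▸ he)
        rw [hc', Function.update_of_ne hee]
      have hc'0 : c' e0 = c g := by rw [hc', Function.update_self]
      have key : ∀ f ∈ S.erase g, ∀ v, v ∈ ends e0 → v ∈ ends f → c f ≠ c g := by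
        intro f hf v hv hvf
        rw [hxy, Sym2.mem_iff] at hv
        rcases hv with rfl | rfl
        · exact hp f (mem_of_mem_erase hf) g hg (ne_of_mem_erase hf) v hvf
            (by rw [hgx]; exact Sym2.mem_mk_left _ _)
        · exact hgm f (mem_of_mem_erase hf) hvf
      have hp' : Proper ends S' c' := by
        intro e he f hf hef v hve hvf
        rw [hS', mem_insert] at he hf
        rcases he with rfl | he
        · rcases hf with rfl | hf
          · exact absurd rfl hef
          · rw [hc'0, hc'S f (mem_of_mem_erase hf)]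
            exact (key f hf v hve hvf).symm
        · rcases hf with rfl | hf
          · rw [hc'0, hc'S e (mem_of_mem_erase he)]
            exact key e he v hvf hve
          · rw [hc'S e (mem_of_mem_erase he), hc'S f (mem_of_mem_erase hf)]
            exact hp e (mem_of_mem_erase he) f (mem_of_mem_erase hf) hef v hve hvf
      have hmiss : ∀ j, 1 ≤ j → j ≤ n → ∀ δ, Miss ends S c (z j) δ → Miss ends S' c' (z j) δ := by
        intro j hj hjn δ hδ e he hve
        rw [hS', mem_insert] at he
        rcases he with rfl | he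
        · rw [hxy, Sym2.mem_iff] at hve
          rcases hve with h | h
          · exact absurd h (hxz j hj hjn)
          · exact absurd h (hy j hj hjn)
        · rw [hc'S e (mem_of_mem_erase he)]
          exact hδ e (mem_of_mem_erase he) hve
      have res := ih (n - m) (by omega) S' c' g (z 1) (fun j => z (m + j)) γ hdiag' hgS' hgx
        (Ne.symm (hxz 1 (le_refl _) (by omega))) hp' (by simpa using hm1.2) ?_ ?_ ?_
      · rw [hins] at res
        exact res
      · intro j hj
        obtain ⟨g', hg', hg2', hg3'⟩ := hpath (m + j) (by omega)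
        have hne' : g' ≠ g := by
          intro h
          rw [h, hgx] at hg2'
          have := Sym2.congr_right.mp hg2'
          exact hmax (m + j + 1) (by omega) (by omega) this.symm
        have hmem : g' ∈ S' := by
          rw [hS']
          exact mem_insert_of_mem (mem_erase.mpr ⟨hne', hg'⟩)
        refine ⟨g', hmem, by simpa [add_assoc] using hg2', ?_⟩
        rw [hc'S g' hg']
        exact hmiss (m + j) (by omega) (by omega) _ hg3'
      · intro e he hve
        rw [hS', mem_insert] at he
        rcases he with rfl | he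
        · rw [hc'0]
          exact hmx g hg (by rw [hgx]; exact Sym2.mem_mk_left _ _)
        · rw [hc'S e (mem_of_mem_erase he)]
          exact hmx e (mem_of_mem_erase he) hve
      · have h1 : m + (n - m) = n := by omega
        simp only [h1]
        exact hmiss n (by omega) (le_refl _) _ hmz

/-! ### Kempe chains -/

/-- neighbour along colour `a`. -/
def Nb {k : ℕ} (ends : E → Sym2 V) (S : Finset E) (c : E → Fin k) (a : Fin k) (v w : V) : Prop :=
  ∃ e ∈ S, ends e = s(v, w) ∧ c e = a

lemma Nb.symm {k : ℕ} {ends : E → Sym2 V} {S : Finset E} {c : E → Fin k} {a : Fin k} {v w : V}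
    (h : Nb ends S c a v w) : Nb ends S c a w v := by
  obtain ⟨e, he, h1, h2⟩ := h
  exact ⟨e, he, by rw [h1, Sym2.eq_swap], h2⟩

lemma Nb.unique {k : ℕ} {ends : E → Sym2 V} {S : Finset E} {c : E → Fin k} {a : Fin k}
    {v w w' : V} (hp : Proper ends S c)
    (h : Nb ends S c a v w) (h' : Nb ends S c a v w') : w = w' := by
  obtain ⟨e, he, h1, h2⟩ := h
  obtain ⟨e', he', h1', h2'⟩ := h'
  by_cases hee : e = e'
  · subst hee
    rw [h1] at h1'
    exact Sym2.congr_right.mp h1'
  · exact absurd (h2.trans h2'.symm) (hp e he e' he' hee v (by rw [h1]; exact Sym2.mem_mk_left _ _)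
      (by rw [h1']; exact Sym2.mem_mk_left _ _))

open Classical in
/-- the involution given by colour `a`. -/
noncomputable def inv {k : ℕ} (ends : E → Sym2 V) (S : Finset E) (c : E → Fin k) (a : Fin k)
    (v : V) : V :=
  if h : ∃ w, Nb ends S c a v w then h.choose else v

lemma inv_of_nb {k : ℕ} {ends : E → Sym2 V} {S : Finset E} {c : E → Fin k} {a : Fin k}
    {v w : V} (hp : Proper ends S c) (h : Nb ends S c a v w) : inv ends S c a v = w := by
  have hex : ∃ w, Nb ends S c a v w := ⟨w, h⟩
  unfold inv
  rw [dif_pos hex]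
  exact Nb.unique hp hex.choose_spec h

lemma inv_of_miss {k : ℕ} {ends : E → Sym2 V} {S : Finset E} {c : E → Fin k} {a : Fin k}
    {v : V} (h : Miss ends S c v a) : inv ends S c a v = v := by
  unfold inv
  rw [dif_neg]
  rintro ⟨w, e, he, h1, h2⟩
  exact h e he (by rw [h1]; exact Sym2.mem_mk_left _ _) h2

lemma nb_of_not_miss {k : ℕ} {ends : E → Sym2 V} {S : Finset E} {c : E → Fin k} {a : Fin k}
    {v : V} (h : ¬ Miss ends S c v a) : ∃ w, Nb ends S c a v w := by
  unfold Miss at h
  push Not at h
  obtain ⟨e, he, hv, hc⟩ := h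
  exact ⟨Sym2.Mem.other hv, e, he, (Sym2.other_spec hv).symm, hc⟩

lemma inv_invol {k : ℕ} {ends : E → Sym2 V} {S : Finset E} {c : E → Fin k} (a : Fin k)
    (hp : Proper ends S c) : Function.Involutive (inv ends S c a) := by
  intro v
  by_cases h : Miss ends S c v a
  · rw [inv_of_miss h, inv_of_miss h]
  · obtain ⟨w, hw⟩ := nb_of_not_miss h
    rw [inv_of_nb hp hw, inv_of_nb hp hw.symm]

/-- the rotation in the dihedral group. -/
noncomputable def rot {k : ℕ} (ends : E → Sym2 V) (S : Finset E) (c : E → Fin k) (a b : Fin k)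
    (hp : Proper ends S c) : Equiv.Perm V :=
  (inv_invol a hp).toPerm * (inv_invol b hp).toPerm

lemma dihedral {f g : Equiv.Perm V} (hf : f * f = 1) (hg : g * g = 1) (i : ℤ) :
    f * (f * g) ^ i = (f * g) ^ (-i) * f := by
  have h1 : f * (f * g) * f⁻¹ = (f * g)⁻¹ := by
    have hf' : f⁻¹ = f := inv_eq_of_mul_eq_one_right hf
    have hg' : g⁻¹ = g := inv_eq_of_mul_eq_one_right hg
    rw [mul_inv_rev, hf', hg', ← mul_assoc, hf, one_mul]
  have h2 : f * (f * g) ^ i * f⁻¹ = (f * g) ^ (-i) := by
    rw [← conj_zpow, h1, inv_zpow, zpow_neg]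
  rw [← h2, inv_mul_cancel_right]

/-- Two `f`-fixed points in the orbit of a `g`-fixed point coincide. -/
lemma fixed_unique {f g : Equiv.Perm V} (hf : f * f = 1) (hg : g * g = 1) (v u w : V)
    (hv : g v = v) (hu : (f * g).SameCycle v u) (hw : (f * g).SameCycle v w) (hfu : f u = u)
    (hfw : f w = w) : u = w := by
  obtain ⟨i, hi⟩ := hu
  obtain ⟨j, hj⟩ := hw
  set s := f * g with hs
  have hfv : f v = s v := by rw [hs, Equiv.Perm.mul_apply, hv]
  have fix : ∀ (i : ℤ) (u : V), (s ^ i) v = u → f u = u → (s ^ (2 * i - 1)) v = v := by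
    intro i u hi hfu
    have h1 : f u = (s ^ (-i)) (s v) := by
      rw [← hi, ← hfv, ← Equiv.Perm.mul_apply, dihedral hf hg, Equiv.Perm.mul_apply]
    rw [hfu, ← hi] at h1
    have h2 : (s ^ (i - 1)) ((s ^ i) v) = (s ^ (i - 1)) ((s ^ (-i)) (s v)) := by rw [h1]
    rw [← Equiv.Perm.mul_apply, ← zpow_add, ← Equiv.Perm.mul_apply, ← zpow_add] at h2
    have e1 : i - 1 + i = 2 * i - 1 := by ring
    have e2 : i - 1 + -i = -1 := by ring
    rw [e1, e2, zpow_neg_one] at h2
    simpa using h2
  have h1 := fix i u hi hfu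
  have h2 := fix j w hj hfw
  have mulfix : ∀ (n m : ℤ), (s ^ n) v = v → (s ^ (n * m)) v = v := by
    intro n m hn
    rw [zpow_mul]
    exact Equiv.Perm.zpow_apply_eq_self_of_apply_eq_self hn m
  have h3 : (s ^ (2 * (i - j))) v = v := by
    have : 2 * (i - j) = (2 * i - 1) + (- (2 * j - 1)) := by ring
    rw [this, zpow_add, Equiv.Perm.mul_apply]
    have h2' : (s ^ (-(2 * j - 1))) v = v := by
      have := mulfix _ (-1) h2
      simpa using this
    rw [h2', h1]
  have h4 : (s ^ (i - j)) v = v := by
    have : i - j = (2 * (i - j)) * i + ((2 * i - 1) * (-(i - j))) := by ring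
    rw [this, zpow_add, Equiv.Perm.mul_apply, mulfix _ _ h1, mulfix _ _ h3]
  rw [← hi, ← hj]
  have : i = j + (i - j) := by ring
  rw [this, zpow_add, Equiv.Perm.mul_apply, h4]

/-- closure of the orbit of an `f`-fixed point. -/
lemma orbit_closed {f g : Equiv.Perm V} (hf : f * f = 1) (hg : g * g = 1) (v u : V)
    (hv : f v = v) (hu : (f * g).SameCycle v u) :
    (f * g).SameCycle v (f u) ∧ (f * g).SameCycle v (g u) := by
  obtain ⟨i, hi⟩ := hu
  have h1 : f u = ((f * g) ^ (-i)) v := by
    rw [← hi, ← Equiv.Perm.mul_apply, dihedral hf hg, Equiv.Perm.mul_apply, hv]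
  refine ⟨⟨-i, h1.symm⟩, ⟨-i - 1, ?_⟩⟩
  have h2 : g u = ((f * g)⁻¹) (f u) := by
    rw [mul_inv_rev, Equiv.Perm.mul_apply, inv_eq_of_mul_eq_one_right hg]
    simp
  rw [h2, h1, sub_eq_add_neg, add_comm, zpow_add, zpow_neg_one, Equiv.Perm.mul_apply]

lemma kempe {k : ℕ} (ends : E → Sym2 V) (S : Finset E) (c : E → Fin k) (a b : Fin k)
    (hp : Proper ends S c) (P : V → Prop)
    (hPa : ∀ v w, Nb ends S c a v w → P v → P w) (hPb : ∀ v w, Nb ends S c b v w → P v → P w) :
    ∃ c' : E → Fin k, Proper ends S c' ∧ (∀ e ∈ S, ∀ v ∈ ends e, ¬ P v → c' e = c e) ∧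
      (∀ v, P v → Miss ends S c v a → Miss ends S c' v b) ∧
      (∀ v γ, γ ≠ a → γ ≠ b → Miss ends S c v γ → Miss ends S c' v γ) := by
  classical
  set c' : E → Fin k := fun e => if ∃ v ∈ ends e, P v then Equiv.swap a b (c e) else c e with hc'
  -- closure
  have hcl : ∀ e ∈ S, c e = a ∨ c e = b → ∀ v ∈ ends e, ∀ w ∈ ends e, P v → P w := by
    intro e he hab v hv w hw hPv
    by_cases hvw : v = w
    · rwa [← hvw]
    have hends : ends e = s(v, w) := (Sym2.mem_and_mem_iff hvw).mp ⟨hv, hw⟩
    rcases hab with h | h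
    · exact hPa v w ⟨e, he, hends, h⟩ hPv
    · exact hPb v w ⟨e, he, hends, h⟩ hPv
  have h1 : ∀ e ∈ S, ∀ v ∈ ends e, ¬ P v → c' e = c e := by
    intro e he v hv hPv
    by_cases hab : c e = a ∨ c e = b
    · have : ¬ ∃ v ∈ ends e, P v := by
        rintro ⟨w, hw, hPw⟩
        exact hPv (hcl e he hab w hw v hv hPw)
      simp only [hc', if_neg this]
    · push Not at hab
      simp only [hc']
      split_ifs
      · exact Equiv.swap_apply_of_ne_of_ne hab.1 hab.2
      · rfl
  have h2 : ∀ e ∈ S, ∀ v ∈ ends e, P v → c' e = Equiv.swap a b (c e) := by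
    intro e _ v hv hPv
    have : ∃ v ∈ ends e, P v := ⟨v, hv, hPv⟩
    simp only [hc', if_pos this]
  refine ⟨c', ?_, h1, ?_, ?_⟩
  · intro e he f hf hef v hve hvf
    by_cases hPv : P v
    · rw [h2 e he v hve hPv, h2 f hf v hvf hPv]
      exact fun h => hp e he f hf hef v hve hvf ((Equiv.swap a b).injective h)
    · rw [h1 e he v hve hPv, h1 f hf v hvf hPv]
      exact hp e he f hf hef v hve hvf
  · intro v hPv hm e he hve h
    rw [h2 e he v hve hPv] at h
    have : c e = a := by
      have := congrArg (Equiv.swap a b) h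
      rwa [Equiv.swap_apply_self, Equiv.swap_apply_right] at this
    exact hm e he hve this
  · intro v γ hγa hγb hm e he hve h
    by_cases hPv : P v
    · rw [h2 e he v hve hPv] at h
      have : c e = γ := by
        have := congrArg (Equiv.swap a b) h
        rwa [Equiv.swap_apply_self, Equiv.swap_apply_of_ne_of_ne hγa hγb] at this
      exact hm e he hve this
    · rw [h1 e he v hve hPv] at h
      exact hm e he hve h

lemma FPath.congr {k : ℕ} {ends : E → Sym2 V} {S : Finset E} {c : E → Fin k} {x : V}
    {z z' : ℕ → V} {n : ℕ} (h : FPath ends S c x z n) (hz : ∀ i ≤ n, z i = z' i) :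
    FPath ends S c x z' n := by
  intro i hi
  obtain ⟨g, hg, h1, h2⟩ := h i hi
  rw [hz (i + 1) (by omega)] at h1
  rw [hz i (by omega)] at h2
  exact ⟨g, hg, h1, h2⟩

/-- Vizing's fan lemma for multigraphs. -/
theorem fan_lemma [Fintype V] {k : ℕ} (ends : E → Sym2 V) (S : Finset E)
    (hdiag : ∀ e ∈ S, ¬ (ends e).IsDiag) (e0 : E) (he0 : e0 ∉ S) (x y : V)
    (hxy : ends e0 = s(x, y)) (hne : x ≠ y) (c : E → Fin k) (hp : Proper ends S c)
    (hdeg : (S.filter (fun e => x ∈ ends e)).card < k)
    (hsum : ∀ Y : Finset V, y ∈ Y → x ∉ Y →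
      ∑ z ∈ Y, ((S.filter (fun e => z ∈ ends e)).card +
        (S.filter (fun e => ends e = s(x, z))).card) < k * Y.card) :
    ∃ c' : E → Fin k, Proper ends (insert e0 S) c' := by
  classical
  by_contra hcon
  -- missing colour at x
  obtain ⟨β, hβ⟩ : ∃ β, Miss ends S c x β := by
    by_contra h
    push Not at h
    have : (univ : Finset (Fin k)) ⊆ (S.filter (fun e => x ∈ ends e)).image c := by
      intro β _
      have := h β
      unfold Miss at this
      push Not at this
      obtain ⟨e, he, hx, hc⟩ := this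
      exact mem_image.mpr ⟨e, mem_filter.mpr ⟨he, hx⟩, hc⟩
    have h2 := (card_le_card this).trans card_image_le
    rw [card_univ, Fintype.card_fin] at h2
    omega
  set Reach : V → Prop := fun z => ∃ (n : ℕ) (p : ℕ → V), p 0 = y ∧ p n = z ∧
    FPath ends S c x p n with hReach
  have H1 : ∀ z, Reach z → ∀ γ, Miss ends S c x γ → ¬ Miss ends S c z γ := by
    rintro z ⟨n, p, hp0, hpn, hpath⟩ γ hxγ hzγ
    exact hcon (shift ends x n S c e0 y p γ hdiag he0 hxy hne hp hp0 hpath hxγ (by rwa [hpn]))
  have H2 : ∀ z z', Reach z → Reach z' → z ≠ z' → ∀ α, Miss ends S c z α →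
      ¬ Miss ends S c z' α := by
    intro z z' hz hz' hzz α hα hα'
    set f : Equiv.Perm V := (inv_invol α hp).toPerm with hf
    set g : Equiv.Perm V := (inv_invol β hp).toPerm with hg
    have hff : f * f = 1 := by
      ext v
      simp only [Equiv.Perm.mul_apply, hf, Equiv.Perm.coe_one, id]
      exact inv_invol α hp v
    have hgg : g * g = 1 := by
      ext v
      simp only [Equiv.Perm.mul_apply, hg, Equiv.Perm.coe_one, id]
      exact inv_invol β hp v
    have hgx : g x = x := inv_of_miss hβ
    have hfz : f z = z := inv_of_miss hα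
    have hfz' : f z' = z' := inv_of_miss hα'
    obtain ⟨w, hw, hwα, hxw⟩ : ∃ w, Reach w ∧ Miss ends S c w α ∧ ¬ (f * g).SameCycle w x := by
      by_cases h : (f * g).SameCycle x z
      · refine ⟨z', hz', hα', fun h' => hzz ?_⟩
        exact fixed_unique hff hgg x z z' hgx h h'.symm hfz hfz'
      · exact ⟨z, hz, hα, fun h' => h h'.symm⟩
    have hfw : f w = w := inv_of_miss hwα
    obtain ⟨c', hp', hc1, hc2, hc3⟩ := kempe ends S c α β hp (fun v => (f * g).SameCycle w v)
      (by
        intro v v' hn hv
        have := (orbit_closed hff hgg w v hfw hv).1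
        have h2 : f v = v' := inv_of_nb hp hn
        rwa [h2] at this)
      (by
        intro v v' hn hv
        have := (orbit_closed hff hgg w v hfw hv).2
        have h2 : g v = v' := inv_of_nb hp hn
        rwa [h2] at this)
    obtain ⟨n, p, hp0, hpn, hpath⟩ := hw
    have hex : ∃ i, i ≤ n ∧ (f * g).SameCycle w (p i) ∧ Miss ends S c (p i) α :=
      ⟨n, le_refl _, by rw [hpn], by rwa [hpn]⟩
    set i := Nat.find hex with hi
    obtain ⟨hin, hiP, hiα⟩ := Nat.find_spec hex
    have hmin : ∀ j < i, ¬ ((f * g).SameCycle w (p j) ∧ Miss ends S c (p j) α) := by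
      intro j hj h
      exact Nat.find_min hex hj ⟨by omega, h.1, h.2⟩
    refine hcon (shift ends x i S c' e0 y p β hdiag he0 hxy hne hp' hp0 ?_ ?_ ?_)
    · intro j hj
      obtain ⟨g', hg', hg2', hg3'⟩ := hpath j (by omega)
      have hxg : x ∈ ends g' := by rw [hg2']; exact Sym2.mem_mk_left _ _
      refine ⟨g', hg', hg2', ?_⟩
      rw [hc1 g' hg' x hxg hxw]
      by_cases h1 : c g' = β
      · exact absurd h1 (hβ g' hg' hxg)
      by_cases h2 : c g' = α
      · rw [h2] at hg3' ⊢
        have hnP : ¬ (f * g).SameCycle w (p j) := fun h => hmin j hj ⟨h, hg3'⟩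
        intro e he hve
        rw [hc1 e he _ hve hnP]
        exact hg3' e he hve
      · exact hc3 _ _ h2 h1 hg3'
    · intro e he hve
      rw [hc1 e he x hve hxw]
      exact hβ e he hve
    · exact hc2 _ hiP hiα
  -- counting
  set Y : Finset V := univ.filter Reach with hY
  have hyY : y ∈ Y := mem_filter.mpr ⟨mem_univ _, 0, fun _ => y, rfl, rfl, fun i hi =>
    absurd hi (Nat.not_lt_zero _)⟩
  have hxY : x ∉ Y := by
    intro h
    obtain ⟨-, n, p, hp0, hpn, hpath⟩ := mem_filter.mp h
    rcases Nat.eq_zero_or_pos n with rfl | hn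
    · exact hne (hpn.symm.trans hp0)
    · obtain ⟨g, hg, hg2, -⟩ := hpath (n - 1) (by omega)
      have : n - 1 + 1 = n := by omega
      rw [this, hpn] at hg2
      exact hdiag g hg (by rw [hg2]; exact Sym2.mk_isDiag_iff.mpr rfl)
  have hmiss : ∀ z, k ≤ (univ.filter (fun α => Miss ends S c z α)).card +
      (S.filter (fun e => z ∈ ends e)).card := by
    intro z
    have h1 : (univ.filter (fun α => ¬ Miss ends S c z α)) ⊆
        (S.filter (fun e => z ∈ ends e)).image c := by
      intro α hα
      have := (mem_filter.mp hα).2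
      unfold Miss at this
      push Not at this
      obtain ⟨e, he, hx, hc⟩ := this
      exact mem_image.mpr ⟨e, mem_filter.mpr ⟨he, hx⟩, hc⟩
    have h2 := (card_le_card h1).trans card_image_le
    have h3 := card_filter_add_card_filter_not (s := (univ : Finset (Fin k)))
      (fun α => Miss ends S c z α)
    rw [card_univ, Fintype.card_fin] at h3
    omega
  have hle : ∑ z ∈ Y, (univ.filter (fun α => Miss ends S c z α)).card ≤
      ∑ z ∈ Y, (S.filter (fun e => ends e = s(x, z))).card := by
    rw [← card_biUnion]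
    · have hsub : Y.biUnion (fun z => univ.filter (fun α => Miss ends S c z α)) ⊆
          (Y.biUnion (fun z => S.filter (fun e => ends e = s(x, z)))).image c := by
        intro α hα
        obtain ⟨z, hzY, hz⟩ := mem_biUnion.mp hα
        have hzα := (mem_filter.mp hz).2
        have hzR := (mem_filter.mp hzY).2
        have hnx : ¬ Miss ends S c x α := fun h => H1 z hzR α h hzα
        obtain ⟨w, e, he, hends, hce⟩ := nb_of_not_miss hnx
        refine mem_image.mpr ⟨e, mem_biUnion.mpr ⟨w, ?_, mem_filter.mpr ⟨he, hends⟩⟩, hce⟩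
        refine mem_filter.mpr ⟨mem_univ _, ?_⟩
        obtain ⟨n, p, hp0, hpn, hpath⟩ := hzR
        refine ⟨n + 1, fun i => if i ≤ n then p i else w, by simp [hp0], by simp, ?_⟩
        intro i hi
        rcases Nat.lt_succ_iff_lt_or_eq.mp hi with h | h
        · obtain ⟨g, hg, h1, h2⟩ := hpath i h
          refine ⟨g, hg, ?_, ?_⟩
          · have : i + 1 ≤ n := h
            simp only [this, if_true]
            exact h1
          · have : i ≤ n := h.le
            simp only [this, if_true]
            exact h2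
        · subst h
          refine ⟨e, he, by simpa using hends, ?_⟩
          simp only [le_refl, if_true, hpn, hce]
          exact hzα
      exact ((card_le_card hsub).trans card_image_le).trans card_biUnion_le
    · intro z hz z' hz' hzz
      rw [Function.onFun, disjoint_left]
      intro α hα hα'
      exact H2 z z' (mem_filter.mp hz).2 (mem_filter.mp hz').2 hzz α (mem_filter.mp hα).2
        (mem_filter.mp hα').2
  have h1 := hsum Y hyY hxY
  have h2 : k * Y.card ≤ ∑ z ∈ Y, ((univ.filter (fun α => Miss ends S c z α)).card +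
      (S.filter (fun e => z ∈ ends e)).card) := by
    rw [mul_comm, ← smul_eq_mul, ← sum_const]
    exact sum_le_sum fun z _ => hmiss z
  rw [sum_add_distrib] at h1 h2
  omega

end Pool.Agent.Helper101.Wr
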