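import Pool.Agent.Helper101.WrA

set_option autoImplicit false
set_option linter.unusedSectionVars false

namespace Pool.Agent.Helper101.Wr

open Finset

lemma even_card_of_invol {α : Type*} [DecidableEq α] (s : Finset α) (f : α → α)
    (hmem : ∀ x ∈ s, f x ∈ s) (hinv : ∀ x ∈ s, f (f x) = x) (hne : ∀ x ∈ s, f x ≠ x) :
    Even s.card := by
  have h : ∑ x ∈ s, (1 : ZMod 2) = 0 := by
    refine Finset.sum_involution (fun x _ => f x) ?_ ?_ ?_ ?_
    · intro x _
      decide
    · intro x hx _
      exact hne x hx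
    · intro x hx
      exact hmem x hx
    · intro x hx
      exact hinv x hx
  rw [sum_const, nsmul_eq_mul, mul_one] at h
  exact (ZMod.natCast_eq_zero_iff_even).mp h

variable {O : Type*} [Fintype O] [DecidableEq O]

/-- matchings as involutions. -/
def IsM (T : SimpleGraph O) (f : Equiv.Perm O) : Prop :=
  f * f = 1 ∧ ∀ v, f v = v ∨ T.Adj v (f v)

/-- number of unmatched vertices. -/
def nf (f : Equiv.Perm O) : ℕ := (univ.filter (fun v => f v = v)).card

def IsMax (T : SimpleGraph O) (f : Equiv.Perm O) : Prop :=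
  IsM T f ∧ ∀ g, IsM T g → nf f ≤ nf g

lemma exists_max (T : SimpleGraph O) : ∃ f, IsMax T f := by
  classical
  have hne : (univ.filter (fun f : Equiv.Perm O => IsM T f)).Nonempty :=
    ⟨1, mem_filter.mpr ⟨mem_univ _, by simp, fun v => Or.inl rfl⟩⟩
  obtain ⟨f, hf, hmin⟩ := exists_min_image _ nf hne
  exact ⟨f, (mem_filter.mp hf).2, fun g hg => hmin g (mem_filter.mpr ⟨mem_univ _, hg⟩)⟩

lemma max_adj (T : SimpleGraph O) {u v : O} (h : T.Adj u v) (f : Equiv.Perm O)
    (hf : IsMax T f) : ¬ (f u = u ∧ f v = v) := by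
  rintro ⟨hu, hv⟩
  have hne : u ≠ v := h.ne
  have hinv : ∀ w, f (f w) = w := fun w => by
    have := congrArg (fun g : Equiv.Perm O => g w) hf.1.1
    simpa using this
  have hg : IsM T (f * Equiv.swap u v) := by
    constructor
    · ext w
      by_cases h1 : w = u
      · subst h1
        simp [hv, hu]
      · by_cases h2 : w = v
        · subst h2
          simp [hu, hv]
        · have h3 : f w ≠ u := fun h => h1 (by rw [← hinv w, h, hu])
          have h4 : f w ≠ v := fun h => h2 (by rw [← hinv w, h, hv])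
          simp [Equiv.swap_apply_of_ne_of_ne h1 h2, Equiv.swap_apply_of_ne_of_ne h3 h4, hinv]
    · intro w
      by_cases h1 : w = u
      · subst h1
        right
        simpa [hv] using h
      · by_cases h2 : w = v
        · subst h2
          right
          simpa [hu] using h.symm
        · simp only [Equiv.Perm.mul_apply, Equiv.swap_apply_of_ne_of_ne h1 h2]
          exact hf.1.2 w
  have := hf.2 _ hg
  unfold nf at this
  have hlt : (univ.filter (fun w => (f * Equiv.swap u v) w = w)).card <
      (univ.filter (fun w => f w = w)).card := by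
    apply card_lt_card
    rw [ssubset_iff_of_subset]
    · refine ⟨u, mem_filter.mpr ⟨mem_univ _, hu⟩, ?_⟩
      intro h'
      have := (mem_filter.mp h').2
      simp [hv] at this
      exact hne this.symm
    · intro w hw
      have hw' := (mem_filter.mp hw).2
      refine mem_filter.mpr ⟨mem_univ _, ?_⟩
      by_cases h1 : w = u
      · subst h1; exact hu
      · by_cases h2 : w = v
        · subst h2; exact hv
        · simpa [Equiv.swap_apply_of_ne_of_ne h1 h2] using hw'
  omega

/-- glue two involutions along a set closed under both. -/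
lemma glue (T : SimpleGraph O) (f h : Equiv.Perm O) (hf : IsM T f) (hh : IsM T h) (P : O → Prop)
    [DecidablePred P] (hPf : ∀ v, P v → P (f v)) (hPh : ∀ v, P v → P (h v)) :
    ∃ f' : Equiv.Perm O, IsM T f' ∧ (∀ v, P v → f' v = h v) ∧ (∀ v, ¬ P v → f' v = f v) := by
  have hfi : ∀ w, f (f w) = w := fun w => by
    have := congrArg (fun g : Equiv.Perm O => g w) hf.1
    simpa using this
  have hhi : ∀ w, h (h w) = w := fun w => by
    have := congrArg (fun g : Equiv.Perm O => g w) hh.1
    simpa using this
  have hnPf : ∀ v, ¬ P v → ¬ P (f v) := fun v hv h' => hv (by rw [← hfi v]; exact hPf _ h')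
  set F : O → O := fun v => if P v then h v else f v with hF
  have hFi : Function.Involutive F := by
    intro v
    by_cases hv : P v
    · have h1 : F v = h v := by simp [hF, hv]
      rw [h1]
      simp [hF, hPh v hv, hhi]
    · have h1 : F v = f v := by simp [hF, hv]
      rw [h1]
      simp [hF, hnPf v hv, hfi]
  refine ⟨hFi.toPerm, ⟨?_, ?_⟩, ?_, ?_⟩
  · ext v
    exact hFi v
  · intro v
    change F v = v ∨ T.Adj v (F v)
    by_cases hv : P v
    · simp only [hF, hv, if_true]
      exact hh.2 v
    · simp only [hF, hv, if_false]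
      exact hf.2 v
  · intro v hv
    change F v = h v
    simp [hF, hv]
  · intro v hv
    change F v = f v
    simp [hF, hv]

lemma nf_split (f g f' g' : Equiv.Perm O) (P : O → Prop) [DecidablePred P]
    (h1 : ∀ v, P v → f' v = g v) (h2 : ∀ v, ¬ P v → f' v = f v)
    (h3 : ∀ v, P v → g' v = f v) (h4 : ∀ v, ¬ P v → g' v = g v) :
    nf f' + nf g' = nf f + nf g := by
  have key : ∀ k : Equiv.Perm O, nf k = (univ.filter (fun v => P v ∧ k v = v)).card +
      (univ.filter (fun v => ¬ P v ∧ k v = v)).card := by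
    intro k
    unfold nf
    rw [← card_filter_add_card_filter_not (s := univ.filter (fun v => k v = v)) P, filter_filter,
      filter_filter]
    congr 2 <;> ext v <;> simp [and_comm]
  rw [key f', key g', key f, key g]
  have e1 : univ.filter (fun v => P v ∧ f' v = v) = univ.filter (fun v => P v ∧ g v = v) := by
    ext v; simp only [mem_filter, mem_univ, true_and]
    constructor
    · rintro ⟨a, b⟩; exact ⟨a, by rw [← h1 v a]; exact b⟩
    · rintro ⟨a, b⟩; exact ⟨a, by rw [h1 v a]; exact b⟩
  have e2 : univ.filter (fun v => ¬ P v ∧ f' v = v) = univ.filter (fun v => ¬ P v ∧ f v = v) := by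
    ext v; simp only [mem_filter, mem_univ, true_and]
    constructor
    · rintro ⟨a, b⟩; exact ⟨a, by rw [← h2 v a]; exact b⟩
    · rintro ⟨a, b⟩; exact ⟨a, by rw [h2 v a]; exact b⟩
  have e3 : univ.filter (fun v => P v ∧ g' v = v) = univ.filter (fun v => P v ∧ f v = v) := by
    ext v; simp only [mem_filter, mem_univ, true_and]
    constructor
    · rintro ⟨a, b⟩; exact ⟨a, by rw [← h3 v a]; exact b⟩
    · rintro ⟨a, b⟩; exact ⟨a, by rw [h3 v a]; exact b⟩
  have e4 : univ.filter (fun v => ¬ P v ∧ g' v = v) = univ.filter (fun v => ¬ P v ∧ g v = v) := by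
    ext v; simp only [mem_filter, mem_univ, true_and]
    constructor
    · rintro ⟨a, b⟩; exact ⟨a, by rw [← h4 v a]; exact b⟩
    · rintro ⟨a, b⟩; exact ⟨a, by rw [h4 v a]; exact b⟩
  rw [e1, e2, e3, e4]
  omega

lemma conj_max (T : SimpleGraph O) (g : T ≃g T) (f : Equiv.Perm O) (hf : IsMax T f) (u : O)
    (hu : f u = u) : ∃ h, IsMax T h ∧ h (g u) = g u := by
  have hfi : ∀ w, f (f w) = w := fun w => by
    have := congrArg (fun g : Equiv.Perm O => g w) hf.1.1
    simpa using this
  set h : Equiv.Perm O := (g.toEquiv.symm.trans f).trans g.toEquiv with hh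
  have hval : ∀ v, h v = g (f (g.symm v)) := fun v => rfl
  have hM : IsM T h := by
    constructor
    · ext v
      simp [hval, hfi]
    · intro v
      rw [hval]
      rcases hf.1.2 (g.symm v) with h1 | h1
      · left
        rw [h1]; simp
      · right
        have := g.map_rel_iff.mpr h1
        simpa using this
  have hnf : nf h = nf f := by
    unfold nf
    refine card_bij' (fun v _ => g.symm v) (fun v _ => g v) ?_ ?_ ?_ ?_
    · intro v hv
      have := (mem_filter.mp hv).2
      refine mem_filter.mpr ⟨mem_univ _, ?_⟩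
      rw [hval] at this
      have h2 := congrArg g.symm this
      simpa using h2
    · intro v hv
      have := (mem_filter.mp hv).2
      refine mem_filter.mpr ⟨mem_univ _, ?_⟩
      rw [hval]
      simp [this]
    · intro v _; simp
    · intro v _; simp
  refine ⟨h, ⟨hM, fun k hk => by rw [hnf]; exact hf.2 k hk⟩, ?_⟩
  rw [hval]
  simp [hu]

/-- Vertex-transitive graphs of odd degree have a perfect matching. -/
theorem perfect_matching (T : SimpleGraph O) [DecidableRel T.Adj] (a : ℕ)
    (hreg : ∀ v, T.degree v = a) (ha : Odd a) (htr : ∀ u v, ∃ g : T ≃g T, g u = v) :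
    ∃ f : O → O, (∀ v, f (f v) = v) ∧ ∀ v, T.Adj v (f v) := by
  classical
  obtain ⟨f, hf⟩ := exists_max T
  have hfi : ∀ w, f (f w) = w := fun w => by
    have := congrArg (fun g : Equiv.Perm O => g w) hf.1.1
    simpa using this
  by_cases hfix : ∃ u, f u = u
  swap
  · push Not at hfix
    exact ⟨f, hfi, fun v => (hf.1.2 v).resolve_left (hfix v)⟩
  exfalso
  obtain ⟨u, hu⟩ := hfix
  have hall : ∀ v, ∃ h, IsMax T h ∧ h v = v := by
    intro v
    obtain ⟨g, hg⟩ := htr u v
    obtain ⟨h, h1, h2⟩ := conj_max T g f hf u hu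
    exact ⟨h, h1, by rwa [hg] at h2⟩
  -- relation
  have htrans : ∀ u v w, (u = v ∨ ∀ f, IsMax T f → ¬ (f u = u ∧ f v = v)) →
      (v = w ∨ ∀ f, IsMax T f → ¬ (f v = v ∧ f w = w)) →
      (u = w ∨ ∀ f, IsMax T f → ¬ (f u = u ∧ f w = w)) := by
    intro u v w h1 h2
    rcases h1 with rfl | h1
    · exact h2
    rcases h2 with rfl | h2
    · exact Or.inr h1
    by_cases huw : u = w
    · exact Or.inl huw
    right
    rintro f hf ⟨hfu, hfw⟩
    obtain ⟨h, hh, hhv⟩ := hall v
    set P : O → Prop := fun t => (f * h).SameCycle v t with hP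
    have hcl : ∀ t, P t → P (f t) ∧ P (h t) := by
      intro t ht
      have key : (h * f).SameCycle v t := by
        have : h * f = (f * h)⁻¹ := by
          rw [mul_inv_rev, inv_eq_of_mul_eq_one_right hf.1.1, inv_eq_of_mul_eq_one_right hh.1.1]
        rw [this]
        exact Equiv.Perm.sameCycle_inv.mpr ht
      have := orbit_closed hh.1.1 hf.1.1 v t hhv key
      have e : h * f = (f * h)⁻¹ := by
        rw [mul_inv_rev, inv_eq_of_mul_eq_one_right hf.1.1, inv_eq_of_mul_eq_one_right hh.1.1]
      rw [e, Equiv.Perm.sameCycle_inv, Equiv.Perm.sameCycle_inv] at this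
      exact ⟨this.2, this.1⟩
    obtain ⟨f', hf'M, hf'1, hf'2⟩ := glue T f h hf.1 hh.1 P (fun t ht => (hcl t ht).1)
      (fun t ht => (hcl t ht).2)
    obtain ⟨g', hg'M, hg'1, hg'2⟩ := glue T h f hh.1 hf.1 P (fun t ht => (hcl t ht).2)
      (fun t ht => (hcl t ht).1)
    have hsum := nf_split f h f' g' P hf'1 hf'2 hg'1 hg'2
    have hfh : nf f = nf h := le_antisymm (hf.2 h hh.1) (hh.2 f hf.1)
    have hf'max : IsMax T f' := by
      refine ⟨hf'M, fun k hk => ?_⟩
      have a1 := hf.2 g' hg'M
      have a2 := hf.2 k hk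
      have a3 := hf.2 f' hf'M
      omega
    have hPv : P v := Equiv.Perm.SameCycle.refl _ _
    have hf'v : f' v = v := by rw [hf'1 v hPv, hhv]
    by_cases hPu : P u
    · have hPw : ¬ P w := fun hPw => huw
        (fixed_unique hf.1.1 hh.1.1 v u w hhv hPu hPw hfu hfw)
      exact h2 f' hf'max ⟨hf'v, by rw [hf'2 w hPw, hfw]⟩
    · exact h1 f' hf'max ⟨by rw [hf'2 u hPu, hfu], hf'v⟩
  have hwalk : ∀ s t, T.Walk s t → (s = t ∨ ∀ f, IsMax T f → ¬ (f s = s ∧ f t = t)) := by
    intro s t p
    induction p with
    | nil => exact Or.inl rfl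
    | cons h p ih => exact htrans _ _ _ (Or.inr fun f hf => max_adj T h f hf) ih
  set C : Finset O := univ.filter (fun v => T.Reachable u v) with hC
  have huC : u ∈ C := mem_filter.mpr ⟨mem_univ _, SimpleGraph.Reachable.refl u⟩
  have hone : ∀ v ∈ C, v ≠ u → f v ≠ v := by
    intro v hv hvu hfv
    obtain ⟨p⟩ := (mem_filter.mp hv).2
    rcases hwalk u v p with h | h
    · exact hvu h.symm
    · exact h f hf ⟨hu, hfv⟩
  have h1 : Even (C.erase u).card := by
    refine even_card_of_invol (C.erase u) f ?_ (fun v _ => hfi v) ?_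
    · intro v hv
      obtain ⟨hvu, hvC⟩ := mem_erase.mp hv
      refine mem_erase.mpr ⟨?_, ?_⟩
      · intro h
        apply hvu
        rw [← hfi v, h, hu]
      · refine mem_filter.mpr ⟨mem_univ _, ?_⟩
        have hr := (mem_filter.mp hvC).2
        rcases hf.1.2 v with h | h
        · rw [h]; exact hr
        · exact hr.trans h.reachable
    · intro v hv
      obtain ⟨hvu, hvC⟩ := mem_erase.mp hv
      exact hone v hvC hvu
  have h2 : Even (a * C.card) := by
    have hcard : (C.sigma (fun v => T.neighborFinset v)).card = a * C.card := by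
      rw [card_sigma]
      have : ∀ v ∈ C, (T.neighborFinset v).card = a := fun v _ => by
        rw [SimpleGraph.card_neighborFinset_eq_degree]; exact hreg v
      rw [sum_congr rfl this, sum_const, smul_eq_mul, mul_comm]
    rw [← hcard]
    refine even_card_of_invol _ (fun p => ⟨p.2, p.1⟩) ?_ (fun _ _ => rfl) ?_
    · rintro ⟨v, w⟩ hp
      obtain ⟨h1, h2⟩ := mem_sigma.mp hp
      simp only [SimpleGraph.mem_neighborFinset] at h2
      refine mem_sigma.mpr ⟨mem_filter.mpr ⟨mem_univ _, ?_⟩, ?_⟩
      · exact (mem_filter.mp h1).2.trans h2.reachable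
      · simpa using h2.symm
    · rintro ⟨v, w⟩ hp h
      obtain ⟨h1, h2⟩ := mem_sigma.mp hp
      simp only [SimpleGraph.mem_neighborFinset] at h2
      have : w = v := congrArg Sigma.fst h
      exact h2.ne this.symm
  have h3 : Even C.card := by
    rcases Nat.even_mul.mp h2 with h | h
    · exact absurd h (Nat.not_even_iff_odd.mpr ha)
    · exact h
  have h4 : C.card = (C.erase u).card + 1 := by
    rw [card_erase_of_mem huC]
    have : 0 < C.card := card_pos.mpr ⟨u, huC⟩
    omega
  rw [h4] at h3
  exact (Nat.even_add_one.mp h3) h1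

end Pool.Agent.Helper101.Wr
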