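import Pool.Agent.Helper101.WrB

set_option autoImplicit false
set_option linter.unusedSectionVars false

namespace Pool.Agent.Helper101.Wr

open Finset

variable {O : Type*} [Fintype O] [DecidableEq O]

/-- a regular relation splits into permutations (Koenig). -/
theorem decomp : ∀ (c : ℕ) (R : O → Finset O), (∀ u, (R u).card = c) →
    (∀ v, (univ.filter (fun u => v ∈ R u)).card = c) →
    ∃ τ : Fin c → Equiv.Perm O, (∀ u v, v ∈ R u ↔ ∃ i, τ i u = v) ∧
      (∀ u i j, τ i u = τ j u → i = j) := by
  intro c
  induction c with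
  | zero =>
    intro R hR _
    refine ⟨fun i => i.elim0, ?_, ?_⟩
    · intro u v
      have : R u = ∅ := card_eq_zero.mp (hR u)
      simp [this]
    · intro u i
      exact i.elim0
  | succ c ih =>
    intro R hR hR'
    have hall : ∀ s : Finset O, s.card ≤ (s.biUnion R).card := by
      intro s
      have h1 : (s.sigma R).card = (c + 1) * s.card := by
        rw [card_sigma, sum_congr rfl (fun u _ => hR u), sum_const, smul_eq_mul, mul_comm]
      have h2 : (s.sigma R).card ≤
          ((s.biUnion R).sigma (fun v => univ.filter (fun u => v ∈ R u))).card := by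
        refine card_le_card_of_injOn (fun p => (⟨p.2, p.1⟩ : Σ _ : O, O)) ?_ ?_
        · rintro ⟨u, v⟩ hp
          obtain ⟨hu, hv⟩ := mem_sigma.mp (mem_coe.mp hp)
          exact mem_coe.mpr (mem_sigma.mpr ⟨mem_biUnion.mpr ⟨u, hu, hv⟩,
            mem_filter.mpr ⟨mem_univ _, hv⟩⟩)
        · rintro ⟨u, v⟩ _ ⟨u', v'⟩ _ h
          simp only [Sigma.mk.injEq, heq_eq_eq] at h
          obtain ⟨rfl, rfl⟩ := h
          rfl
      have h3 : ((s.biUnion R).sigma (fun v => univ.filter (fun u => v ∈ R u))).card =
          (c + 1) * (s.biUnion R).card := by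
        rw [card_sigma, sum_congr rfl (fun u _ => hR' u), sum_const, smul_eq_mul, mul_comm]
      rw [h1, h3] at h2
      exact Nat.le_of_mul_le_mul_left h2 (Nat.succ_pos c)
    obtain ⟨f, hfi, hfm⟩ := (Finset.all_card_le_biUnion_card_iff_exists_injective R).mp hall
    have hbij : Function.Bijective f := Finite.injective_iff_bijective.mp hfi
    set σ : Equiv.Perm O := Equiv.ofBijective f hbij with hσ
    have hσm : ∀ u, σ u ∈ R u := hfm
    obtain ⟨τ, h1, h2⟩ := ih (fun u => (R u).erase (σ u))
      (fun u => by rw [card_erase_of_mem (hσm u), hR u]; rfl)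
      (fun v => by
        have : univ.filter (fun u => v ∈ (R u).erase (σ u)) =
            (univ.filter (fun u => v ∈ R u)).erase (σ.symm v) := by
          ext u
          simp only [mem_filter, mem_univ, true_and, mem_erase]
          constructor
          · rintro ⟨h, h'⟩
            exact ⟨fun h2 => h (by rw [h2]; simp), h'⟩
          · rintro ⟨h, h'⟩
            exact ⟨fun h2 => h (by rw [h2]; simp), h'⟩
        rw [this, card_erase_of_mem, hR' v]
        · rfl
        · refine mem_filter.mpr ⟨mem_univ _, ?_⟩
          have := hσm (σ.symm v)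
          simpa using this)
    refine ⟨Fin.cons σ τ, ?_, ?_⟩
    · intro u v
      constructor
      · intro hv
        by_cases h : σ u = v
        · exact ⟨0, by simpa using h⟩
        · obtain ⟨i, hi⟩ := (h1 u v).mp (mem_erase.mpr ⟨Ne.symm h, hv⟩)
          exact ⟨i.succ, by simpa using hi⟩
      · rintro ⟨i, hi⟩
        induction i using Fin.cases with
        | zero =>
          rw [← hi]
          simpa using hσm u
        | succ i =>
          have : v ∈ (R u).erase (σ u) := (h1 u v).mpr ⟨i, by simpa using hi⟩
          exact mem_of_mem_erase this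
    · intro u i j hij
      have hne : ∀ i : Fin c, τ i u ≠ σ u := fun i =>
        (mem_erase.mp ((h1 u (τ i u)).mpr ⟨i, rfl⟩)).1
      induction i using Fin.cases with
      | zero =>
        induction j using Fin.cases with
        | zero => rfl
        | succ j => exact absurd (by simpa using hij.symm) (hne j)
      | succ i =>
        induction j using Fin.cases with
        | zero => exact absurd (by simpa using hij) (hne i)
        | succ j =>
          have := h2 u i j (by simpa using hij)
          rw [this]

/-- A family of `c` fixed-point-free permutations with disjoint graphs and symmetric union. -/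
def Good (c : ℕ) (τ : Fin c → Equiv.Perm O) : Prop :=
  (∀ i u, τ i u ≠ u) ∧ (∀ u i j, τ i u = τ j u → i = j) ∧ (∀ i u, ∃ j, τ j (τ i u) = u)

lemma good_zmod (n m : ℕ) [NeZero n] (h : 2 * m < n) :
    ∃ τ : Fin (2 * m) → Equiv.Perm (ZMod n), Good (2 * m) τ := by
  have hcast : ∀ a b : ℕ, a < n → b < n → (a : ZMod n) = b → a = b := by
    intro a b ha hb hab
    have := (ZMod.natCast_eq_natCast_iff' a b n).mp hab
    rwa [Nat.mod_eq_of_lt ha, Nat.mod_eq_of_lt hb] at this
  have hzero : ∀ a : ℕ, a < n → (a : ZMod n) = 0 → a = 0 := fun a ha h0 =>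
    hcast a 0 ha (by omega) (by simpa using h0)
  set d : Fin (2 * m) → ZMod n := fun i =>
    if (i : ℕ) < m then (((i : ℕ) + 1 : ℕ) : ZMod n) else - (((i : ℕ) - m + 1 : ℕ) : ZMod n) with hd
  have hd0 : ∀ i, d i ≠ 0 := by
    intro i h0
    simp only [hd] at h0
    have hi := i.2
    split_ifs at h0 with h1
    · have := hzero _ (by omega) h0
      omega
    · have := hzero _ (by omega) (neg_eq_zero.mp h0)
      omega
  have hmix : ∀ a b : ℕ, a + b < n → (a : ZMod n) = - (b : ZMod n) → a + b = 0 := by
    intro a b hab h0
    apply hzero _ hab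
    push_cast
    rw [h0]
    ring
  have hdinj : ∀ i j, d i = d j → i = j := by
    intro i j hij
    simp only [hd] at hij
    have hi := i.2
    have hj := j.2
    apply Fin.ext
    split_ifs at hij with h1 h2 h2
    · have := hcast _ _ (by omega) (by omega) hij
      omega
    · have := hmix _ _ (by omega) hij
      omega
    · have := hmix _ _ (by omega) hij.symm
      omega
    · have := hcast _ _ (by omega) (by omega) (neg_injective hij)
      omega
  refine ⟨fun i => Equiv.addRight (d i), ?_, ?_, ?_⟩
  · intro i u h0
    simp only [Equiv.coe_addRight] at h0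
    exact hd0 i (by simpa using h0)
  · intro u i j hij
    simp only [Equiv.coe_addRight] at hij
    exact hdinj i j (by simpa using hij)
  · intro i u
    by_cases h1 : (i : ℕ) < m
    · refine ⟨⟨i + m, by omega⟩, ?_⟩
      have e1 : d i = (((i : ℕ) + 1 : ℕ) : ZMod n) := by simp [hd, h1]
      have e2 : d ⟨i + m, by omega⟩ = - (((i : ℕ) + 1 : ℕ) : ZMod n) := by
        simp [hd]
      simp only [Equiv.coe_addRight, e1, e2]
      ring
    · have hi := i.2
      refine ⟨⟨i - m, by omega⟩, ?_⟩
      have e1 : d i = - (((i : ℕ) - m + 1 : ℕ) : ZMod n) := by simp [hd, h1]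
      have e2 : d ⟨i - m, by omega⟩ = (((i : ℕ) - m + 1 : ℕ) : ZMod n) := by
        have : (i : ℕ) - m < m := by omega
        simp [hd, this]
      simp only [Equiv.coe_addRight, e1, e2]
      ring

lemma good_exists (c : ℕ) (hc : Even c) (h : c < Fintype.card O) :
    ∃ τ : Fin c → Equiv.Perm O, Good c τ := by
  obtain ⟨m, rfl⟩ := hc
  have h2 : m + m = 2 * m := by ring
  rw [h2] at h ⊢
  have : NeZero (Fintype.card O) := ⟨by omega⟩
  obtain ⟨τ, h1, h2, h3⟩ := good_zmod (Fintype.card O) m h
  have e : O ≃ ZMod (Fintype.card O) :=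
    Fintype.equivOfCardEq (by rw [ZMod.card])
  refine ⟨fun i => (e.trans (τ i)).trans e.symm, ?_, ?_, ?_⟩
  · intro i u h0
    apply h1 i (e u)
    have := congrArg e h0
    simpa using this
  · intro u i j hij
    apply h2 (e u)
    have := congrArg e hij
    simpa using this
  · intro i u
    obtain ⟨j, hj⟩ := h3 i (e u)
    refine ⟨j, ?_⟩
    simp [hj]

/-- The family used on the root orbit. -/
lemma good_root (T : SimpleGraph O) [DecidableRel T.Adj] (a : ℕ) (hreg : ∀ v, T.degree v = a)
    (htr : ∀ u v, ∃ g : T ≃g T, g u = v) (hne : Nonempty O) :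
    ∃ (c : ℕ) (τ : Fin c → Equiv.Perm O), Even c ∧ c < Fintype.card O ∧ Good c τ ∧
      ∀ u v w, T.Adj u v → T.Adj u w → (∀ i, τ i u ≠ v) → (∀ i, τ i u ≠ w) → v = w := by
  have halt : a < Fintype.card O := by
    obtain ⟨u⟩ := hne
    rw [← hreg u]
    exact T.degree_lt_card_verts u
  rcases Nat.even_or_odd a with he | ho
  · obtain ⟨τ, h1, h2⟩ := decomp a (fun u => T.neighborFinset u)
      (fun u => by rw [SimpleGraph.card_neighborFinset_eq_degree]; exact hreg u)
      (fun v => by
        have : univ.filter (fun u => v ∈ T.neighborFinset u) = T.neighborFinset v := by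
          ext u
          simp [SimpleGraph.adj_comm]
        rw [this, SimpleGraph.card_neighborFinset_eq_degree]; exact hreg v)
    have h1' : ∀ u i, T.Adj u (τ i u) := fun u i => by
      have := (h1 u (τ i u)).mpr ⟨i, rfl⟩
      simpa using this
    refine ⟨a, τ, he, halt, ⟨fun i u h => (h1' u i).ne h.symm, h2, ?_⟩, ?_⟩
    · intro i u
      apply (h1 (τ i u) u).mp
      simpa using (h1' u i).symm
    · intro u v w hv _ hnv _
      obtain ⟨i, hi⟩ := (h1 u v).mp (by simpa using hv)
      exact absurd hi (hnv i)
  · obtain ⟨f, hff, hf⟩ := perfect_matching T a hreg ho htr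
    have ha1 : 1 ≤ a := ho.pos
    obtain ⟨τ, h1, h2⟩ := decomp (a - 1) (fun u => (T.neighborFinset u).erase (f u))
      (fun u => by
        rw [card_erase_of_mem (by simpa using hf u), SimpleGraph.card_neighborFinset_eq_degree,
          hreg u])
      (fun v => by
        have : univ.filter (fun u => v ∈ (T.neighborFinset u).erase (f u)) =
            (T.neighborFinset v).erase (f v) := by
          ext u
          simp only [mem_filter, mem_univ, true_and, mem_erase, SimpleGraph.mem_neighborFinset]
          constructor
          · rintro ⟨h, h'⟩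
            exact ⟨fun h2 => h (by rw [h2, hff]), h'.symm⟩
          · rintro ⟨h, h'⟩
            exact ⟨fun h2 => h (by rw [h2, hff]), h'.symm⟩
        rw [this, card_erase_of_mem (by simpa using hf v),
          SimpleGraph.card_neighborFinset_eq_degree, hreg v])
    have h1' : ∀ u i, T.Adj u (τ i u) ∧ τ i u ≠ f u := fun u i => by
      have := (h1 u (τ i u)).mpr ⟨i, rfl⟩
      simp only [mem_erase, SimpleGraph.mem_neighborFinset] at this
      exact ⟨this.2, this.1⟩
    refine ⟨a - 1, τ, ?_, by omega, ⟨fun i u h => (h1' u i).1.ne h.symm, h2, ?_⟩, ?_⟩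
    · obtain ⟨k, hk⟩ := ho
      exact ⟨k, by omega⟩
    · intro i u
      apply (h1 (τ i u) u).mp
      simp only [mem_erase, SimpleGraph.mem_neighborFinset]
      refine ⟨fun h => (h1' u i).2 ?_, (h1' u i).1.symm⟩
      have h5 := congrArg f h
      rw [hff] at h5
      exact h5.symm
    · have key : ∀ u v, T.Adj u v → (∀ i, τ i u ≠ v) → v = f u := by
        intro u v hv hnv
        by_contra hvf
        obtain ⟨i, hi⟩ := (h1 u v).mp (by
          simp only [mem_erase, SimpleGraph.mem_neighborFinset]
          exact ⟨hvf, hv⟩)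
        exact hnv i hi
      intro u v w hv hw hnv hnw
      rw [key u v hv hnv, key u w hw hnw]

end Pool.Agent.Helper101.Wr
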