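import Pool.Agent.Helper101.WrC

set_option autoImplicit false
set_option linter.unusedSectionVars false

namespace Pool.Agent.Helper101.Wr

open Finset

variable {W : Type*} [Fintype W] [DecidableEq W]

/-- same orbit under the automorphism group. -/
def Same (A : SimpleGraph W) (u v : W) : Prop := ∃ φ : A ≃g A, φ u = v

lemma Same.refl (A : SimpleGraph W) (u : W) : Same A u u := ⟨RelIso.refl _, rfl⟩

lemma Same.symm {A : SimpleGraph W} {u v : W} (h : Same A u v) : Same A v u := by
  obtain ⟨φ, rfl⟩ := h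
  exact ⟨φ.symm, by simp⟩

lemma Same.trans {A : SimpleGraph W} {u v w : W} (h : Same A u v) (h' : Same A v w) :
    Same A u w := by
  obtain ⟨φ, rfl⟩ := h
  obtain ⟨ψ, rfl⟩ := h'
  exact ⟨φ.trans ψ, rfl⟩

open Classical in
/-- orbit -/
noncomputable def orb (A : SimpleGraph W) (u : W) : Finset W := univ.filter (fun v => Same A u v)

open Classical in
/-- neighbours -/
noncomputable def nbs (A : SimpleGraph W) (u : W) : Finset W := univ.filter (fun v => A.Adj u v)

lemma mem_orb {A : SimpleGraph W} {u v : W} : v ∈ orb A u ↔ Same A u v := by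
  simp [orb]

lemma mem_nbs {A : SimpleGraph W} {u v : W} : v ∈ nbs A u ↔ A.Adj u v := by
  simp [nbs]

/-- admissible pairs -/
def PP (A : SimpleGraph W) {Δ c : ℕ} (τ : Fin c → W → W) (t : Option (Fin Δ)) (u v : W) : Prop :=
  match t with
  | none => A.Adj u v
  | some l => Same A u v ∧ u ≠ v ∧ ¬ ((l : ℕ) = 0 ∧ ∃ i, τ i u = v)

/-- The data attached to a component. -/
structure Comp (A : SimpleGraph W) (Δ D c : ℕ) where
  r : W
  C : W → Prop
  τ : Fin c → W → W
  lev : W → ℕ
  hΔ : 1 ≤ Δ
  hCr : C r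
  hCadj : ∀ u v, C u → A.Adj u v → C v
  hCsame : ∀ u v, C u → Same A u v → C v
  hL1 : ∀ u v, Same A u v → lev u = lev v
  hL2 : ∀ u, C u → lev u ≠ 0 → ∃ w, A.Adj u w ∧ lev w < lev u
  hL3 : ∀ u, C u → lev u = 0 → Same A r u
  hτ1 : ∀ i u, C u → Same A u (τ i u) ∧ τ i u ≠ u
  hτ2 : ∀ u i j, C u → τ i u = τ j u → i = j
  hτ3 : ∀ i u, C u → ∃ j, τ j (τ i u) = u
  hτ4 : ∀ i u v, C u → C v → τ i u = τ i v → u = v
  hτ5 : ∀ u, Same A r u → ∀ v w, A.Adj u v → Same A u v → A.Adj u w → Same A u w →
    (∀ i, τ i u ≠ v) → (∀ i, τ i u ≠ w) → v = w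
  hD : ∀ u, C u → Δ * (orb A u).card + (nbs A u).card ≤ D

variable {A : SimpleGraph W} {Δ D c : ℕ}

lemma PP.symm (K : Comp A Δ D c) {t : Option (Fin Δ)} {u v : W} (hu : K.C u)
    (h : PP A K.τ t u v) : PP A K.τ t v u := by
  rcases t with _ | l
  · exact SimpleGraph.Adj.symm h
  · obtain ⟨h1, h2, h3⟩ := h
    refine ⟨h1.symm, h2.symm, ?_⟩
    rintro ⟨hl, i, hi⟩
    obtain ⟨j, hj⟩ := K.hτ3 i v (K.hCsame _ _ hu h1)
    exact h3 ⟨hl, j, by rw [← hj, hi]⟩

lemma PP.ne {K : Comp A Δ D c} {t : Option (Fin Δ)} {u v : W}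
    (h : PP A K.τ t u v) : u ≠ v := by
  rcases t with _ | l
  · exact SimpleGraph.Adj.ne h
  · exact h.2.1

lemma PP.mem {K : Comp A Δ D c} {t : Option (Fin Δ)} {u v : W} (hu : K.C u)
    (h : PP A K.τ t u v) : K.C v := by
  rcases t with _ | l
  · exact K.hCadj _ _ hu h
  · exact K.hCsame _ _ hu h.1

open Classical in
/-- edge set of the residual multigraph. -/
noncomputable def EC (K : Comp A Δ D c) : Finset (Option (Fin Δ) × Sym2 W) :=
  univ.filter (fun e => ∃ u v, e.2 = s(u, v) ∧ K.C u ∧ PP A K.τ e.1 u v)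

lemma mem_EC (K : Comp A Δ D c) {t : Option (Fin Δ)} {u v : W} :
    (t, s(u, v)) ∈ EC K ↔ K.C u ∧ PP A K.τ t u v := by
  classical
  unfold EC
  rw [mem_filter]
  constructor
  · rintro ⟨-, u', v', h1, h2, h3⟩
    simp only at h1 h3
    rcases Sym2.eq_iff.mp h1 with ⟨rfl, rfl⟩ | ⟨rfl, rfl⟩
    · exact ⟨h2, h3⟩
    · exact ⟨PP.mem h2 h3, PP.symm K h2 h3⟩
  · rintro ⟨h1, h2⟩
    exact ⟨mem_univ _, u, v, rfl, h1, h2⟩

lemma EC_diag (K : Comp A Δ D c) : ∀ e ∈ EC K, ¬ (e.2).IsDiag := by
  rintro ⟨t, s⟩ he hd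
  induction s using Sym2.ind with
  | _ u v =>
    have h := (mem_EC K).mp he
    exact (PP.ne h.2) (Sym2.mk_isDiag_iff.mp hd)

/-- degree bound -/
lemma EC_deg (K : Comp A Δ D c) (u : W) (hu : K.C u) :
    ((EC K).filter (fun e => u ∈ e.2)).card + Δ + c ≤ D := by
  classical
  -- pairs
  set X : Finset (Option (Fin Δ) × W) := univ.filter (fun p => PP A K.τ p.1 u p.2) with hX
  have h1 : ((EC K).filter (fun e => u ∈ e.2)).card ≤ X.card := by
    have : ((EC K).filter (fun e => u ∈ e.2)) ⊆ X.image (fun p => (p.1, s(u, p.2))) := by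
      rintro ⟨t, s⟩ he
      obtain ⟨he1, he2⟩ := mem_filter.mp he
      simp only at he2
      obtain ⟨v, rfl⟩ := Sym2.mem_iff_exists.mp he2
      exact mem_image.mpr ⟨(t, v), mem_filter.mpr ⟨mem_univ _, ((mem_EC K).mp he1).2⟩, rfl⟩
    exact (card_le_card this).trans card_image_le
  set zero : Fin Δ := ⟨0, K.hΔ⟩ with hzero
  set R : Finset (Option (Fin Δ) × W) := univ.image (fun i : Fin c => (some zero, K.τ i u)) with hR
  have h2 : R.card = c := by
    rw [hR, card_image_of_injective, card_univ, Fintype.card_fin]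
    intro i j hij
    simp only [Prod.mk.injEq, true_and] at hij
    exact K.hτ2 u i j hu hij
  have hdisj : Disjoint X R := by
    rw [disjoint_left]
    rintro ⟨t, v⟩ hx hr
    obtain ⟨i, -, hi⟩ := mem_image.mp hr
    simp only [Prod.mk.injEq] at hi
    obtain ⟨rfl, rfl⟩ := hi
    exact (mem_filter.mp hx).2.2.2 ⟨rfl, i, rfl⟩
  set N : Finset (Option (Fin Δ) × W) := (nbs A u).image (fun v => (none, v)) with hN
  set Q : Finset (Option (Fin Δ) × W) :=
    (univ ×ˢ (orb A u).erase u).image (fun p : Fin Δ × W => (some p.1, p.2)) with hQ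
  have h3 : X ∪ R ⊆ N ∪ Q := by
    rintro ⟨t, v⟩ hp
    rcases mem_union.mp hp with h | h
    · have h' := (mem_filter.mp h).2
      rcases t with _ | l
      · exact mem_union_left _ (mem_image.mpr ⟨v, mem_nbs.mpr h', rfl⟩)
      · exact mem_union_right _ (mem_image.mpr ⟨(l, v), mem_product.mpr ⟨mem_univ _,
          mem_erase.mpr ⟨h'.2.1.symm, mem_orb.mpr h'.1⟩⟩, rfl⟩)
    · obtain ⟨i, -, hi⟩ := mem_image.mp h
      simp only [Prod.mk.injEq] at hi
      obtain ⟨rfl, rfl⟩ := hi
      exact mem_union_right _ (mem_image.mpr ⟨(zero, K.τ i u), mem_product.mpr ⟨mem_univ _,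
          mem_erase.mpr ⟨(K.hτ1 i u hu).2, mem_orb.mpr (K.hτ1 i u hu).1⟩⟩, rfl⟩)
  have h4 := card_le_card h3
  rw [card_union_of_disjoint hdisj, h2] at h4
  have h5 : (N ∪ Q).card ≤ (nbs A u).card + Δ * ((orb A u).card - 1) := by
    refine (card_union_le _ _).trans (add_le_add card_image_le ?_)
    refine card_image_le.trans ?_
    rw [card_product, card_univ, Fintype.card_fin, card_erase_of_mem (mem_orb.mpr (Same.refl A u))]
  have h6 := K.hD u hu
  have h7 : 1 ≤ (orb A u).card := card_pos.mpr ⟨u, mem_orb.mpr (Same.refl A u)⟩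
  have h8 : Δ * ((orb A u).card - 1) + Δ = Δ * (orb A u).card := by
    obtain ⟨m, hm⟩ : ∃ m, (orb A u).card = m + 1 := ⟨(orb A u).card - 1, by omega⟩
    rw [hm, Nat.add_sub_cancel]
    ring
  omega

/-- minimal level of an edge -/
def ml (lev : W → ℕ) (s : Sym2 W) : ℕ :=
  Sym2.lift ⟨fun u v => min (lev u) (lev v), fun u v => min_comm _ _⟩ s

lemma ml_mk (lev : W → ℕ) (u v : W) : ml lev s(u, v) = min (lev u) (lev v) := rfl

/-- multiplicity -/
lemma EC_mult (K : Comp A Δ D c) (S : Finset (Option (Fin Δ) × Sym2 W)) (hS : S ⊆ EC K)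
    (x z : W) : (S.filter (fun e => e.2 = s(x, z))).card ≤ Δ ∨
      ((S.filter (fun e => e.2 = s(x, z))).card ≤ Δ + 1 ∧ K.C x ∧ A.Adj x z ∧ Same A x z ∧
        ∀ i, K.τ i x ≠ z) := by
  classical
  set F := S.filter (fun e => e.2 = s(x, z)) with hF
  have hinj : Set.InjOn (Prod.fst : Option (Fin Δ) × Sym2 W → Option (Fin Δ)) (F : Set _) := by
    rintro ⟨t, s⟩ h ⟨t', s'⟩ h' htt
    have h1 := (mem_filter.mp (mem_coe.mp h)).2
    have h2 := (mem_filter.mp (mem_coe.mp h')).2
    simp only at h1 h2 htt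
    rw [h1, h2, htt]
  have hcard : F.card = (F.image Prod.fst).card := (card_image_of_injOn hinj).symm
  have hmax : (F.image Prod.fst).card ≤ Δ + 1 := by
    refine (card_le_univ _).trans ?_
    simp
  by_cases hall : (F.image Prod.fst) = univ
  · right
    refine ⟨by rw [hcard]; exact hmax, ?_⟩
    have hmem : ∀ t : Option (Fin Δ), (t, s(x, z)) ∈ EC K := by
      intro t
      have : t ∈ F.image Prod.fst := by rw [hall]; exact mem_univ _
      obtain ⟨⟨t', s'⟩, h1, h2⟩ := mem_image.mp this
      obtain ⟨h3, h4⟩ := mem_filter.mp h1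
      simp only at h2 h4
      subst h2 h4
      exact hS h3
    have h0 := (mem_EC K).mp (hmem none)
    have h1 := (mem_EC K).mp (hmem (some ⟨0, K.hΔ⟩))
    exact ⟨h0.1, h0.2, h1.2.1, fun i hi => h1.2.2.2 ⟨rfl, i, hi⟩⟩
  · left
    rw [hcard]
    have : (F.image Prod.fst).card < (univ : Finset (Option (Fin Δ))).card := by
      apply card_lt_card
      exact (Finset.ssubset_univ_iff).mpr hall
    rw [card_univ, Fintype.card_option, Fintype.card_fin] at this
    omega

/-- The residual multigraph is colourable. -/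
theorem EC_colour (K : Comp A Δ D c) (S : Finset (Option (Fin Δ) × Sym2 W)) (hS : S ⊆ EC K) :
    ∃ f : Option (Fin Δ) × Sym2 W → Fin (D - c), Proper Prod.snd S f := by
  classical
  induction hn : S.card using Nat.strong_induction_on generalizing S with
  | _ n ih =>
  subst hn
  have hkpos : 0 < D - c := by
    have := EC_deg K K.r K.hCr
    have := K.hΔ
    omega
  rcases S.eq_empty_or_nonempty with rfl | hne
  · exact ⟨fun _ => ⟨0, hkpos⟩, by intro e he; simp at he⟩
  obtain ⟨e, heS, hmin⟩ := exists_min_image S (fun e => ml K.lev e.2) hne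
  obtain ⟨x, y, hxy, hlev⟩ : ∃ x y, e.2 = s(x, y) ∧ K.lev x ≤ K.lev y := by
    obtain ⟨t, s⟩ := e
    induction s using Sym2.ind with
    | _ u v =>
      rcases le_total (K.lev u) (K.lev v) with h | h
      · exact ⟨u, v, rfl, h⟩
      · exact ⟨v, u, Sym2.eq_swap, h⟩
  have hml : ml K.lev e.2 = K.lev x := by rw [hxy, ml_mk]; exact min_eq_left hlev
  have heE : (e.1, s(x, y)) ∈ EC K := by rw [← hxy]; exact hS heS
  obtain ⟨hCx, hP⟩ := (mem_EC K).mp heE
  have hxy' : x ≠ y := PP.ne hP
  obtain ⟨f, hf⟩ := ih (S.erase e).card (by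
    rw [card_erase_of_mem heS]
    have : 0 < S.card := card_pos.mpr hne
    omega) (S.erase e) ((erase_subset _ _).trans hS) rfl
  -- general bounds
  have hdegS : ∀ u, K.C u → (S.filter (fun e => u ∈ e.2)).card + Δ ≤ D - c := by
    intro u hu
    have h1 := EC_deg K u hu
    have h2 : (S.filter (fun e => u ∈ e.2)).card ≤ ((EC K).filter (fun e => u ∈ e.2)).card :=
      card_le_card (filter_subset_filter _ hS)
    omega
  have hdegS0 : ∀ u, ¬ K.C u → (S.filter (fun e => u ∈ e.2)).card = 0 := by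
    intro u hu
    rw [card_eq_zero, filter_eq_empty_iff]
    rintro ⟨t, s⟩ h hm
    obtain ⟨v, rfl⟩ := Sym2.mem_iff_exists.mp hm
    exact hu ((mem_EC K).mp (hS h)).1
  -- exceptional vertex
  obtain ⟨z0, hz0⟩ : ∃ z0, ∀ z, z ≠ x →
      (S.filter (fun e => z ∈ e.2)).card + (S.filter (fun e => e.2 = s(x, z))).card ≤
        (D - c) + if z = z0 then 1 else 0 := by
    by_cases hx0 : K.lev x = 0
    · by_cases hex : ∃ z, A.Adj x z ∧ Same A x z ∧ ∀ i, K.τ i x ≠ z
      · obtain ⟨z0, h1, h2, h3⟩ := hex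
        refine ⟨z0, fun z hz => ?_⟩
        by_cases hCz : K.C z
        · have hd := hdegS z hCz
          rcases EC_mult K S hS x z with hm | ⟨hm, -, h4, h5, h6⟩
          · omega
          · have : z = z0 := K.hτ5 x (K.hL3 x hCx hx0) z z0 h4 h5 h1 h2 h6 h3
            rw [if_pos this]
            omega
        · have h7 := hdegS0 z hCz
          have hd := hdegS x hCx
          rcases EC_mult K S hS x z with hm | ⟨hm, -, h4, h5, h6⟩
          · omega
          · exact absurd (K.hCsame _ _ hCx h5) hCz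
      · refine ⟨x, fun z hz => ?_⟩
        rcases EC_mult K S hS x z with hm | ⟨hm, -, h4, h5, h6⟩
        · by_cases hCz : K.C z
          · have hd := hdegS z hCz
            omega
          · have h7 := hdegS0 z hCz
            have hd := hdegS x hCx
            omega
        · exact absurd ⟨z, h4, h5, h6⟩ hex
    · refine ⟨x, fun z hz => ?_⟩
      rcases EC_mult K S hS x z with hm | ⟨hm, -, h4, h5, h6⟩
      · by_cases hCz : K.C z
        · have hd := hdegS z hCz
          omega
        · have h7 := hdegS0 z hCz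
          have hd := hdegS x hCx
          omega
      · have hCz : K.C z := K.hCsame _ _ hCx h5
        have hlz : K.lev z ≠ 0 := by rw [← K.hL1 x z h5]; exact hx0
        obtain ⟨w, hzw, hlw⟩ := K.hL2 z hCz hlz
        have hmemE : ((none : Option (Fin Δ)), s(z, w)) ∈ EC K := (mem_EC K).mpr ⟨hCz, hzw⟩
        have hnot : ((none : Option (Fin Δ)), s(z, w)) ∉ S := by
          intro h
          have h8 := hmin _ h
          rw [hml] at h8
          simp only [ml_mk] at h8
          have h9 := K.hL1 x z h5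
          omega
        have h10 : (S.filter (fun e => z ∈ e.2)).card <
            ((EC K).filter (fun e => z ∈ e.2)).card := by
          apply card_lt_card
          rw [ssubset_iff_of_subset (filter_subset_filter _ hS)]
          exact ⟨_, mem_filter.mpr ⟨hmemE, Sym2.mem_mk_left _ _⟩,
            fun h => hnot (mem_filter.mp h).1⟩
        have h11 := EC_deg K z hCz
        omega
  -- apply the fan lemma
  have hres := fan_lemma (k := D - c) Prod.snd (S.erase e)
    (fun f hf => EC_diag K f (hS (mem_of_mem_erase hf))) e (notMem_erase _ _) x y hxy hxy' f hf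
    (by
      have h1 := hdegS x hCx
      have h2 : ((S.erase e).filter (fun e => x ∈ e.2)).card ≤
          (S.filter (fun e => x ∈ e.2)).card :=
        card_le_card (filter_subset_filter _ (erase_subset _ _))
      have h3 := K.hΔ
      omega)
    (by
      intro Y hyY hxY
      have hle : ∀ z, ((S.erase e).filter (fun e => z ∈ e.2)).card +
          ((S.erase e).filter (fun e => e.2 = s(x, z))).card ≤
          (S.filter (fun e => z ∈ e.2)).card + (S.filter (fun e => e.2 = s(x, z))).card := by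
        intro z
        exact add_le_add (card_le_card (filter_subset_filter _ (erase_subset _ _)))
          (card_le_card (filter_subset_filter _ (erase_subset _ _)))
      have hy2 : ((S.erase e).filter (fun e => y ∈ e.2)).card +
          ((S.erase e).filter (fun e => e.2 = s(x, y))).card + 2 =
          (S.filter (fun e => y ∈ e.2)).card + (S.filter (fun e => e.2 = s(x, y))).card := by
        have e1 : (S.erase e).filter (fun e => y ∈ e.2) =
            (S.filter (fun e => y ∈ e.2)).erase e := filter_erase _ _ _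
        have e2 : (S.erase e).filter (fun e => e.2 = s(x, y)) =
            (S.filter (fun e => e.2 = s(x, y))).erase e := filter_erase _ _ _
        have m1 : e ∈ S.filter (fun e => y ∈ e.2) :=
          mem_filter.mpr ⟨heS, by rw [hxy]; exact Sym2.mem_mk_right _ _⟩
        have m2 : e ∈ S.filter (fun e => e.2 = s(x, y)) := mem_filter.mpr ⟨heS, hxy⟩
        rw [e1, e2, card_erase_of_mem m1, card_erase_of_mem m2]
        have p1 := card_pos.mpr ⟨e, m1⟩
        have p2 := card_pos.mpr ⟨e, m2⟩
        omega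
      have hsumS : ∑ z ∈ Y, ((S.filter (fun e => z ∈ e.2)).card +
          (S.filter (fun e => e.2 = s(x, z))).card) ≤ (D - c) * Y.card + 1 := by
        calc _ ≤ ∑ z ∈ Y, ((D - c) + if z = z0 then 1 else 0) :=
              sum_le_sum fun z hz => hz0 z (fun h => hxY (h ▸ hz))
          _ = (D - c) * Y.card + ∑ z ∈ Y, (if z = z0 then 1 else 0) := by
              rw [sum_add_distrib, sum_const, smul_eq_mul, mul_comm]
          _ ≤ (D - c) * Y.card + 1 := by
              apply Nat.add_le_add_left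
              rw [sum_ite_eq']
              split_ifs <;> omega
      rw [← add_sum_erase Y _ hyY] at hsumS ⊢
      have hrest : ∑ z ∈ Y.erase y, (((S.erase e).filter (fun e => z ∈ e.2)).card +
          ((S.erase e).filter (fun e => e.2 = s(x, z))).card) ≤
          ∑ z ∈ Y.erase y, ((S.filter (fun e => z ∈ e.2)).card +
          (S.filter (fun e => e.2 = s(x, z))).card) := sum_le_sum fun z _ => hle z
      omega)
  rw [insert_erase heS] at hres
  exact hres

end Pool.Agent.Helper101.Wr
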