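import Pool.Agent.Helper101.WrD

set_option autoImplicit false
set_option linter.unusedSectionVars false

namespace Pool.Agent.Helper101.Wr

open Finset

variable {W : Type*} [Fintype W] [DecidableEq W]

/-- A colouring kit on the vertices satisfying `C`. -/
structure Kit (A : SimpleGraph W) (Δ D : ℕ) (C : W → Prop) where
  h : W → W → Fin D
  q : Fin Δ → W → W → Fin D
  K0 : ∀ u v, C u → A.Adj u v → h u v = h v u
  K1 : ∀ u v w, C u → A.Adj u v → A.Adj u w → h u v = h u w → v = w
  K2 : ∀ u v w l, C u → A.Adj u v → Same A u w → h u v ≠ q l u w ∧ h u v ≠ q l w u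
  K3 : ∀ u v w l, C u → Same A u v → Same A u w →
    (q l u v = q l u w → v = w) ∧ (q l v u = q l w u → v = w)
  K4 : ∀ u v w l l', C u → Same A u v → Same A u w → l ≠ l' →
    q l u v ≠ q l' u w ∧ q l u v ≠ q l' w u ∧ q l v u ≠ q l' u w ∧ q l v u ≠ q l' w u

variable {A : SimpleGraph W} {Δ D c : ℕ}

lemma loops (K : Comp A Δ D c) (f : Option (Fin Δ) × Sym2 W → Fin (D - c)) :
    ∃ m : W → Fin Δ → Fin (D - c), (∀ u, K.C u → Function.Injective (m u)) ∧
      ∀ u l, K.C u → Miss Prod.snd (EC K) f u (m u l) := by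
  classical
  have hkpos : 0 < D - c := by
    have := EC_deg K K.r K.hCr
    have := K.hΔ
    omega
  have key : ∀ u, ∃ mu : Fin Δ → Fin (D - c), K.C u → (Function.Injective mu ∧
      ∀ l, Miss Prod.snd (EC K) f u (mu l)) := by
    intro u
    by_cases hu : K.C u
    swap
    · exact ⟨fun _ => ⟨0, hkpos⟩, fun h => absurd h hu⟩
    have h1 : (univ.filter (fun α => ¬ Miss Prod.snd (EC K) f u α)) ⊆
        ((EC K).filter (fun e => u ∈ e.2)).image f := by
      intro α hα
      have := (mem_filter.mp hα).2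
      unfold Miss at this
      push Not at this
      obtain ⟨e, he, hx, hc⟩ := this
      exact mem_image.mpr ⟨e, mem_filter.mpr ⟨he, hx⟩, hc⟩
    have h2 := (card_le_card h1).trans card_image_le
    have h3 := card_filter_add_card_filter_not (s := (univ : Finset (Fin (D - c))))
      (fun α => Miss Prod.snd (EC K) f u α)
    rw [card_univ, Fintype.card_fin] at h3
    have h4 := EC_deg K u hu
    have h5 : Δ ≤ (univ.filter (fun α => Miss Prod.snd (EC K) f u α)).card := by omega
    obtain ⟨s, hs, hcard⟩ := exists_subset_card_eq h5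
    have e : Fin Δ ≃ s := (Fintype.equivFinOfCardEq (by simp [hcard])).symm
    refine ⟨fun l => (e l : Fin (D - c)), fun _ => ⟨?_, ?_⟩⟩
    · intro l l' hl
      exact e.injective (Subtype.ext hl)
    · intro l
      exact (mem_filter.mp (hs (e l).2)).2
  choose m hm using key
  exact ⟨m, fun u hu => (hm u hu).1, fun u l hu => (hm u hu).2 l⟩

/-- A kit from the component data. -/
theorem kit_of_comp (K : Comp A Δ D c) : Nonempty (Kit A Δ D K.C) := by
  classical
  obtain ⟨f, hf⟩ := EC_colour K (EC K) (Subset.refl _)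
  obtain ⟨m, hm1, hm2⟩ := loops K f
  have hcD : c ≤ D := by
    have := EC_deg K K.r K.hCr
    omega
  set up : Fin (D - c) → Fin D := fun i => ⟨c + i, by have := i.2; omega⟩ with hup
  set res : Fin c → Fin D := fun i => ⟨i, by have := i.2; omega⟩ with hres
  have hupinj : ∀ i j, up i = up j → i = j := by
    intro i j h
    have := congrArg Fin.val h
    simp only [hup] at this
    exact Fin.ext (by omega)
  have hresinj : ∀ i j, res i = res j → i = j := by
    intro i j h
    have := congrArg Fin.val h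
    simp only [hres] at this
    exact Fin.ext this
  have hur : ∀ i j, up i ≠ res j := by
    intro i j h
    have := congrArg Fin.val h
    simp only [hres, hup] at this
    have := j.2
    omega
  set q : Fin Δ → W → W → Fin D := fun l u v =>
    if u = v then up (m u l) else
      if h : ((l : ℕ) = 0 ∧ ∃ i, K.τ i u = v) then res h.2.choose else up (f (some l, s(u, v)))
    with hq
  set NR : W → Fin Δ → W → Fin (D - c) → Prop := fun u l w y =>
    (w = u ∧ y = m u l) ∨ ((some l, s(u, w)) ∈ EC K ∧ y = f (some l, s(u, w))) with hNR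
  have qc1 : ∀ u w l, K.C u → Same A u w → (∃ y, q l u w = up y ∧ NR u l w y) ∨
      ((l : ℕ) = 0 ∧ ∃ i, q l u w = res i ∧ K.τ i u = w) := by
    intro u w l hu hs
    by_cases huw : u = w
    · left
      refine ⟨m u l, by simp [hq, huw], Or.inl ⟨huw.symm, rfl⟩⟩
    · by_cases h : ((l : ℕ) = 0 ∧ ∃ i, K.τ i u = w)
      · right
        refine ⟨h.1, h.2.choose, ?_, h.2.choose_spec⟩
        simp only [hq, if_neg huw, dif_pos h]
      · left
        refine ⟨f (some l, s(u, w)), by simp only [hq, if_neg huw, dif_neg h], Or.inr ⟨?_, rfl⟩⟩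
        exact (mem_EC K).mpr ⟨hu, hs, huw, h⟩
  have qc2 : ∀ u w l, K.C u → Same A u w → (∃ y, q l w u = up y ∧ NR u l w y) ∨
      ((l : ℕ) = 0 ∧ ∃ i, q l w u = res i ∧ K.τ i w = u) := by
    intro u w l hu hs
    by_cases huw : w = u
    · left
      refine ⟨m u l, by simp [hq, huw], Or.inl ⟨huw, rfl⟩⟩
    · by_cases h : ((l : ℕ) = 0 ∧ ∃ i, K.τ i w = u)
      · right
        refine ⟨h.1, h.2.choose, ?_, h.2.choose_spec⟩
        simp only [hq, if_neg huw, dif_pos h]
      · left
        refine ⟨f (some l, s(w, u)), by simp only [hq, if_neg huw, dif_neg h], Or.inr ?_⟩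
        have h1 : (some l, s(w, u)) ∈ EC K :=
          (mem_EC K).mpr ⟨K.hCsame _ _ hu hs, hs.symm, huw, h⟩
        have e : s(w, u) = s(u, w) := Sym2.eq_swap
        rw [e] at h1 ⊢
        exact ⟨h1, rfl⟩
  have NRd : ∀ u l w l' w' y, K.C u → NR u l w y → NR u l' w' y → l = l' ∧ w = w' := by
    intro u l w l' w' y hu h h'
    rcases h with ⟨h1, h2⟩ | ⟨h1, h2⟩
    · rcases h' with ⟨h1', h2'⟩ | ⟨h1', h2'⟩
      · exact ⟨hm1 u hu (h2.symm.trans h2'), h1.trans h1'.symm⟩
      · exact absurd (h2'.symm.trans h2) (hm2 u l hu _ h1' (Sym2.mem_mk_left _ _))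
    · rcases h' with ⟨h1', h2'⟩ | ⟨h1', h2'⟩
      · exact absurd (h2.symm.trans h2') (hm2 u l' hu _ h1 (Sym2.mem_mk_left _ _))
      · by_contra hcon
        have hne : ((some l, s(u, w)) : Option (Fin Δ) × Sym2 W) ≠ (some l', s(u, w')) := by
          intro heq
          simp only [Prod.mk.injEq, Option.some.injEq] at heq
          exact hcon ⟨heq.1, Sym2.congr_right.mp heq.2⟩
        exact hf _ h1 _ h1' hne u (Sym2.mem_mk_left _ _) (Sym2.mem_mk_left _ _)
          (h2.symm.trans h2')
  have NRh : ∀ u v l w y, K.C u → A.Adj u v → NR u l w y → f (none, s(u, v)) ≠ y := by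
    intro u v l w y hu hv h heq
    have hmem : (none, s(u, v)) ∈ EC K := (mem_EC K).mpr ⟨hu, hv⟩
    rcases h with ⟨h1, h2⟩ | ⟨h1, h2⟩
    · exact hm2 u l hu _ hmem (Sym2.mem_mk_left _ _) (heq.trans h2)
    · exact hf _ hmem _ h1 (by simp) u (Sym2.mem_mk_left _ _) (Sym2.mem_mk_left _ _)
        (heq.trans h2)
  refine ⟨⟨fun u v => up (f (none, s(u, v))), q, ?_, ?_, ?_, ?_, ?_⟩⟩
  · intro u v _ _
    rw [Sym2.eq_swap]
  · intro u v w hu hv hw h
    have h1 := hupinj _ _ h
    by_contra hvw
    exact hf _ ((mem_EC K (t := none)).mpr ⟨hu, hv⟩) _ ((mem_EC K (t := none)).mpr ⟨hu, hw⟩)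
      (by
        intro heq
        simp only [Prod.mk.injEq, true_and] at heq
        exact hvw (Sym2.congr_right.mp heq)) u (Sym2.mem_mk_left _ _) (Sym2.mem_mk_left _ _) h1
  · intro u v w l hu hv hs
    constructor
    · rcases qc1 u w l hu hs with ⟨y, h1, h2⟩ | ⟨_, i, h1, _⟩
      · rw [h1]
        exact fun h => NRh u v l w y hu hv h2 (hupinj _ _ h)
      · rw [h1]
        exact hur _ _
    · rcases qc2 u w l hu hs with ⟨y, h1, h2⟩ | ⟨_, i, h1, _⟩
      · rw [h1]
        exact fun h => NRh u v l w y hu hv h2 (hupinj _ _ h)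
      · rw [h1]
        exact hur _ _
  · intro u v w l hu hsv hsw
    constructor
    · intro heq
      rcases qc1 u v l hu hsv with ⟨y, h1, h2⟩ | ⟨_, i, h1, h2⟩
      · rcases qc1 u w l hu hsw with ⟨y', h1', h2'⟩ | ⟨_, i', h1', h2'⟩
        · rw [h1, h1'] at heq
          have := hupinj _ _ heq
          subst this
          exact (NRd u l v l w y hu h2 h2').2
        · rw [h1, h1'] at heq
          exact absurd heq (hur _ _)
      · rcases qc1 u w l hu hsw with ⟨y', h1', h2'⟩ | ⟨_, i', h1', h2'⟩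
        · rw [h1, h1'] at heq
          exact absurd heq.symm (hur _ _)
        · rw [h1, h1'] at heq
          have := hresinj _ _ heq
          subst this
          exact h2.symm.trans h2'
    · intro heq
      rcases qc2 u v l hu hsv with ⟨y, h1, h2⟩ | ⟨_, i, h1, h2⟩
      · rcases qc2 u w l hu hsw with ⟨y', h1', h2'⟩ | ⟨_, i', h1', h2'⟩
        · rw [h1, h1'] at heq
          have := hupinj _ _ heq
          subst this
          exact (NRd u l v l w y hu h2 h2').2
        · rw [h1, h1'] at heq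
          exact absurd heq (hur _ _)
      · rcases qc2 u w l hu hsw with ⟨y', h1', h2'⟩ | ⟨_, i', h1', h2'⟩
        · rw [h1, h1'] at heq
          exact absurd heq.symm (hur _ _)
        · rw [h1, h1'] at heq
          have := hresinj _ _ heq
          subst this
          exact K.hτ4 i v w (K.hCsame _ _ hu hsv) (K.hCsame _ _ hu hsw) (h2.trans h2'.symm)
  · intro u v w l l' hu hsv hsw hll
    have gen : ∀ a b : Fin D, ((∃ y, a = up y ∧ NR u l v y) ∨ ((l : ℕ) = 0 ∧ ∃ i, a = res i)) →
        ((∃ y, b = up y ∧ NR u l' w y) ∨ ((l' : ℕ) = 0 ∧ ∃ i, b = res i)) → a ≠ b := by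
      intro a b ha hb hab
      rcases ha with ⟨y, h1, h2⟩ | ⟨h0, i, h1⟩
      · rcases hb with ⟨y', h1', h2'⟩ | ⟨_, i', h1'⟩
        · rw [h1, h1'] at hab
          have := hupinj _ _ hab
          subst this
          exact hll (NRd u l v l' w y hu h2 h2').1
        · rw [h1, h1'] at hab
          exact hur _ _ hab
      · rcases hb with ⟨y', h1', h2'⟩ | ⟨h0', i', h1'⟩
        · rw [h1, h1'] at hab
          exact hur _ _ hab.symm
        · exact hll (Fin.ext (h0.trans h0'.symm))
    have a1 : (∃ y, q l u v = up y ∧ NR u l v y) ∨ ((l : ℕ) = 0 ∧ ∃ i, q l u v = res i) := by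
      rcases qc1 u v l hu hsv with h | ⟨h0, i, h, _⟩
      · exact Or.inl h
      · exact Or.inr ⟨h0, i, h⟩
    have a2 : (∃ y, q l v u = up y ∧ NR u l v y) ∨ ((l : ℕ) = 0 ∧ ∃ i, q l v u = res i) := by
      rcases qc2 u v l hu hsv with h | ⟨h0, i, h, _⟩
      · exact Or.inl h
      · exact Or.inr ⟨h0, i, h⟩
    have b1 : (∃ y, q l' u w = up y ∧ NR u l' w y) ∨
        ((l' : ℕ) = 0 ∧ ∃ i, q l' u w = res i) := by
      rcases qc1 u w l' hu hsw with h | ⟨h0, i, h, _⟩
      · exact Or.inl h
      · exact Or.inr ⟨h0, i, h⟩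
    have b2 : (∃ y, q l' w u = up y ∧ NR u l' w y) ∨
        ((l' : ℕ) = 0 ∧ ∃ i, q l' w u = res i) := by
      rcases qc2 u w l' hu hsw with h | ⟨h0, i, h, _⟩
      · exact Or.inl h
      · exact Or.inr ⟨h0, i, h⟩
    exact ⟨gen _ _ a1 b1, gen _ _ a1 b2, gen _ _ a2 b1, gen _ _ a2 b2⟩

/-! ### Construction of the component data -/

/-- base relation -/
def BB (A : SimpleGraph W) (u v : W) : Prop := A.Adj u v ∨ Same A u v

/-- level sets -/
def Lv (A : SimpleGraph W) (r : W) : ℕ → W → Prop
  | 0, u => Same A r u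
  | n + 1, u => ∃ u' w, Same A u u' ∧ A.Adj u' w ∧ Lv A r n w

lemma Lv_same {r : W} (n : ℕ) {u v : W} (h : Same A u v) (hu : Lv A r n u) : Lv A r n v := by
  cases n with
  | zero => exact Same.trans hu h
  | succ n =>
    obtain ⟨u', w, h1, h2, h3⟩ := hu
    exact ⟨u', w, h.symm.trans h1, h2, h3⟩

lemma exists_Lv {r u : W} (h : Relation.ReflTransGen (BB A) r u) : ∃ n, Lv A r n u := by
  induction h with
  | refl => exact ⟨0, Same.refl A r⟩
  | tail _ hb ih =>
    obtain ⟨n, hn⟩ := ih
    rcases hb with hb | hb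
    · exact ⟨n + 1, _, _, Same.refl A _, hb.symm, hn⟩
    · exact ⟨n, Lv_same n hb hn⟩

lemma card_orb_same {u v : W} (h : Same A u v) : (orb A u).card = (orb A v).card := by
  congr 1
  ext w
  rw [mem_orb, mem_orb]
  exact ⟨fun h' => h.symm.trans h', fun h' => h.trans h'⟩

/-- family on a set -/
def Fam (c : ℕ) (t : Fin c → W → W) (X : W → Prop) : Prop :=
  (∀ i u, X u → X (t i u) ∧ t i u ≠ u) ∧ (∀ u i j, X u → t i u = t j u → i = j) ∧
  (∀ i u, X u → ∃ j, t j (t i u) = u) ∧ (∀ i u v, X u → X v → t i u = t i v → u = v)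

lemma fam_of_good (X : W → Prop) [DecidablePred X] (τ : Fin c → Equiv.Perm {v // X v})
    (h : Good c τ) :
    ∃ t : Fin c → W → W, Fam c t X ∧ ∀ i u (hu : X u), t i u = (τ i ⟨u, hu⟩ : W) := by
  set t : Fin c → W → W := fun i u => if hu : X u then (τ i ⟨u, hu⟩ : W) else u with ht
  have hval : ∀ i u (hu : X u), t i u = (τ i ⟨u, hu⟩ : W) := fun i u hu => by simp [ht, hu]
  obtain ⟨h1, h2, h3⟩ := h
  refine ⟨t, ⟨?_, ?_, ?_, ?_⟩, hval⟩
  · intro i u hu
    rw [hval i u hu]
    exact ⟨(τ i ⟨u, hu⟩).2, fun h => h1 i ⟨u, hu⟩ (Subtype.ext h)⟩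
  · intro u i j hu h
    rw [hval i u hu, hval j u hu] at h
    exact h2 ⟨u, hu⟩ i j (Subtype.ext h)
  · intro i u hu
    obtain ⟨j, hj⟩ := h3 i ⟨u, hu⟩
    refine ⟨j, ?_⟩
    have hX : X (t i u) := by rw [hval i u hu]; exact (τ i ⟨u, hu⟩).2
    rw [hval j (t i u) hX]
    have : (⟨t i u, hX⟩ : {v // X v}) = τ i ⟨u, hu⟩ := Subtype.ext (hval i u hu)
    rw [this, hj]
  · intro i u v hu hv h
    rw [hval i u hu, hval i v hv] at h
    have := (τ i).injective (Subtype.ext h)
    exact congrArg Subtype.val this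

/-- Component data exist for a root of minimal orbit size. -/
theorem comp_exists (A : SimpleGraph W) (Δ D : ℕ) (hΔ : 1 ≤ Δ)
    (hD : ∀ u, Δ * (orb A u).card + (nbs A u).card ≤ D) (r : W)
    (hmin : ∀ u, Relation.ReflTransGen (BB A) r u → (orb A r).card ≤ (orb A u).card) :
    ∃ (c : ℕ) (K : Comp A Δ D c), ∀ u, K.C u ↔ Relation.ReflTransGen (BB A) r u := by
  classical
  -- root orbit graph
  let T : SimpleGraph {v // Same A r v} := A.comap Subtype.val
  have htr : ∀ u v : {v // Same A r v}, ∃ g : T ≃g T, g u = v := by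
    intro u v
    obtain ⟨φ, hφ⟩ := u.2.symm.trans v.2
    refine ⟨⟨⟨fun w => ⟨φ w, w.2.trans ⟨φ, rfl⟩⟩, fun w => ⟨φ.symm w, w.2.trans ⟨φ.symm, rfl⟩⟩,
      fun w => ?_, fun w => ?_⟩, ?_⟩, ?_⟩
    · exact Subtype.ext (by simp)
    · exact Subtype.ext (by simp)
    · intro a b
      simp only [T, SimpleGraph.comap_adj, Equiv.coe_fn_mk]
      exact φ.map_adj_iff
    · exact Subtype.ext hφ
  have hreg : ∀ v, T.degree v = T.degree ⟨r, Same.refl A r⟩ := by
    intro v
    obtain ⟨g, hg⟩ := htr ⟨r, Same.refl A r⟩ v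
    rw [← SimpleGraph.card_neighborSet_eq_degree, ← SimpleGraph.card_neighborSet_eq_degree]
    have e := g.mapNeighborSet ⟨r, Same.refl A r⟩
    rw [hg] at e
    exact (Fintype.card_congr e).symm
  obtain ⟨c, τr, hceven, hclt, hgood, hroot⟩ := good_root T _ hreg htr ⟨⟨r, Same.refl A r⟩⟩
  have horbcard : ∀ u, Fintype.card {v // Same A u v} = (orb A u).card := by
    intro u
    rw [Fintype.card_subtype]
    rfl
  obtain ⟨tr, htrFam, htrval⟩ := fam_of_good (Same A r) τr hgood
  have key : ∀ u0 : W, ∃ t : Fin c → W → W,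
      (Relation.ReflTransGen (BB A) r u0 → Fam c t (Same A u0)) ∧ (Same A r u0 → t = tr) := by
    intro u0
    by_cases h0 : Same A r u0
    · refine ⟨tr, fun _ => ?_, fun _ => rfl⟩
      have : Same A u0 = Same A r := by
        funext v
        exact propext ⟨fun h => h0.trans h, fun h => h0.symm.trans h⟩
      rw [this]
      exact htrFam
    · by_cases h1 : Relation.ReflTransGen (BB A) r u0
      · have hlt : c < Fintype.card {v // Same A u0 v} := by
          rw [horbcard]
          rw [horbcard] at hclt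
          have := hmin u0 h1
          omega
        obtain ⟨τ, hτ⟩ := good_exists c hceven hlt
        obtain ⟨t, ht, -⟩ := fam_of_good (Same A u0) τ hτ
        exact ⟨t, fun _ => ht, fun h => absurd h h0⟩
      · exact ⟨tr, fun h => absurd h h1, fun _ => rfl⟩
  choose t ht1 ht2 using key
  -- representatives
  let S : Setoid W := ⟨Same A, ⟨Same.refl A, fun h => h.symm, fun h h' => h.trans h'⟩⟩
  let rep : W → W := fun u => (Quotient.mk S u).out
  have hrep : ∀ u, Same A (rep u) u := fun u => Quotient.exact (Quotient.out_eq (Quotient.mk S u))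
  have hrep2 : ∀ u v, Same A u v → rep u = rep v := fun u v h => by
    have : Quotient.mk S u = Quotient.mk S v := Quotient.sound h
    simp only [rep, this]
  have hC : ∀ u v, Relation.ReflTransGen (BB A) r u → Same A u v →
      Relation.ReflTransGen (BB A) r v := fun u v h h' => h.tail (Or.inr h')
  have hfam : ∀ u, Relation.ReflTransGen (BB A) r u → Fam c (t (rep u)) (Same A (rep u)) :=
    fun u hu => ht1 (rep u) (hC u _ hu (hrep u).symm)
  refine ⟨c, ⟨r, Relation.ReflTransGen (BB A) r, fun i u => t (rep u) i u,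
    fun u => sInf {n | Lv A r n u}, hΔ, Relation.ReflTransGen.refl, ?_, hC, ?_, ?_, ?_, ?_, ?_,
    ?_, ?_, ?_, fun u _ => hD u⟩, fun u => Iff.rfl⟩
  · intro u v hu huv
    exact hu.tail (Or.inl huv)
  · intro u v h
    have : {n | Lv A r n u} = {n | Lv A r n v} := by
      ext n
      exact ⟨Lv_same n h, Lv_same n h.symm⟩
    simp only [this]
  · intro u hu hne
    obtain ⟨n, hn⟩ := exists_Lv hu
    have hmem : Lv A r (sInf {n | Lv A r n u}) u := Nat.sInf_mem (s := {n | Lv A r n u}) ⟨n, hn⟩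
    obtain ⟨k, hk⟩ := Nat.exists_eq_succ_of_ne_zero hne
    rw [hk] at hmem
    obtain ⟨u', w, h1, h2, h3⟩ := hmem
    obtain ⟨φ, hφ⟩ := h1.symm
    refine ⟨φ w, ?_, ?_⟩
    · rw [← hφ]
      exact φ.map_adj_iff.mpr h2
    · have h4 : Lv A r k (φ w) := Lv_same k ⟨φ, rfl⟩ h3
      have h5 : sInf {n | Lv A r n (φ w)} ≤ k := Nat.sInf_le h4
      simp only [hk]
      omega
  · intro u hu h0
    obtain ⟨n, hn⟩ := exists_Lv hu
    have hmem : Lv A r (sInf {n | Lv A r n u}) u := Nat.sInf_mem (s := {n | Lv A r n u}) ⟨n, hn⟩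
    rw [h0] at hmem
    exact hmem
  · intro i u hu
    have := (hfam u hu).1 i u (hrep u)
    exact ⟨(hrep u).symm.trans this.1, this.2⟩
  · intro u i j hu h
    exact (hfam u hu).2.1 u i j (hrep u) h
  · intro i u hu
    obtain ⟨j, hj⟩ := (hfam u hu).2.2.1 i u (hrep u)
    refine ⟨j, ?_⟩
    have h1 : Same A u (t (rep u) i u) := (hrep u).symm.trans ((hfam u hu).1 i u (hrep u)).1
    rw [← hrep2 _ _ h1]
    exact hj
  · intro i u v hu hv h
    have h1 : Same A u (t (rep u) i u) := (hrep u).symm.trans ((hfam u hu).1 i u (hrep u)).1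
    have h2 : Same A v (t (rep v) i v) := (hrep v).symm.trans ((hfam v hv).1 i v (hrep v)).1
    have h3 : Same A u v := by
      rw [h] at h1
      exact h1.trans h2.symm
    have h4 := hrep2 _ _ h3
    rw [← h4] at h
    exact (hfam u hu).2.2.2 i u v (hrep u) ((hrep u).trans h3) h
  · intro u hu v w hv hsv hw hsw hnv hnw
    have e1 : t (rep u) = tr := ht2 (rep u) (hu.trans (hrep u).symm)
    simp only [e1] at hnv hnw
    have hv' : Same A r v := hu.trans hsv
    have hw' : Same A r w := hu.trans hsw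
    have := hroot ⟨u, hu⟩ ⟨v, hv'⟩ ⟨w, hw'⟩ hv hw
      (fun i h => hnv i (by rw [htrval i u hu, h]))
      (fun i h => hnw i (by rw [htrval i u hu, h]))
    exact congrArg Subtype.val this

/-- Global kit. -/
theorem kit_exists (A : SimpleGraph W) (Δ D : ℕ) (hΔ : 1 ≤ Δ)
    (hD : ∀ u, Δ * (orb A u).card + (nbs A u).card ≤ D) :
    Nonempty (Kit A Δ D (fun _ => True)) := by
  classical
  have hsymm : ∀ u v, BB A u v → BB A v u := by
    rintro u v (h | h)
    · exact Or.inl h.symm
    · exact Or.inr h.symm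
  have hS : ∀ u v, Relation.ReflTransGen (BB A) u v → Relation.ReflTransGen (BB A) v u := by
    intro u v h
    induction h with
    | refl => exact Relation.ReflTransGen.refl
    | tail _ hb ih => exact Relation.ReflTransGen.head (hsymm _ _ hb) ih
  let S : Setoid W := ⟨Relation.ReflTransGen (BB A), ⟨fun _ => Relation.ReflTransGen.refl,
    fun h => hS _ _ h, fun h h' => h.trans h'⟩⟩
  have key : ∀ x : Quotient S, Nonempty (Kit A Δ D (fun u => Quotient.mk S u = x)) := by
    intro x
    have hne : (univ.filter (fun u => Quotient.mk S u = x)).Nonempty := by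
      obtain ⟨u, hu⟩ := Quotient.exists_rep x
      exact ⟨u, mem_filter.mpr ⟨mem_univ _, hu⟩⟩
    obtain ⟨r, hr, hmin⟩ := exists_min_image _ (fun u => (orb A u).card) hne
    have hrx : Quotient.mk S r = x := (mem_filter.mp hr).2
    obtain ⟨c, K, hK⟩ := comp_exists A Δ D hΔ hD r (fun u hu => hmin u
      (mem_filter.mpr ⟨mem_univ _, by rw [← hrx]; exact (Quotient.sound hu).symm⟩))
    obtain ⟨kit⟩ := kit_of_comp K
    have : K.C = fun u => Quotient.mk S u = x := by
      funext u
      apply propext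
      rw [hK u, ← hrx]
      exact ⟨fun h => (Quotient.sound h).symm, fun h => Quotient.exact h.symm⟩
    rw [this] at kit
    exact ⟨kit⟩
  let kit := fun x => (key x).some
  have hadj : ∀ u v, A.Adj u v → Quotient.mk S u = Quotient.mk S v := fun u v h =>
    Quotient.sound (Relation.ReflTransGen.single (Or.inl h))
  have hsame : ∀ u v, Same A u v → Quotient.mk S u = Quotient.mk S v := fun u v h =>
    Quotient.sound (Relation.ReflTransGen.single (Or.inr h))
  refine ⟨⟨fun u v => (kit (Quotient.mk S u)).h u v, fun l u v => (kit (Quotient.mk S u)).q l u v,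
    ?_, ?_, ?_, ?_, ?_⟩⟩
  · intro u v _ h
    rw [← hadj u v h]
    exact (kit (Quotient.mk S u)).K0 u v rfl h
  · intro u v w _ hv hw h
    exact (kit (Quotient.mk S u)).K1 u v w rfl hv hw h
  · intro u v w l _ hv hs
    rw [← hsame u w hs]
    exact (kit (Quotient.mk S u)).K2 u v w l rfl hv hs
  · intro u v w l _ hsv hsw
    rw [← hsame u v hsv, ← hsame u w hsw]
    exact (kit (Quotient.mk S u)).K3 u v w l rfl hsv hsw
  · intro u v w l l' _ hsv hsw hll
    rw [← hsame u v hsv, ← hsame u w hsw]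
    exact (kit (Quotient.mk S u)).K4 u v w l l' rfl hsv hsw hll

end Pool.Agent.Helper101.Wr
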